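import Pool.Agent.Helper635.CS.Ops
set_option autoImplicit false
open scoped ENNReal BigOperators InnerProductSpace Topology
open Polynomial Filter

noncomputable section
namespace Pool.Agent.Helper635.CS

section Bd
variable {ι : Type}
theorem Bd.const (c : ℂ) : Bd (fun _ : ι => c) := ⟨‖c‖, fun _ => le_rfl⟩
theorem Bd.add {f g : ι → ℂ} (hf : Bd f) (hg : Bd g) : Bd (fun i => f i + g i) := by
  obtain ⟨a, ha⟩ := hf; obtain ⟨b, hb⟩ := hg
  exact ⟨a + b, fun i => (norm_add_le _ _).trans (add_le_add (ha i) (hb i))⟩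
theorem Bd.sub {f g : ι → ℂ} (hf : Bd f) (hg : Bd g) : Bd (fun i => f i - g i) := by
  obtain ⟨a, ha⟩ := hf; obtain ⟨b, hb⟩ := hg
  exact ⟨a + b, fun i => (norm_sub_le _ _).trans (add_le_add (ha i) (hb i))⟩
theorem Bd.mul {f g : ι → ℂ} (hf : Bd f) (hg : Bd g) : Bd (fun i => f i * g i) := by
  obtain ⟨a, ha⟩ := hf; obtain ⟨b, hb⟩ := hg
  refine ⟨a * b, fun i => ?_⟩
  rw [norm_mul]
  exact mul_le_mul (ha i) (hb i) (norm_nonneg _) ((norm_nonneg _).trans (ha i))
theorem Bd.sum {κ : Type} (s : Finset κ) (f : κ → ι → ℂ) (hf : ∀ k ∈ s, Bd (f k)) :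
    Bd (fun i => ∑ k ∈ s, f k i) := by
  classical
  induction s using Finset.induction_on with
  | empty => simpa using Bd.const (ι := ι) 0
  | insert a s ha ih =>
    simp only [Finset.sum_insert ha]
    exact (hf a (Finset.mem_insert_self _ _)).add (ih fun k hk => hf k (Finset.mem_insert_of_mem hk))
theorem Bd.comp {κ : Type} {f : ι → ℂ} (hf : Bd f) (g : κ → ι) : Bd (fun k => f (g k)) := by
  obtain ⟨a, ha⟩ := hf; exact ⟨a, fun i => ha _⟩
theorem Bd.exists_pos {f : ι → ℂ} (hf : Bd f) : ∃ C : ℝ, 0 < C ∧ ∀ i, ‖f i‖ ≤ C := by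
  obtain ⟨a, ha⟩ := hf
  exact ⟨|a| + 1, by positivity, fun i => (ha i).trans ((le_abs_self a).trans (by linarith))⟩
end Bd

theorem poly_bd (P : ℂ[X]) : ∃ B : ℝ, 0 < B ∧ ∀ ζ : ℂ, ‖ζ‖ ≤ 1 → ‖P.eval ζ‖ ≤ B := by
  refine ⟨(∑ k ∈ P.support, ‖P.coeff k‖) + 1, by positivity, fun ζ hζ => ?_⟩
  rw [Polynomial.eval_eq_sum, Polynomial.sum]
  refine (norm_sum_le _ _).trans ?_
  have : ∑ k ∈ P.support, ‖P.coeff k * ζ ^ k‖ ≤ ∑ k ∈ P.support, ‖P.coeff k‖ := by
    refine Finset.sum_le_sum fun k _ => ?_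
    rw [norm_mul, norm_pow]
    exact mul_le_of_le_one_right (norm_nonneg _) (pow_le_one₀ (norm_nonneg _) hζ)
  linarith

theorem Bd_poly (P : ℂ[X]) : Bd (fun i : R => P.eval (z i)) := by
  obtain ⟨B, _, hB⟩ := poly_bd P
  exact ⟨B, fun i => hB _ (norm_z_le i)⟩

theorem Bd_zpow (k : ℤ) : Bd (fun i : R => z i ^ k) := by
  refine ⟨2 ^ k.natAbs, fun i => ?_⟩
  rw [norm_zpow]
  rcases Int.natAbs_eq k with hk | hk
  · rw [hk, zpow_natCast, Int.natAbs_natCast]
    calc ‖z i‖ ^ k.natAbs ≤ 1 := pow_le_one₀ (norm_nonneg _) (norm_z_le i)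
      _ ≤ 2 ^ k.natAbs := one_le_pow₀ (by norm_num)
  · rw [hk, zpow_neg, zpow_natCast, Int.natAbs_neg, Int.natAbs_natCast, ← inv_pow]
    refine pow_le_pow_left₀ (inv_nonneg.2 (norm_nonneg _)) ?_ _
    have h := half_le_norm_z i
    rw [inv_le_comm₀ (by linarith) (by norm_num)]
    linarith

theorem summable_ee : Summable fun i => ee i ^ 2 := by
  have : (fun i => ee i ^ 2) = ww := by
    ext i; exact Real.sq_sqrt (ww_pos i).le
  rw [this]; exact summable_ww

theorem mon_mem_Hs (k : ℕ) : mon (k : ℤ) ∈ Hs :=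
  Submodule.le_topologicalClosure _ (Submodule.subset_span ⟨k, rfl⟩)

theorem Hs_closed : IsClosed (Hs : Set (L2 R)) := Submodule.isClosed_topologicalClosure _

theorem vec_add' {ι : Type} {e : ι → ℝ} (he : Summable fun i => e i ^ 2) {f g : ι → ℂ} (hf : Bd f) (hg : Bd g) :
    vec e (fun i => f i + g i) = vec e f + vec e g := by
  ext i
  simp only [vec_coe he hf, vec_coe he hg, vec_coe he (hf.add hg), lp.coeFn_add, Pi.add_apply]
  ring
theorem vec_sub' {ι : Type} {e : ι → ℝ} (he : Summable fun i => e i ^ 2) {f g : ι → ℂ} (hf : Bd f) (hg : Bd g) :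
    vec e (fun i => f i - g i) = vec e f - vec e g := by
  ext i
  simp only [vec_coe he hf, vec_coe he hg, vec_coe he (hf.sub hg), lp.coeFn_sub, Pi.sub_apply]
  ring
theorem vec_smul' {ι : Type} {e : ι → ℝ} (he : Summable fun i => e i ^ 2) {f : ι → ℂ} (hf : Bd f) (c : ℂ) :
    vec e (fun i => c * f i) = c • vec e f := by
  ext i
  simp only [vec_coe he hf, vec_coe he ((Bd.const c).mul hf), lp.coeFn_smul, Pi.smul_apply, smul_eq_mul]
  ring

theorem poly_mem_Hs (P : ℂ[X]) : vec ee (fun i => P.eval (z i)) ∈ Hs := by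
  induction P using Polynomial.induction_on' with
  | add p q hp hq =>
    simp only [Polynomial.eval_add]
    rw [vec_add' summable_ee (Bd_poly p) (Bd_poly q)]
    exact Submodule.add_mem _ hp hq
  | monomial n a =>
    simp only [Polynomial.eval_monomial]
    have hb : Bd (fun i : R => z i ^ n) := by simpa using Bd_poly (X ^ n)
    rw [vec_smul' summable_ee hb a]
    refine Submodule.smul_mem _ _ ?_
    have := mon_mem_Hs n
    simpa [mon] using this

end Pool.Agent.Helper635.CS
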