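import Pool.Agent.Helper635.CS.ClaimA0
set_option autoImplicit false
open scoped ENNReal BigOperators InnerProductSpace Topology
open Polynomial Filter

noncomputable section
namespace Pool.Agent.Helper635.CS

def ufun (S : Finset (ℤ × ℤ)) (c : ℤ × ℤ → ℂ) (p : R × R) : ℂ :=
  ∑ s ∈ S, c s * (z p.1 ^ s.1 * z p.2 ^ s.2)
def u1fun (S : Finset (ℤ × ℤ)) (c : ℤ × ℤ → ℂ) (p : R × R) : ℂ :=
  ufun (S.filter fun s => s.1 < 0) c p
def u2fun (S : Finset (ℤ × ℤ)) (c : ℤ × ℤ → ℂ) (p : R × R) : ℂ :=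
  ufun (S.filter fun s => ¬ s.1 < 0) c p
def gfun (S : Finset (ℤ × ℤ)) (c : ℤ × ℤ → ℂ) (j : R) (i : R) : ℂ := ufun S c (i, j)

theorem ufun_eq (S : Finset (ℤ × ℤ)) (c : ℤ × ℤ → ℂ) (p : R × R) :
    ufun S c p = u1fun S c p + u2fun S c p := by
  unfold u1fun u2fun ufun
  rw [Finset.sum_filter_add_sum_filter_not]

theorem Bd_ufun (S : Finset (ℤ × ℤ)) (c : ℤ × ℤ → ℂ) : Bd (ufun S c) := by
  have h : ∀ s ∈ S, Bd (fun p : R × R => c s * (z p.1 ^ s.1 * z p.2 ^ s.2)) := by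
    intro s _
    have h1 : Bd (fun p : R × R => z p.1 ^ s.1) := (Bd_zpow s.1).comp (Prod.fst : R × R → R)
    have h2 : Bd (fun p : R × R => z p.2 ^ s.2) := (Bd_zpow s.2).comp (Prod.snd : R × R → R)
    exact (Bd.const (c s)).mul (h1.mul h2)
  exact Bd.sum S (fun s (p : R × R) => c s * (z p.1 ^ s.1 * z p.2 ^ s.2)) h

def ww' (ρ : ℂ[X]) (n : ℕ) (p : R × R) : ℂ := 4 ^ n * xx n (z p.2) * ρ.eval (z p.1)

def Ffun (S : Finset (ℤ × ℤ)) (c : ℤ × ℤ → ℂ) (ρ : ℂ[X]) (eb : R → ℂ) (n J : ℕ) (p : R × R) : ℂ :=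
  if p.2.1 = n then (u1fun S c p + eb p.1) * EJ (J + 1) (-ww' ρ n p) else ufun S c p + eb p.1

def Pfun (P ρ : ℂ[X]) (n J : ℕ) (p : R × R) : ℂ :=
  P.eval (z p.2) * (ρ.eval (z p.1) * PJ J (ww' ρ n p) + xx n (z p.2) ^ (el n - 1) / 4 ^ n)

theorem Pfun_mem (P ρ : ℂ[X]) (n J : ℕ) : Pfun P ρ n J ∈ AA := by
  have h1 : (fun p : R × R => P.eval (z p.2)) ∈ AA := poly_mem_AA zf2_mem P
  have h2 : (fun p : R × R => ρ.eval (z p.1)) ∈ AA := poly_mem_AA zf1_mem ρ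
  have h3 : (fun p : R × R => xx n (z p.2)) ∈ AA := by
    have := poly_mem_AA zf2_mem (C 2 * X ^ av n)
    simpa [xx, zf2] using this
  have h4 : ww' ρ n ∈ AA := by
    have : ww' ρ n = (algebraMap ℂ (R × R → ℂ) (4 ^ n) * fun p : R × R => xx n (z p.2)) *
        fun p : R × R => ρ.eval (z p.1) := by
      ext p; simp [ww']
    rw [this]
    exact AA.mul_mem (AA.mul_mem (AA.algebraMap_mem _) h3) h2
  have h5 := PJ_mem_AA h4 J
  have : Pfun P ρ n J = (fun p : R × R => P.eval (z p.2)) * ((fun p : R × R => ρ.eval (z p.1)) *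
      (fun p => PJ J (ww' ρ n p)) + (fun p : R × R => xx n (z p.2)) ^ (el n - 1) *
      algebraMap ℂ (R × R → ℂ) ((4 ^ n)⁻¹)) := by
    ext p
    simp [Pfun, div_eq_mul_inv]
  rw [this]
  exact AA.mul_mem h1 (AA.add_mem (AA.mul_mem h2 h5) (AA.mul_mem (AA.pow_mem h3 _) (AA.algebraMap_mem _)))

/-- a finite sum of Laurent monomials times `ρ` is a polynomial in the first variable -/
theorem rho_ufun_poly (S : Finset (ℤ × ℤ)) (c : ℤ × ℤ → ℂ) (ρ ρ₁ : ℂ[X]) (K : ℕ) (hρ : ρ = X ^ K * ρ₁)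
    (hK : ∀ s ∈ S, 0 ≤ (K : ℤ) + s.1) (j : R) :
    ∃ Q : ℂ[X], ∀ i, ρ.eval (z i) * ufun S c (i, j) = Q.eval (z i) := by
  refine ⟨∑ s ∈ S, C (c s * z j ^ s.2) * (ρ₁ * X ^ ((K : ℤ) + s.1).toNat), fun i => ?_⟩
  rw [Polynomial.eval_finsetSum, ufun, Finset.mul_sum]
  refine Finset.sum_congr rfl fun s hs => ?_
  have h1 : z i ^ ((K : ℤ) + s.1).toNat = z i ^ K * z i ^ s.1 := by
    rw [← zpow_natCast, Int.toNat_of_nonneg (hK s hs), zpow_add₀ (z_ne i), zpow_natCast]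
  simp only [Polynomial.eval_mul, Polynomial.eval_C, Polynomial.eval_pow, Polynomial.eval_X, hρ]
  rw [h1]; ring

theorem row_poly (S : Finset (ℤ × ℤ)) (c : ℤ × ℤ → ℂ) (hS : ∀ s ∈ S, 0 ≤ s.2) (i : R) :
    ∃ Q : ℂ[X], ∀ j, ufun S c (i, j) = Q.eval (z j) := by
  refine ⟨∑ s ∈ S, C (c s * z i ^ s.1) * X ^ s.2.toNat, fun j => ?_⟩
  rw [Polynomial.eval_finsetSum, ufun]
  refine Finset.sum_congr rfl fun s hs => ?_
  have h1 : z j ^ s.2.toNat = z j ^ s.2 := by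
    rw [← zpow_natCast, Int.toNat_of_nonneg (hS s hs)]
  simp only [Polynomial.eval_mul, Polynomial.eval_C, Polynomial.eval_pow, Polynomial.eval_X]
  rw [h1]; ring

theorem col_poly (S : Finset (ℤ × ℤ)) (c : ℤ × ℤ → ℂ) (hS : ∀ s ∈ S, 0 ≤ s.1) (j : R) :
    ∃ Q : ℂ[X], ∀ i, ufun S c (i, j) = Q.eval (z i) := by
  obtain ⟨Q, hQ⟩ := rho_ufun_poly S c 1 1 0 (by simp) (by simpa using hS) j
  exact ⟨Q, fun i => by simpa using hQ i⟩

theorem PJ_poly (J : ℕ) (a : ℂ) (ρ : ℂ[X]) :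
    ∃ Q : ℂ[X], ∀ ζ : ℂ, PJ J (a * ρ.eval ζ) = Q.eval ζ := by
  refine ⟨∑ k ∈ Finset.range J, C (a ^ k / ((k + 1).factorial : ℂ)) * ρ ^ k, fun ζ => ?_⟩
  rw [Polynomial.eval_finsetSum, PJ]
  refine Finset.sum_congr rfl fun k _ => ?_
  simp only [Polynomial.eval_mul, Polynomial.eval_C, Polynomial.eval_pow]
  ring

theorem EJ_bound_aux {ι : Type} {f : ι → ℂ} (hf : Bd f) (J : ℕ) : Bd (fun i => EJ J (f i)) := by
  obtain ⟨C, hC0, hC⟩ := hf.exists_pos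
  exact ⟨Real.exp C, fun i => (norm_EJ_le _ _).trans (Real.exp_le_exp.2 (hC i))⟩
theorem PJ_bound_aux {ι : Type} {f : ι → ℂ} (hf : Bd f) (J : ℕ) : Bd (fun i => PJ J (f i)) := by
  obtain ⟨C, hC0, hC⟩ := hf.exists_pos
  exact ⟨Real.exp C, fun i => (norm_PJ_le _ _).trans (Real.exp_le_exp.2 (hC i))⟩

theorem Bd_ww' (ρ : ℂ[X]) (n : ℕ) : Bd (ww' ρ n) := by
  have h3 : Bd (fun p : R × R => xx n (z p.2)) := by
    have := (Bd_poly (C 2 * X ^ av n)).comp (Prod.snd : R × R → R)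
    simpa [xx] using this
  exact ((Bd.const _).mul h3).mul ((Bd_poly ρ).comp Prod.fst)

theorem Bd_ite {ι : Type} {p : ι → Prop} [DecidablePred p] {f g : ι → ℂ} (hf : Bd f) (hg : Bd g) :
    Bd (fun i => if p i then f i else g i) := by
  obtain ⟨a, ha0, ha⟩ := hf.exists_pos; obtain ⟨b, hb0, hb⟩ := hg.exists_pos
  refine ⟨a + b, fun i => ?_⟩
  show ‖if p i then f i else g i‖ ≤ a + b
  split_ifs
  · linarith [ha i]
  · linarith [hb i]

theorem Bd_Ffun (S : Finset (ℤ × ℤ)) (c : ℤ × ℤ → ℂ) (ρ : ℂ[X]) (eb : R → ℂ) (heb : Bd eb) (n J : ℕ) :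
    Bd (Ffun S c ρ eb n J) := by
  refine Bd_ite (p := fun p : R × R => p.2.1 = n) ?_ ?_
  · refine ((Bd_ufun _ c).add (heb.comp Prod.fst)).mul (EJ_bound_aux ?_ _)
    have := (Bd.const (ι := R × R) (-1)).mul (Bd_ww' ρ n)
    simpa using this
  · exact (Bd_ufun _ c).add (heb.comp Prod.fst)

theorem Ffun_mem (S : Finset (ℤ × ℤ)) (hS : ∀ s ∈ S, 0 ≤ s.1 ∨ 0 ≤ s.2) (c : ℤ × ℤ → ℂ) (ρ ρ₁ : ℂ[X])
    (K : ℕ) (hρ : ρ = X ^ K * ρ₁) (hK : ∀ s ∈ S, 0 ≤ (K : ℤ) + s.1) (hne : ∀ i, ρ.eval (z i) ≠ 0)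
    (j₀ : R) (eb : R → ℂ) (heb : eb = fun i => (ρ.eval (z i))⁻¹ - ufun S c (i, j₀)) (hebd : Bd eb)
    (n J : ℕ) : vec e2 (Ffun S c ρ eb n J) ∈ Ks := by
  classical
  set f1 : R × R → ℂ := fun p => u1fun S c p + eb p.1 with hf1
  set f2 : R × R → ℂ := fun p => if p.2.1 = n then f1 p * (EJ (J + 1) (-ww' ρ n p) - 1) else u2fun S c p
    with hf2
  have hb1 : Bd f1 := (Bd_ufun _ c).add (hebd.comp Prod.fst)
  have hbE : Bd (fun p => EJ (J + 1) (-ww' ρ n p) - 1) := by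
    refine (EJ_bound_aux ?_ _).sub (Bd.const 1)
    have := (Bd.const (ι := R × R) (-1)).mul (Bd_ww' ρ n)
    simpa using this
  have hb2 : Bd f2 := Bd_ite (hb1.mul hbE) (Bd_ufun _ c)
  have hsum : Ffun S c ρ eb n J = fun p => f1 p + f2 p := by
    ext p
    simp only [Ffun, hf1, hf2]
    split_ifs
    · ring
    · rw [ufun_eq]; ring
  rw [hsum, vec_add' summable_e2 hb1 hb2]
  refine Submodule.add_mem _ (mem_Ks_of_row _ hb1 fun i => ?_) (mem_Ks_of_col _ hb2 fun j => ?_)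
  · obtain ⟨Q, hQ⟩ := row_poly (S.filter fun s => s.1 < 0) c (fun s hs => by
      rw [Finset.mem_filter] at hs
      rcases hS s hs.1 with h | h
      · exact absurd hs.2 (not_lt.2 h)
      · exact h) i
    have : (fun j => f1 (i, j)) = fun j => (Q + C (eb i)).eval (z j) := by
      ext j; simp only [hf1, u1fun, hQ j, Polynomial.eval_add, Polynomial.eval_C]
    rw [this]; exact poly_mem_Hs _
  · by_cases hj : j.1 = n
    · obtain ⟨Q1, hQ1⟩ := rho_ufun_poly (S.filter fun s => s.1 < 0) c ρ ρ₁ K hρ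
        (fun s hs => hK s (Finset.mem_filter.1 hs).1) j
      obtain ⟨Q2, hQ2⟩ := rho_ufun_poly S c ρ ρ₁ K hρ hK j₀
      obtain ⟨Q3, hQ3⟩ := PJ_poly J (-(4 ^ n * xx n (z j))) ρ
      have : (fun i => f2 (i, j)) = fun i =>
          (C (-(4 ^ n * xx n (z j))) * ((Q1 + 1 - Q2) * Q3)).eval (z i) := by
        ext i
        have e1 : -ww' ρ n (i, j) = -(4 ^ n * xx n (z j)) * ρ.eval (z i) := by
          simp only [ww']; ring
        simp only [hf2, hj, if_true, hf1]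
        rw [EJ_succ, e1, hQ3]
        simp only [Polynomial.eval_mul, Polynomial.eval_C, Polynomial.eval_add, Polynomial.eval_sub,
          Polynomial.eval_one, ← hQ1 i, ← hQ2 i, heb, u1fun]
        field_simp [hne i]
        ring
      rw [this]; exact poly_mem_Hs _
    · obtain ⟨Q, hQ⟩ := col_poly (S.filter fun s => ¬ s.1 < 0) c (fun s hs =>
        not_lt.1 (Finset.mem_filter.1 hs).2) j
      have : (fun i => f2 (i, j)) = fun i => Q.eval (z i) := by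
        ext i; simp only [hf2, hj, if_false, u2fun, hQ i]
      rw [this]; exact poly_mem_Hs _

end Pool.Agent.Helper635.CS
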