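import Pool.Agent.Helper635.CS.ClaimA1
set_option autoImplicit false
open scoped ENNReal BigOperators InnerProductSpace Topology
open Polynomial Filter

noncomputable section
namespace Pool.Agent.Helper635.CS

theorem norm_xx_le (n : ℕ) (ζ : ℂ) (h : ‖ζ‖ ≤ 1) : ‖xx n ζ‖ ≤ 2 := by
  unfold xx
  rw [norm_mul, norm_pow]
  have : ‖ζ‖ ^ av n ≤ 1 := pow_le_one₀ (norm_nonneg _) h
  simp only [RCLike.norm_ofNat]
  linarith

theorem el_ge (n : ℕ) : 8 ≤ el n := by
  unfold el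
  calc 8 = 8 ^ 1 := by norm_num
    _ ≤ 8 ^ (n + 1) := Nat.pow_le_pow_right (by norm_num) (by omega)

section est
variable (S : Finset (ℤ × ℤ)) (c : ℤ × ℤ → ℂ) (ρ : ℂ[X]) (eb : R → ℂ) (n J : ℕ) (j₀ : R)
  (r c₀ C₀ C₁ C₃ : ℝ)

theorem est1 (hr : 0 < r) (hρr : ∀ ζ : ℂ, ‖ζ‖ ≤ 1 → ‖ρ.eval ζ‖ ≤ r)
    (h1 : 0 < C₁) (hC1 : ∀ p : R × R, ‖u1fun S c p + eb p.1‖ ≤ C₁)
    (h3 : 0 < C₃) (hC3 : ∀ p : R × R, ‖ufun S c p + eb p.1‖ ≤ C₃) (hn : j₀.1 < n) (p : R × R) :
    ‖Ffun S c ρ eb n J p - (ufun S c p + eb p.1)‖ ≤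
      (if p.2.1 = j₀.1 then 0 else if p.2.1 < n then 0 else if p.2.1 = n then
        (C₁ + C₃) * (Real.exp (4 ^ n * r) + 1) else 0) := by
  unfold Ffun
  by_cases h : p.2.1 = n
  · have hne : ¬ p.2.1 = j₀.1 := by omega
    have hlt : ¬ p.2.1 < n := by omega
    rw [if_pos h, if_neg hne, if_neg hlt, if_pos h]
    have hw : ‖-ww' ρ n p‖ ≤ 4 ^ n * r := by
      rw [norm_neg, ww', norm_mul, norm_mul, ← h, norm_xx_self, norm_pow]
      simp only [RCLike.norm_ofNat, mul_one]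
      exact mul_le_mul_of_nonneg_left (hρr _ (norm_z_le _)) (by positivity)
    have hE : ‖EJ (J + 1) (-ww' ρ n p)‖ ≤ Real.exp (4 ^ n * r) :=
      (norm_EJ_le _ _).trans (Real.exp_le_exp.2 hw)
    calc ‖(u1fun S c p + eb p.1) * EJ (J + 1) (-ww' ρ n p) - (ufun S c p + eb p.1)‖
        ≤ ‖(u1fun S c p + eb p.1) * EJ (J + 1) (-ww' ρ n p)‖ + ‖ufun S c p + eb p.1‖ := norm_sub_le _ _
      _ ≤ C₁ * Real.exp (4 ^ n * r) + C₃ := by
          rw [norm_mul]
          exact add_le_add (mul_le_mul (hC1 p) hE (norm_nonneg _) h1.le) (hC3 p)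
      _ ≤ (C₁ + C₃) * (Real.exp (4 ^ n * r) + 1) := by
          have := Real.exp_pos (4 ^ n * r)
          nlinarith [mul_pos h3 this]
  · rw [if_neg h, sub_self, norm_zero]
    split_ifs <;> first | exact le_rfl | positivity

theorem est2 (P : ℂ[X]) (hr : 0 < r) (hρr : ∀ ζ : ℂ, ‖ζ‖ ≤ 1 → ‖ρ.eval ζ‖ ≤ r)
    (hc0 : 0 < c₀) (hc : ∀ i, c₀ ≤ ‖ρ.eval (z i)‖)
    (h1 : 0 < C₁) (hC1 : ∀ p : R × R, ‖u1fun S c p + eb p.1‖ ≤ C₁)
    (h3 : 0 < C₃) (hC3 : ∀ p : R × R, ‖ufun S c p + eb p.1‖ ≤ C₃)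
    (h0 : 0 < C₀) (hP1 : P.eval (z j₀) = 1) (hP0 : ∀ k : R, k.1 < n → k ≠ j₀ → P.eval (z k) = 0)
    (hPb : ∀ ζ : ℂ, ‖ζ‖ ≤ 1 → ‖P.eval ζ‖ ≤ C₀ * DD n)
    (heb : eb = fun i => (ρ.eval (z i))⁻¹ - ufun S c (i, j₀))
    (hJ : ∀ w : ℂ, ‖w‖ ≤ 4 ^ n * r → ‖EJ (J + 1 + 1) w * EJ (J + 1 + 1) (-w)‖ ≤ 2)
    (hn : j₀.1 < n) (p : R × R) :
    ‖Pfun P ρ n (J + 1) p * Ffun S c ρ eb n (J + 1) p - (if p.2 = j₀ then 1 else 0)‖ ≤
      (if p.2.1 = j₀.1 then ((1 / 8) ^ (n + 1) * r) * Real.exp ((1 / 8) ^ (n + 1) * r) +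
          (1 / 8) ^ (n + 1) / c₀
        else if p.2.1 < n then 0 else if p.2.1 = n then
        2 * C₀ * C₁ * (DD n / 4 ^ n) else
        C₀ * C₃ * (DD n * (r * Real.exp (2 * 4 ^ n * r) + 2 ^ (el n - 1) / 4 ^ n))) := by
  have hρne : ∀ i, ρ.eval (z i) ≠ 0 := fun i h => by
    have := hc i; rw [h, norm_zero] at this; linarith
  have hδ0 : (0 : ℝ) ≤ ((1 / 8) ^ (n + 1) * r) * Real.exp ((1 / 8) ^ (n + 1) * r) +
          (1 / 8) ^ (n + 1) / c₀ := by positivity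
  by_cases hj : p.2 = j₀
  · -- the point itself
    rw [if_pos hj, if_pos (by rw [hj])]
    have hne : ¬ p.2.1 = n := by rw [hj]; omega
    have hF : Ffun S c ρ eb n (J + 1) p = (ρ.eval (z p.1))⁻¹ := by
      unfold Ffun
      rw [if_neg hne, heb]
      have : p = (p.1, j₀) := by rw [← hj]
      rw [this]; simp
    have ht := xx_upper j₀ n hn
    set t : ℝ := (1 / 8) ^ (n + 1) with htdef
    have hx1 : ‖xx n (z j₀)‖ ≤ t := by
      have h4 : (1 : ℝ) ≤ 4 ^ n := one_le_pow₀ (by norm_num)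
      nlinarith [norm_nonneg (xx n (z j₀))]
    have ht1 : t ≤ 1 := by rw [htdef]; exact pow_le_one₀ (by norm_num) (by norm_num)
    have ht0 : 0 ≤ t := by rw [htdef]; positivity
    have hw : ‖ww' ρ n p‖ ≤ t * r := by
      rw [ww', norm_mul, norm_mul, hj, norm_pow]
      simp only [RCLike.norm_ofNat]
      exact mul_le_mul ht (hρr _ (norm_z_le _)) (norm_nonneg _) ht0
    have hPJ : ‖PJ (J + 1) (ww' ρ n p) - 1‖ ≤ (t * r) * Real.exp (t * r) :=
      (norm_PJ_sub_one _ _).trans (mul_le_mul hw (Real.exp_le_exp.2 hw) (Real.exp_pos _).le (by positivity))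
    have hx : ‖xx n (z j₀) ^ (el n - 1) / 4 ^ n * (ρ.eval (z p.1))⁻¹‖ ≤ t / c₀ := by
      rw [norm_mul, norm_div, norm_pow, norm_inv, norm_pow, div_eq_mul_inv t]
      refine mul_le_mul ?_ (inv_anti₀ hc0 (hc _)) (by positivity) ht0
      have e1 : ‖xx n (z j₀)‖ ^ (el n - 1) ≤ t := by
        have he : el n - 1 = (el n - 2) + 1 := by have := el_ge n; omega
        rw [he, pow_succ]
        calc ‖xx n (z j₀)‖ ^ (el n - 2) * ‖xx n (z j₀)‖ ≤ 1 * t :=
              mul_le_mul (pow_le_one₀ (norm_nonneg _) (hx1.trans ht1)) hx1 (norm_nonneg _) zero_le_one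
          _ = t := one_mul _
      simp only [RCLike.norm_ofNat]
      exact (div_le_self (by positivity) (one_le_pow₀ (by norm_num))).trans e1
    have heq : Pfun P ρ n (J + 1) p * Ffun S c ρ eb n (J + 1) p - 1 =
        (PJ (J + 1) (ww' ρ n p) - 1) + xx n (z j₀) ^ (el n - 1) / 4 ^ n * (ρ.eval (z p.1))⁻¹ := by
      rw [hF, Pfun, hj, hP1]
      have := hρne p.1
      field_simp
      ring
    rw [heq]
    exact (norm_add_le _ _).trans (add_le_add hPJ hx)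
  · rw [if_neg hj, sub_zero]
    rcases lt_trichotomy p.2.1 n with h | h | h
    · have : Pfun P ρ n (J + 1) p = 0 := by rw [Pfun, hP0 _ h hj, zero_mul]
      rw [this, zero_mul, norm_zero]
      split_ifs
      · exact hδ0
      · exact le_rfl
    · have hne : ¬ p.2.1 = j₀.1 := by omega
      have hlt : ¬ p.2.1 < n := by omega
      rw [if_neg hne, if_neg hlt, if_pos h]
      have hx1 : ‖xx n (z p.2)‖ = 1 := by rw [← h]; exact norm_xx_self _
      have hxp : xx n (z p.2) ^ el n = 1 := by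
        have := xx_self_pow p.2; rwa [h] at this
      have hx0 : xx n (z p.2) ≠ 0 := by
        intro h'; rw [h', norm_zero] at hx1; exact zero_ne_one hx1
      have hw : ‖ww' ρ n p‖ ≤ 4 ^ n * r := by
        rw [ww', norm_mul, norm_mul, hx1, norm_pow]
        simp only [RCLike.norm_ofNat, mul_one]
        exact mul_le_mul_of_nonneg_left (hρr _ (norm_z_le _)) (by positivity)
      have hbr : ρ.eval (z p.1) * PJ (J + 1) (ww' ρ n p) + xx n (z p.2) ^ (el n - 1) / 4 ^ n =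
          EJ (J + 1 + 1) (ww' ρ n p) / (4 ^ n * xx n (z p.2)) := by
        rw [EJ_succ]
        have hxe : xx n (z p.2) ^ (el n - 1) * xx n (z p.2) = 1 := by
          rw [← pow_succ, Nat.sub_add_cancel (by have := el_ge n; omega), hxp]
        have h4 : (4 : ℂ) ^ n ≠ 0 := pow_ne_zero _ (by norm_num)
        rw [eq_div_iff (mul_ne_zero h4 hx0)]
        have e2 : xx n (z p.2) ^ (el n - 1) / 4 ^ n * (4 ^ n * xx n (z p.2)) = 1 := by
          rw [div_mul_eq_mul_div, mul_comm (4 ^ n : ℂ), ← mul_assoc, hxe, one_mul, div_self h4]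
        calc (ρ.eval (z p.1) * PJ (J + 1) (ww' ρ n p) + xx n (z p.2) ^ (el n - 1) / 4 ^ n) *
              (4 ^ n * xx n (z p.2)) = (4 ^ n * xx n (z p.2) * ρ.eval (z p.1)) * PJ (J + 1) (ww' ρ n p) +
              xx n (z p.2) ^ (el n - 1) / 4 ^ n * (4 ^ n * xx n (z p.2)) := by ring
          _ = 1 + ww' ρ n p * PJ (J + 1) (ww' ρ n p) := by rw [e2, add_comm]; rfl
      have heq : Pfun P ρ n (J + 1) p * Ffun S c ρ eb n (J + 1) p =
          P.eval (z p.2) * (EJ (J + 1 + 1) (ww' ρ n p) * EJ (J + 1 + 1) (-ww' ρ n p)) *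
            (u1fun S c p + eb p.1) / (4 ^ n * xx n (z p.2)) := by
        rw [Pfun, hbr, Ffun, if_pos h]
        ring
      rw [heq, norm_div, norm_mul, norm_mul, norm_mul (4 ^ n : ℂ), hx1, norm_pow]
      simp only [RCLike.norm_ofNat, mul_one]
      have hD : 0 ≤ DD n := le_trans zero_le_one (one_le_DD n)
      calc ‖P.eval (z p.2)‖ * ‖EJ (J + 1 + 1) (ww' ρ n p) * EJ (J + 1 + 1) (-ww' ρ n p)‖ *
            ‖u1fun S c p + eb p.1‖ / 4 ^ n ≤ (C₀ * DD n) * 2 * C₁ / 4 ^ n := by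
              gcongr
              · exact hPb _ (norm_z_le _)
              · exact hJ _ hw
              · exact hC1 p
        _ = 2 * C₀ * C₁ * (DD n / 4 ^ n) := by ring
    · have hne : ¬ p.2.1 = j₀.1 := by omega
      have hlt : ¬ p.2.1 < n := by omega
      have hne' : ¬ p.2.1 = n := by omega
      rw [if_neg hne, if_neg hlt, if_neg hne', Pfun, Ffun, if_neg hne', norm_mul, norm_mul]
      have hD : 0 ≤ DD n := le_trans zero_le_one (one_le_DD n)
      have hx2 := norm_xx_le n (z p.2) (norm_z_le _)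
      have hw : ‖ww' ρ n p‖ ≤ 2 * 4 ^ n * r := by
        rw [ww', norm_mul, norm_mul, norm_pow]
        simp only [RCLike.norm_ofNat]
        calc 4 ^ n * ‖xx n (z p.2)‖ * ‖ρ.eval (z p.1)‖ ≤ 4 ^ n * 2 * r := by
              gcongr
              exact hρr _ (norm_z_le _)
          _ = 2 * 4 ^ n * r := by ring
      have hin : ‖ρ.eval (z p.1) * PJ (J + 1) (ww' ρ n p) + xx n (z p.2) ^ (el n - 1) / 4 ^ n‖ ≤
          r * Real.exp (2 * 4 ^ n * r) + 2 ^ (el n - 1) / 4 ^ n := by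
        refine (norm_add_le _ _).trans (add_le_add ?_ ?_)
        · rw [norm_mul]
          exact mul_le_mul (hρr _ (norm_z_le _)) ((norm_PJ_le _ _).trans (Real.exp_le_exp.2 hw))
            (norm_nonneg _) hr.le
        · rw [norm_div, norm_pow, norm_pow]
          simp only [RCLike.norm_ofNat]
          gcongr
      calc ‖P.eval (z p.2)‖ * ‖ρ.eval (z p.1) * PJ (J + 1) (ww' ρ n p) + xx n (z p.2) ^ (el n - 1) / 4 ^ n‖ *
            ‖ufun S c p + eb p.1‖ ≤ (C₀ * DD n) * (r * Real.exp (2 * 4 ^ n * r) + 2 ^ (el n - 1) / 4 ^ n) * C₃ := by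
              gcongr
              · exact hPb _ (norm_z_le _)
              · exact hC3 p
        _ = _ := by ring

end est

end Pool.Agent.Helper635.CS
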