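import Pool.Agent.Helper635.CS.ClaimA2
set_option autoImplicit false
open scoped ENNReal BigOperators InnerProductSpace Topology
open Polynomial Filter

noncomputable section
namespace Pool.Agent.Helper635.CS

/-- the target vectors `1 ⊗ 1_{j}` -/
def tgf (j₀ : R) (p : R × R) : ℂ := by
  classical exact if p.2 = j₀ then 1 else 0

theorem Bd_tgf (j₀ : R) : Bd (tgf j₀) := by
  refine ⟨1, fun p => ?_⟩
  unfold tgf
  split_ifs <;> simp

theorem vec_fst (f : R → ℂ) (hf : Bd f) :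
    vec e2 (fun p : R × R => f p.1) = tens (vec ee f) (vec ee (fun _ => 1)) := by
  ext p
  rw [vec_coe summable_e2 (hf.comp Prod.fst), tens_coe, vec_coe summable_ee hf,
    vec_coe summable_ee (Bd.const 1), e2]
  push_cast; ring

theorem claimA (S : Finset (ℤ × ℤ)) (hS : ∀ s ∈ S, 0 ≤ s.1 ∨ 0 ≤ s.2) (c : ℤ × ℤ → ℂ) (j₀ : R)
    (ε : ℝ) (hε : 0 < ε) : ∃ F ∈ Ks, ‖F - vec e2 (ufun S c)‖ < ε ∧ ∃ q ∈ cyc F,
      ‖q - vec e2 (tgf j₀)‖ < ε := by
  classical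
  set K : ℕ := S.sup (fun s => (-s.1).toNat) with hKdef
  have hK : ∀ s ∈ S, 0 ≤ (K : ℤ) + s.1 := by
    intro s hs
    have h1 : (-s.1).toNat ≤ K := Finset.le_sup (f := fun s : ℤ × ℤ => (-s.1).toNat) hs
    have h2 := Int.self_le_toNat (-s.1)
    omega
  set E1n : ℝ := ‖vec ee (fun _ : R => (1 : ℂ))‖ with hE1n
  have hE0 : 0 ≤ E1n := norm_nonneg _
  have hg : Bd (fun i => ufun S c (i, j₀)) := (Bd_ufun S c).comp (fun i => (i, j₀))
  obtain ⟨ρ, ⟨ρ₁, hρ⟩, ⟨c₀, hc0, hc⟩, hnr⟩ :=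
    exists_rho (fun i => ufun S c (i, j₀)) hg K (ε / (2 * (E1n + 1))) (by positivity)
  have hρne : ∀ i, ρ.eval (z i) ≠ 0 := fun i h => by
    have := hc i; rw [h, norm_zero] at this; linarith
  set eb : R → ℂ := fun i => (ρ.eval (z i))⁻¹ - ufun S c (i, j₀) with heb
  have hinv : Bd (fun i => (ρ.eval (z i))⁻¹) := by
    refine ⟨c₀⁻¹, fun i => ?_⟩
    rw [norm_inv]; exact inv_anti₀ hc0 (hc i)
  have hebd : Bd eb := hinv.sub hg
  obtain ⟨r, hr, hρr⟩ := poly_bd ρ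
  obtain ⟨C₁, h1, hC1⟩ := ((Bd_ufun (S.filter fun s => s.1 < 0) c).add
    (hebd.comp (Prod.fst : R × R → R))).exists_pos
  obtain ⟨C₃, h3, hC3⟩ := ((Bd_ufun S c).add (hebd.comp (Prod.fst : R × R → R))).exists_pos
  obtain ⟨C₀, h0, hPn⟩ := exists_P j₀
  set W0 : ℝ := ∑' i, ww i with hW0
  have hW0p : 0 ≤ W0 := tsum_nonneg fun i => (ww_pos i).le
  -- the limits
  have hq : Tendsto (fun n : ℕ => ((1 / 8 : ℝ)) ^ (n + 1)) atTop (𝓝 0) :=
    (tendsto_pow_atTop_nhds_zero_of_lt_one (by norm_num) (by norm_num)).comp (tendsto_add_atTop_nat 1)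
  have hδ : Tendsto (fun n : ℕ => (((1 / 8 : ℝ)) ^ (n + 1) * r) * Real.exp ((1 / 8) ^ (n + 1) * r) +
      (1 / 8) ^ (n + 1) / c₀) atTop (𝓝 0) := by
    have h1 : Tendsto (fun n : ℕ => ((1 / 8 : ℝ)) ^ (n + 1) * r) atTop (𝓝 0) := by
      simpa using hq.mul_const r
    have h2 := (Real.continuous_exp.tendsto 0).comp h1
    have h3 := h1.mul h2
    have h4 := hq.div_const c₀
    simpa [Function.comp_def] using h3.add h4
  have hA : Tendsto (fun n : ℕ => W0 * (MM n * ((C₁ + C₃) * (Real.exp (4 ^ n * r) + 1)) ^ 2))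
      atTop (𝓝 0) := by
    have := (lim1 r).const_mul (W0 * (C₁ + C₃) ^ 2)
    rw [mul_zero] at this
    refine this.congr fun n => ?_
    ring
  have hB : Tendsto (fun n : ℕ => W0 * (MM j₀.1 * ((((1 / 8 : ℝ)) ^ (n + 1) * r) *
      Real.exp ((1 / 8) ^ (n + 1) * r) + (1 / 8) ^ (n + 1) / c₀) ^ 2 +
      MM n * (2 * C₀ * C₁ * (DD n / 4 ^ n)) ^ 2 +
      2 * MM (n + 1) * (C₀ * C₃ * (DD n * (r * Real.exp (2 * 4 ^ n * r) + 2 ^ (el n - 1) / 4 ^ n))) ^ 2))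
      atTop (𝓝 0) := by
    have t1 := ((hδ.pow 2).const_mul (MM j₀.1))
    have t2 := lim2.const_mul ((2 * C₀ * C₁) ^ 2)
    have t3 := (lim3 r).const_mul (2 * (C₀ * C₃) ^ 2)
    have := ((t1.add t2).add t3).const_mul W0
    simp only [ne_eq, OfNat.ofNat_ne_zero, not_false_eq_true, zero_pow, mul_zero, add_zero] at this
    refine this.congr fun n => ?_
    ring
  have hε2 : 0 < (ε / 2) ^ 2 := by positivity
  obtain ⟨n, ⟨⟨hnA, hnB⟩, hnj⟩⟩ := (((hA.eventually (gt_mem_nhds hε2)).and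
    (hB.eventually (gt_mem_nhds (by positivity : 0 < ε ^ 2)))).and
    (eventually_gt_atTop j₀.1)).exists
  obtain ⟨J₀, hJ₀⟩ := EJ_mul_neg (4 ^ n * r)
  obtain ⟨P, hP1, hP0, hPb⟩ := hPn n hnj
  have hJ : ∀ w : ℂ, ‖w‖ ≤ 4 ^ n * r → ‖EJ (J₀ + 1 + 1) w * EJ (J₀ + 1 + 1) (-w)‖ ≤ 2 :=
    hJ₀ (J₀ + 1 + 1) (by omega)
  have hFm := Ffun_mem S hS c ρ ρ₁ K hρ hK hρne j₀ eb heb hebd n (J₀ + 1)
  have hFb := Bd_Ffun S c ρ eb hebd n (J₀ + 1)
  have hub : Bd (fun p : R × R => ufun S c p + eb p.1) := (Bd_ufun S c).add (hebd.comp Prod.fst)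
  refine ⟨vec e2 (Ffun S c ρ eb n (J₀ + 1)), hFm, ?_, ?_⟩
  · have e1 : vec e2 (Ffun S c ρ eb n (J₀ + 1)) - vec e2 (ufun S c) =
        vec e2 (fun p => Ffun S c ρ eb n (J₀ + 1) p - (ufun S c p + eb p.1)) +
          vec e2 (fun p : R × R => eb p.1) := by
      rw [vec_sub' summable_e2 hFb hub, vec_add' summable_e2 (Bd_ufun S c) (hebd.comp Prod.fst)]
      abel
    have n1 : ‖vec e2 (fun p : R × R => eb p.1)‖ < ε / 2 := by
      rw [vec_fst eb hebd, norm_tens]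
      calc ‖vec ee eb‖ * E1n ≤ ε / (2 * (E1n + 1)) * E1n := mul_le_mul_of_nonneg_right hnr hE0
        _ < ε / 2 := by
            rw [div_mul_eq_mul_div, div_lt_div_iff₀ (by positivity) (by norm_num)]
            nlinarith
    have n2 : ‖vec e2 (fun p => Ffun S c ρ eb n (J₀ + 1) p - (ufun S c p + eb p.1))‖ < ε / 2 := by
      obtain ⟨hs, hle⟩ := tsum_b j₀.1 n hnj 0 ((C₁ + C₃) * (Real.exp (4 ^ n * r) + 1)) 0
      have := norm_vec2_le _ (hFb.sub hub) (fun m => if m = j₀.1 then 0 else if m < n then 0 else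
        if m = n then (C₁ + C₃) * (Real.exp (4 ^ n * r) + 1) else 0)
        (fun m => by
          split_ifs <;> first | exact le_rfl | positivity) hs
        (fun p => est1 S c ρ eb n (J₀ + 1) j₀ r C₁ C₃ hr hρr h1 hC1 h3 hC3 hnj p)
      have h2 : ‖vec e2 (fun p => Ffun S c ρ eb n (J₀ + 1) p - (ufun S c p + eb p.1))‖ ^ 2 <
          (ε / 2) ^ 2 := by
        refine this.trans_lt (lt_of_le_of_lt (mul_le_mul_of_nonneg_left hle hW0p) ?_)
        refine lt_of_eq_of_lt ?_ hnA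
        ring
      exact lt_of_pow_lt_pow_left₀ 2 (by positivity) h2
    rw [e1]
    calc _ ≤ _ := norm_add_le _ _
      _ < ε := by linarith
  · obtain ⟨q, hq1, hq2⟩ := mul_mem_cyc (Pfun_mem P ρ n (J₀ + 1)) (vec e2 (Ffun S c ρ eb n (J₀ + 1)))
      _ (self_mem_cyc _)
    refine ⟨q, hq1, ?_⟩
    have hb : Bd (fun p => Pfun P ρ n (J₀ + 1) p * Ffun S c ρ eb n (J₀ + 1) p - tgf j₀ p) := by
      obtain ⟨hs, hle⟩ := tsum_b j₀.1 n hnj 0 0 0
      have hPbd : Bd (Pfun P ρ n (J₀ + 1)) := by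
        have a1 : Bd (fun p : R × R => P.eval (z p.2)) := (Bd_poly P).comp Prod.snd
        have a2 : Bd (fun p : R × R => ρ.eval (z p.1)) := (Bd_poly ρ).comp Prod.fst
        have a3 : Bd (fun p : R × R => xx n (z p.2) ^ (el n - 1) / 4 ^ n) := by
          have := (Bd_poly ((C 2 * X ^ av n) ^ (el n - 1) * C ((4 ^ n)⁻¹))).comp (Prod.snd : R × R → R)
          simpa [xx, div_eq_mul_inv] using this
        exact a1.mul ((a2.mul (PJ_bound_aux (Bd_ww' ρ n) _)).add a3)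
      exact (hPbd.mul hFb).sub (Bd_tgf j₀)
    have hqe : q - vec e2 (tgf j₀) = vec e2 (fun p => Pfun P ρ n (J₀ + 1) p *
        Ffun S c ρ eb n (J₀ + 1) p - tgf j₀ p) := by
      ext p
      rw [lp.coeFn_sub, Pi.sub_apply, hq2, vec_coe summable_e2 hFb, vec_coe summable_e2 (Bd_tgf j₀),
        vec_coe summable_e2 hb]
      ring
    rw [hqe]
    obtain ⟨hs, hle⟩ := tsum_b j₀.1 n hnj (((1 / 8) ^ (n + 1) * r) * Real.exp ((1 / 8) ^ (n + 1) * r) +
          (1 / 8) ^ (n + 1) / c₀) (2 * C₀ * C₁ * (DD n / 4 ^ n))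
          (C₀ * C₃ * (DD n * (r * Real.exp (2 * 4 ^ n * r) + 2 ^ (el n - 1) / 4 ^ n)))
    have hD : 0 < DD n := lt_of_lt_of_le zero_lt_one (one_le_DD n)
    have := norm_vec2_le _ hb _ (fun m => by
          split_ifs <;> first | exact le_rfl | positivity) hs
        (fun p => by
          have := est2 S c ρ eb n J₀ j₀ r c₀ C₀ C₁ C₃ P hr hρr hc0 hc h1 hC1 h3 hC3 h0 hP1 hP0 hPb
            heb hJ hnj p
          simpa [tgf] using this)
    have h2 : ‖vec e2 (fun p => Pfun P ρ n (J₀ + 1) p * Ffun S c ρ eb n (J₀ + 1) p - tgf j₀ p)‖ ^ 2 <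
        ε ^ 2 :=
      this.trans_lt (lt_of_le_of_lt (mul_le_mul_of_nonneg_left hle hW0p) hnB)
    exact lt_of_pow_lt_pow_left₀ 2 hε.le h2

end Pool.Agent.Helper635.CS
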