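import Pool.Agent.Helper635.CS.ClaimA0
set_option autoImplicit false
open scoped ENNReal BigOperators InnerProductSpace Topology
open Polynomial Filter

noncomputable section
namespace Pool.Agent.Helper635.CS

theorem inner_congr {ι : Type} (A B C E : L2 ι)
    (h : ∀ i, (starRingEnd ℂ) (A i) * B i = (starRingEnd ℂ) (C i) * E i) : ⟪A, B⟫_ℂ = ⟪C, E⟫_ℂ := by
  rw [lp.inner_eq_tsum, lp.inner_eq_tsum]
  refine tsum_congr fun i => ?_
  simp only [RCLike.inner_apply]
  rw [mul_comm, h i, mul_comm]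

theorem norm_z_inv_le (i : R) : ‖(z i)⁻¹‖ ≤ 2 := by
  rw [norm_inv, inv_le_comm₀ (by have := half_le_norm_z i; linarith) (by norm_num)]
  have := half_le_norm_z i
  linarith

/-- multiplication by `z` on `ℓ²(R)` -/
def D : L2 R →L[ℂ] L2 R := (exists_mulL z 1 zero_le_one norm_z_le).choose
theorem D_apply (F : L2 R) (i : R) : D F i = z i * F i :=
  (exists_mulL z 1 zero_le_one norm_z_le).choose_spec.1 F i
/-- multiplication by `conj z` -/
def Dc : L2 R →L[ℂ] L2 R :=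
  (exists_mulL (fun i => (starRingEnd ℂ) (z i)) 1 zero_le_one (fun i => by
    rw [RCLike.norm_conj]; exact norm_z_le i)).choose
theorem Dc_apply (F : L2 R) (i : R) : Dc F i = (starRingEnd ℂ) (z i) * F i :=
  (exists_mulL (fun i => (starRingEnd ℂ) (z i)) 1 zero_le_one (fun i => by
    rw [RCLike.norm_conj]; exact norm_z_le i)).choose_spec.1 F i
/-- multiplication by `(conj z)⁻¹` -/
def Di : L2 R →L[ℂ] L2 R :=
  (exists_mulL (fun i => (starRingEnd ℂ) (z i)⁻¹) 2 zero_le_two (fun i => by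
    rw [RCLike.norm_conj]; exact norm_z_inv_le i)).choose
theorem Di_apply (F : L2 R) (i : R) : Di F i = (starRingEnd ℂ) (z i)⁻¹ * F i :=
  (exists_mulL (fun i => (starRingEnd ℂ) (z i)⁻¹) 2 zero_le_two (fun i => by
    rw [RCLike.norm_conj]; exact norm_z_inv_le i)).choose_spec.1 F i

/-- inverses of `N1`, `N2` -/
def I1 : L2 (R × R) →L[ℂ] L2 (R × R) :=
  (exists_mulL (fun p : R × R => (z p.1)⁻¹) 2 zero_le_two (fun p => norm_z_inv_le p.1)).choose
theorem I1_apply (F : L2 (R × R)) (p : R × R) : I1 F p = (z p.1)⁻¹ * F p :=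
  (exists_mulL (fun p : R × R => (z p.1)⁻¹) 2 zero_le_two (fun p => norm_z_inv_le p.1)).choose_spec.1 F p
def I2 : L2 (R × R) →L[ℂ] L2 (R × R) :=
  (exists_mulL (fun p : R × R => (z p.2)⁻¹) 2 zero_le_two (fun p => norm_z_inv_le p.2)).choose
theorem I2_apply (F : L2 (R × R)) (p : R × R) : I2 F p = (z p.2)⁻¹ * F p :=
  (exists_mulL (fun p : R × R => (z p.2)⁻¹) 2 zero_le_two (fun p => norm_z_inv_le p.2)).choose_spec.1 F p

theorem D_mon (k : ℤ) : D (mon k) = mon (k + 1) := by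
  ext i
  rw [D_apply, mon, mon, vec_coe summable_ee (Bd_zpow k), vec_coe summable_ee (Bd_zpow (k + 1)),
    zpow_add₀ (z_ne i), zpow_one]
  ring

theorem D_Hs : Hs ≤ Hs.comap (D : L2 R →ₗ[ℂ] L2 R) := by
  have hcl : IsClosed ((Hs.comap (D : L2 R →ₗ[ℂ] L2 R) : Submodule ℂ (L2 R)) : Set (L2 R)) :=
    Hs_closed.preimage D.continuous
  refine Submodule.topologicalClosure_minimal _ (Submodule.span_le.2 ?_) hcl
  rintro _ ⟨k, rfl⟩
  show D (mon k) ∈ Hs
  rw [D_mon]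
  exact mon_mem_Hs (k + 1)

theorem Dc_perp {a : L2 R} (ha : a ∈ Hsᗮ) : Dc a ∈ Hsᗮ := by
  rw [Submodule.mem_orthogonal] at ha ⊢
  intro h hh
  have := ha (D h) (D_Hs hh)
  rw [← this]
  refine inner_congr _ _ _ _ fun i => ?_
  rw [Dc_apply, D_apply, map_mul]; ring

theorem mem_Ks_iff (F : L2 (R × R)) : F ∈ Ks ↔ ∀ a ∈ Hsᗮ, ∀ b ∈ Hsᗮ, ⟪tens a b, F⟫_ℂ = 0 := by
  unfold Ks
  rw [Submodule.mem_orthogonal]
  constructor
  · intro h a ha b hb
    exact h _ (Submodule.subset_span ⟨a, ha, b, hb, rfl⟩)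
  · intro h u hu
    induction hu using Submodule.span_induction with
    | mem x hx =>
      obtain ⟨a, ha, b, hb, rfl⟩ := hx
      exact h a ha b hb
    | zero => simp
    | add x y _ _ hx hy => rw [inner_add_left, hx, hy, add_zero]
    | smul c x _ hx => rw [inner_smul_left, hx, mul_zero]

theorem inner_N1 (a b : L2 R) (F : L2 (R × R)) : ⟪tens a b, N1 F⟫_ℂ = ⟪tens (Dc a) b, F⟫_ℂ := by
  refine inner_congr _ _ _ _ fun p => ?_
  simp only [tens_coe, N1_apply, Dc_apply, map_mul, Complex.conj_conj]; ring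
theorem inner_N2 (a b : L2 R) (F : L2 (R × R)) : ⟪tens a b, N2 F⟫_ℂ = ⟪tens a (Dc b), F⟫_ℂ := by
  refine inner_congr _ _ _ _ fun p => ?_
  simp only [tens_coe, N2_apply, Dc_apply, map_mul, Complex.conj_conj]; ring
theorem inner_I1 (a b : L2 R) (F : L2 (R × R)) : ⟪tens a b, I1 F⟫_ℂ = ⟪tens (Di a) b, F⟫_ℂ := by
  refine inner_congr _ _ _ _ fun p => ?_
  simp only [tens_coe, I1_apply, Di_apply, map_mul, Complex.conj_conj]; ring
theorem inner_I2 (a b : L2 R) (F : L2 (R × R)) : ⟪tens a b, I2 F⟫_ℂ = ⟪tens a (Di b), F⟫_ℂ := by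
  refine inner_congr _ _ _ _ fun p => ?_
  simp only [tens_coe, I2_apply, Di_apply, map_mul, Complex.conj_conj]; ring

theorem Ks_N1 {F : L2 (R × R)} (h : F ∈ Ks) : N1 F ∈ Ks := by
  rw [mem_Ks_iff] at h ⊢
  intro a ha b hb
  rw [inner_N1]; exact h _ (Dc_perp ha) _ hb
theorem Ks_N2 {F : L2 (R × R)} (h : F ∈ Ks) : N2 F ∈ Ks := by
  rw [mem_Ks_iff] at h ⊢
  intro a ha b hb
  rw [inner_N2]; exact h _ ha _ (Dc_perp hb)

instance : CompleteSpace Hs := Hs_closed.completeSpace_coe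

theorem tens_zero_right (a : L2 R) : tens a 0 = 0 := by
  ext p; rw [tens_coe]; simp

/-- right invertibility of the row `(N1, N2)` on `K` -/
theorem right_inv {F : L2 (R × R)} (hF : F ∈ Ks) : ∃ u ∈ Ks, ∃ v ∈ Ks, N1 u + N2 v = F := by
  obtain ⟨G, hG⟩ := partialT Hs.starProjection
    (fun a b => Submodule.inner_starProjection_left_eq_right Hs a b) F
  refine ⟨I1 G, ?_, I2 (F - G), ?_, ?_⟩
  · rw [mem_Ks_iff]
    intro a ha b hb
    rw [inner_I1, hG]
    have : Hs.starProjection b = 0 := by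
      rw [Submodule.starProjection_apply_eq_zero_iff]; exact hb
    rw [this, tens_zero_right, inner_zero_left]
  · rw [mem_Ks_iff]
    intro a ha b hb
    rw [inner_I2, inner_sub_right, hG, ← inner_sub_left, ← tens_sub_right]
    rw [mem_Ks_iff] at hF
    exact hF _ ha _ (Submodule.sub_starProjection_mem_orthogonal (Di b))
  · ext p
    simp only [lp.coeFn_add, Pi.add_apply, N1_apply, N2_apply, I1_apply, I2_apply, lp.coeFn_sub,
      Pi.sub_apply]
    have h1 := z_ne p.1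
    have h2 := z_ne p.2
    field_simp
    ring

theorem Xm_eq (k l : ℤ) : Xm k l = tens (mon k) (mon l) := by
  have hb : Bd (fun p : R × R => z p.1 ^ k * z p.2 ^ l) :=
    ((Bd_zpow k).comp Prod.fst).mul ((Bd_zpow l).comp Prod.snd)
  ext p
  rw [Xm, tens_coe, mon, mon, vec_coe summable_e2 hb, vec_coe summable_ee (Bd_zpow k),
    vec_coe summable_ee (Bd_zpow l), e2]
  push_cast
  ring

theorem Xm_coe (k l : ℤ) (p : R × R) : Xm k l p = e2 p * (z p.1 ^ k * z p.2 ^ l) := by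
  have hb : Bd (fun p : R × R => z p.1 ^ k * z p.2 ^ l) :=
    ((Bd_zpow k).comp Prod.fst).mul ((Bd_zpow l).comp Prod.snd)
  rw [Xm, vec_coe summable_e2 hb]

theorem N1_Xm (k l : ℤ) : N1 (Xm k l) = Xm (k + 1) l := by
  ext p
  rw [N1_apply, Xm_coe, Xm_coe, zpow_add₀ (z_ne _), zpow_one]; ring
theorem N2_Xm (k l : ℤ) : N2 (Xm k l) = Xm k (l + 1) := by
  ext p
  rw [N2_apply, Xm_coe, Xm_coe, zpow_add₀ (z_ne _), zpow_one]; ring

theorem mon_mem_Hs' {k : ℤ} (h : 0 ≤ k) : mon k ∈ Hs := by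
  obtain ⟨n, rfl⟩ := Int.eq_ofNat_of_zero_le h
  exact mon_mem_Hs n

theorem Xm_mem_Ks {k l : ℤ} (h : 0 ≤ k ∨ 0 ≤ l) : Xm k l ∈ Ks := by
  rw [Xm_eq]
  rcases h with h | h
  · exact tens_mem_Ks_left _ _ (mon_mem_Hs' h)
  · exact tens_mem_Ks_right _ _ (mon_mem_Hs' h)

theorem Xm_neg_notMem : Xm (-1) (-1) ∉ Ks := by
  intro h
  rw [mem_Ks_iff] at h
  set a := mon (-1) - Hs.starProjection (mon (-1)) with ha
  have hmem : a ∈ Hsᗮ := Submodule.sub_starProjection_mem_orthogonal _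
  have h1 := h a hmem a hmem
  rw [Xm_eq, inner_tens] at h1
  have h2 : ⟪a, mon (-1)⟫_ℂ = ⟪a, a⟫_ℂ := by
    have : mon (-1) = a + Hs.starProjection (mon (-1)) := by rw [ha]; abel
    rw [this, inner_add_right]
    have h0 : ⟪a, Hs.starProjection (mon (-1))⟫_ℂ = 0 :=
      (Submodule.mem_orthogonal' _ _).1 hmem _ (Submodule.starProjection_apply_mem _ _)
    rw [h0, add_zero]
  rw [h2, mul_self_eq_zero, inner_self_eq_zero] at h1
  apply mon_neg_one_notMem
  have : mon (-1) = Hs.starProjection (mon (-1)) := by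
    rw [ha] at h1; exact sub_eq_zero.1 h1
  rw [this]
  exact Submodule.starProjection_apply_mem _ _

end Pool.Agent.Helper635.CS
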