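import Pool.Agent.Helper635.CS.ClaimA3
import Pool.Agent.Helper635.CS.Sub
set_option autoImplicit false
open scoped ENNReal BigOperators InnerProductSpace Topology
open Polynomial Filter

noncomputable section
namespace Pool.Agent.Helper635.CS

theorem Ks_closed : IsClosed (Ks : Set (L2 (R × R))) := Submodule.isClosed_orthogonal _

instance : CompleteSpace Ks := Ks_closed.completeSpace_coe

/-- restrictions to `K` -/
def S1 : Ks →L[ℂ] Ks := (N1.comp Ks.subtypeL).codRestrict Ks (fun x => Ks_N1 x.2)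
def S2 : Ks →L[ℂ] Ks := (N2.comp Ks.subtypeL).codRestrict Ks (fun x => Ks_N2 x.2)
theorem S1_coe (x : Ks) : (S1 x : L2 (R × R)) = N1 x := rfl
theorem S2_coe (x : Ks) : (S2 x : L2 (R × R)) = N2 x := rfl

theorem S_comm : S1 * S2 = S2 * S1 := by
  ext x : 1
  apply Subtype.ext
  have := congrArg (fun T : L2 (R × R) →L[ℂ] L2 (R × R) => T (x : L2 (R × R))) N_comm
  simpa [mul_apply_eq_comp, S1_coe, S2_coe] using this

theorem S1_pow_coe (k : ℕ) (x : Ks) : ((S1 ^ k) x : L2 (R × R)) = (N1 ^ k) x := by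
  induction k generalizing x with
  | zero => simp
  | succ k ih => rw [pow_succ, pow_succ, mul_apply_eq_comp, mul_apply_eq_comp, ih, S1_coe]
theorem S2_pow_coe (k : ℕ) (x : Ks) : ((S2 ^ k) x : L2 (R × R)) = (N2 ^ k) x := by
  induction k generalizing x with
  | zero => simp
  | succ k ih => rw [pow_succ, pow_succ, mul_apply_eq_comp, mul_apply_eq_comp, ih, S2_coe]

def cycE (x : Ks) : Submodule ℂ Ks :=
  Submodule.span ℂ (Set.range fun p : ℕ × ℕ => (S1 ^ p.1 * S2 ^ p.2) x)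

theorem cyc_lift (x : Ks) (q : L2 (R × R)) (hq : q ∈ cyc (x : L2 (R × R))) :
    ∃ q' ∈ cycE x, (q' : L2 (R × R)) = q := by
  unfold cyc at hq
  induction hq using Submodule.span_induction with
  | mem y hy =>
    obtain ⟨p, rfl⟩ := hy
    refine ⟨(S1 ^ p.1 * S2 ^ p.2) x, Submodule.subset_span ⟨p, rfl⟩, ?_⟩
    rw [mul_apply_eq_comp, S1_pow_coe, S2_pow_coe]
    simp [mul_apply_eq_comp]
  | zero => exact ⟨0, Submodule.zero_mem _, rfl⟩
  | add y w _ _ hy hw =>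
    obtain ⟨y', h1, h2⟩ := hy
    obtain ⟨w', h3, h4⟩ := hw
    exact ⟨y' + w', Submodule.add_mem _ h1 h3, by rw [Submodule.coe_add, h2, h4]⟩
  | smul a y _ hy =>
    obtain ⟨y', h1, h2⟩ := hy
    exact ⟨a • y', Submodule.smul_mem _ _ h1, by rw [Submodule.coe_smul, h2]⟩

/-- elements of the span of the monomials -/
theorem span_repr (w : L2 (R × R))
    (hw : w ∈ Submodule.span ℂ {T | ∃ k l : ℤ, (0 ≤ k ∨ 0 ≤ l) ∧ T = Xm k l}) :
    ∃ (S : Finset (ℤ × ℤ)) (c : ℤ × ℤ → ℂ), (∀ s ∈ S, 0 ≤ s.1 ∨ 0 ≤ s.2) ∧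
      w = vec e2 (ufun S c) ∧ w = ∑ s ∈ S, c s • Xm s.1 s.2 := by
  have hset : {T | ∃ k l : ℤ, (0 ≤ k ∨ 0 ≤ l) ∧ T = Xm k l} =
      (fun s : ℤ × ℤ => Xm s.1 s.2) '' {s | 0 ≤ s.1 ∨ 0 ≤ s.2} := by
    ext T; constructor
    · rintro ⟨k, l, h, rfl⟩; exact ⟨(k, l), h, rfl⟩
    · rintro ⟨s, h, rfl⟩; exact ⟨s.1, s.2, h, rfl⟩
  rw [hset, Finsupp.mem_span_image_iff_linearCombination] at hw
  obtain ⟨l, hl, rfl⟩ := hw
  have hsum : Finsupp.linearCombination ℂ (fun s : ℤ × ℤ => Xm s.1 s.2) l =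
      ∑ s ∈ l.support, l s • Xm s.1 s.2 := by
    rw [Finsupp.linearCombination_apply, Finsupp.sum]
  refine ⟨l.support, l, fun s hs => ?_, ?_, hsum⟩
  · exact hl hs
  · rw [hsum]
    ext p
    rw [vec_coe summable_e2 (Bd_ufun _ _), ufun, Finset.mul_sum, lp.coeFn_sum, Finset.sum_apply]
    refine Finset.sum_congr rfl fun s _ => ?_
    rw [lp.coeFn_smul, Pi.smul_apply, Xm_coe, smul_eq_mul]
    ring

theorem approx (u : Ks) (ε : ℝ) (hε : 0 < ε) : ∃ (S : Finset (ℤ × ℤ)) (c : ℤ × ℤ → ℂ),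
    (∀ s ∈ S, 0 ≤ s.1 ∨ 0 ≤ s.2) ∧ ‖vec e2 (ufun S c) - u‖ < ε ∧
      vec e2 (ufun S c) = ∑ s ∈ S, c s • Xm s.1 s.2 := by
  have h := Ks_le u.2
  rw [← SetLike.mem_coe, Submodule.topologicalClosure_coe, Metric.mem_closure_iff] at h
  obtain ⟨w, hw, hd⟩ := h ε hε
  obtain ⟨S, c, h1, h2, h3⟩ := span_repr w hw
  refine ⟨S, c, h1, ?_, by rw [← h2, h3]⟩
  rw [← h2, ← dist_eq_norm, dist_comm]; exact hd

theorem N1_pow_Xm (n : ℕ) (k l : ℤ) : (N1 ^ n) (Xm k l) = Xm (k + n) l := by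
  induction n generalizing k with
  | zero => simp
  | succ n ih =>
    rw [pow_succ, mul_apply_eq_comp, N1_Xm, ih]
    congr 1
    push_cast; ring
theorem N2_pow_Xm (n : ℕ) (k l : ℤ) : (N2 ^ n) (Xm k l) = Xm k (l + n) := by
  induction n generalizing l with
  | zero => simp
  | succ n ih =>
    rw [pow_succ, mul_apply_eq_comp, N2_Xm, ih]
    congr 1
    push_cast; ring

/-- vectors in row/column form -/
def tA (j : R) : Ks := ⟨vec e2 (tgf j), by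
  refine mem_Ks_of_col _ (Bd_tgf j) fun j' => ?_
  by_cases h : j' = j
  · have : (fun i => tgf j (i, j')) = fun i => (1 : ℂ[X]).eval (z i) := by
      ext i; simp [tgf, h]
    rw [this]; exact poly_mem_Hs _
  · have : (fun i => tgf j (i, j')) = fun i => (0 : ℂ[X]).eval (z i) := by
      ext i; simp [tgf, h]
    rw [this]; exact poly_mem_Hs _⟩

def tB (k : ℕ) : Ks := ⟨Xm (-(k + 1)) 0, Xm_mem_Ks (Or.inr le_rfl)⟩

def B0 : Submodule ℂ (L2 (R × R)) :=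
  (Submodule.span ℂ {T | ∃ k l : ℤ, 0 ≤ k ∧ T = Xm k l}).topologicalClosure
theorem Xm_mem_B0 {k : ℤ} (l : ℤ) (h : 0 ≤ k) : Xm k l ∈ B0 :=
  Submodule.le_topologicalClosure _ (Submodule.subset_span ⟨k, l, h, rfl⟩)

def BE : Submodule ℂ Ks := B0.comap Ks.subtype

theorem N1_pow_mem_cyc {F G : L2 (R × R)} (n : ℕ) (h : G ∈ cyc F) : (N1 ^ n) G ∈ cyc F := by
  induction n with
  | zero => simpa using h
  | succ n ih => rw [pow_succ', mul_apply_eq_comp]; exact N1_mem_cyc ih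

theorem hA_E (u : Ks) (j : R) (ε : ℝ) (hε : 0 < ε) : ∃ F : Ks, ‖F - u‖ < ε ∧
    ∃ q ∈ cycE F, ‖q - tA j‖ < ε := by
  obtain ⟨S, c, hS, hn, _⟩ := approx u (ε / 2) (by positivity)
  obtain ⟨F, hF, hFn, q, hq, hqn⟩ := claimA S hS c j (ε / 2) (by positivity)
  obtain ⟨q', hq', hqe⟩ := cyc_lift ⟨F, hF⟩ q hq
  refine ⟨⟨F, hF⟩, ?_, q', hq', ?_⟩
  · rw [← Submodule.norm_coe, Submodule.coe_sub]
    calc ‖F - (u : L2 (R × R))‖ = ‖(F - vec e2 (ufun S c)) + (vec e2 (ufun S c) - u)‖ := by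
          congr 1; abel
      _ ≤ _ := norm_add_le _ _
      _ < ε := by linarith
  · rw [← Submodule.norm_coe, Submodule.coe_sub, hqe]
    show ‖q - vec e2 (tgf j)‖ < ε
    linarith

theorem hB_E (u : Ks) (k : ℕ) (ε : ℝ) (hε : 0 < ε) : ∃ F : Ks, ‖F - u‖ < ε ∧
    ∃ q ∈ cycE F, ∃ y ∈ BE, ‖q - y - tB k‖ < ε := by
  obtain ⟨S, c, hS, hn, hsum⟩ := approx u (ε / 2) (by positivity)
  set w := vec e2 (ufun S c) with hw
  set K : ℕ := S.sup (fun s => (-s.1).toNat) with hKdef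
  have hK : ∀ s ∈ S, 0 ≤ s.1 + (K : ℤ) := by
    intro s hs
    have h1 : (-s.1).toNat ≤ K := Finset.le_sup (f := fun s : ℤ × ℤ => (-s.1).toNat) hs
    have h2 := Int.self_le_toNat (-s.1)
    omega
  set X0 := Xm (-((K : ℤ) + k + 1)) 0 with hX0
  have hX0m : X0 ∈ Ks := Xm_mem_Ks (Or.inr le_rfl)
  have hwm : w ∈ Ks := by
    rw [hsum]
    exact Submodule.sum_mem _ fun s hs => Submodule.smul_mem _ _ (Xm_mem_Ks (hS s hs))
  set δ : ℝ := ε / (2 * (‖X0‖ + 1)) with hδ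
  have hδ0 : 0 < δ := by positivity
  have hδn : δ * ‖X0‖ < ε / 2 := by
    rw [hδ, div_mul_eq_mul_div, div_lt_div_iff₀ (by positivity) (by norm_num)]
    nlinarith [norm_nonneg X0]
  set F : Ks := ⟨w + (δ : ℂ) • X0, Submodule.add_mem _ hwm (Submodule.smul_mem _ _ hX0m)⟩ with hF
  obtain ⟨q', hq', hqe⟩ := cyc_lift F ((N1 ^ K) (F : L2 (R × R))) (N1_pow_mem_cyc K (self_mem_cyc _))
  have hyK : (N1 ^ K) w ∈ Ks := by
    rw [← S1_pow_coe K ⟨w, hwm⟩]; exact Subtype.coe_prop _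
  have hyB : (N1 ^ K) w ∈ B0 := by
    rw [hsum, map_sum]
    refine Submodule.sum_mem _ fun s hs => ?_
    rw [map_smul, N1_pow_Xm]
    exact Submodule.smul_mem _ _ (Xm_mem_B0 _ (hK s hs))
  refine ⟨F, ?_, (δ : ℂ)⁻¹ • q', Submodule.smul_mem _ _ hq', (δ : ℂ)⁻¹ • ⟨(N1 ^ K) w, hyK⟩,
    Submodule.smul_mem _ _ hyB, ?_⟩
  · rw [← Submodule.norm_coe, Submodule.coe_sub]
    calc ‖(w + (δ : ℂ) • X0) - (u : L2 (R × R))‖ = ‖(w - u) + (δ : ℂ) • X0‖ := by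
          congr 1; abel
      _ ≤ ‖w - u‖ + ‖(δ : ℂ) • X0‖ := norm_add_le _ _
      _ < ε := by
          rw [norm_smul, Complex.norm_real, Real.norm_eq_abs, abs_of_pos hδ0]
          linarith
  · have : (δ : ℂ)⁻¹ • q' - (δ : ℂ)⁻¹ • (⟨(N1 ^ K) w, hyK⟩ : Ks) - tB k = 0 := by
      apply Subtype.ext
      simp only [Submodule.coe_sub, Submodule.coe_smul, hqe, Submodule.coe_zero, hF, map_add,
        map_smul, smul_add, add_sub_cancel_left]
      rw [smul_smul, inv_mul_cancel₀ (by exact_mod_cast hδ0.ne'), one_smul, hX0, N1_pow_Xm, sub_eq_zero]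
      show Xm _ _ = Xm _ _
      congr 1
      ring
    rw [this, norm_zero]; exact hε

end Pool.Agent.Helper635.CS
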