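import Mathlib
set_option autoImplicit false
open scoped ENNReal BigOperators InnerProductSpace
open Polynomial

noncomputable section
namespace Pool.Agent.Helper635.CS

/-- complex `ℓ²` over an index type -/
abbrev L2 (ι : Type) := lp (fun _ : ι => ℂ) 2

/-- bounded functions -/
def Bd {ι : Type} (f : ι → ℂ) : Prop := ∃ C : ℝ, ∀ i, ‖f i‖ ≤ C

open Classical in
/-- the vector with entries `e i * f i` (and `0` if this is not square summable) -/
def vec {ι : Type} (e : ι → ℝ) (f : ι → ℂ) : L2 ι :=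
  if h : Memℓp (fun i => (e i : ℂ) * f i) 2 then ⟨fun i => (e i : ℂ) * f i, h⟩ else 0

/-- parameters of the rings -/
def el (n : ℕ) : ℕ := 8 ^ (n + 1)
def av (n : ℕ) : ℕ := 8 ^ ((n + 1) ^ 2)
def NN (n : ℕ) : ℕ := av n * el n

/-- the points: `n`-th ring has `NN n` equally spaced points -/
abbrev R : Type := Σ n : ℕ, Fin (NN n)

def rad (n : ℕ) : ℝ := (1 / 2 : ℝ) ^ ((av n : ℝ)⁻¹)

def z (i : R) : ℂ :=
  (rad i.1 : ℂ) * Complex.exp (2 * Real.pi * Complex.I / (NN i.1 : ℂ)) ^ (i.2 : ℕ)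

def xx (n : ℕ) (ζ : ℂ) : ℂ := 2 * ζ ^ av n
def qq (n : ℕ) (ζ : ℂ) : ℂ := 1 - xx n ζ ^ el n

def DD (n : ℕ) : ℝ := ∏ m ∈ Finset.range n, (1 + (2 : ℝ) ^ el m)
def MM (n : ℕ) : ℝ := 4 ^ n / DD n ^ 2
/-- weight of a point, square root weight, product square root weight -/
def ww (i : R) : ℝ := MM i.1 / NN i.1
def ee (i : R) : ℝ := Real.sqrt (ww i)
def e2 (p : R × R) : ℝ := ee p.1 * ee p.2

def mon (k : ℤ) : L2 R := vec ee (fun i => z i ^ k)
def Xm (k l : ℤ) : L2 (R × R) := vec e2 (fun p => z p.1 ^ k * z p.2 ^ l)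

/-- `H = P²(μ)` -/
def Hs : Submodule ℂ (L2 R) :=
  (Submodule.span ℂ (Set.range fun k : ℕ => mon (k : ℤ))).topologicalClosure

open Classical in
/-- elementary tensors in `ℓ²(R × R)` -/
def tens (a b : L2 R) : L2 (R × R) :=
  if h : Memℓp (fun p : R × R => a p.1 * b p.2) 2 then ⟨fun p => a p.1 * b p.2, h⟩ else 0

/-- `K = (Hᗮ ⊗ Hᗮ)ᗮ` -/
def Ks : Submodule ℂ (L2 (R × R)) :=
  (Submodule.span ℂ {T | ∃ a ∈ Hsᗮ, ∃ b ∈ Hsᗮ, T = tens a b})ᗮ

open Classical in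
/-- multiplication operator by a bounded function -/
def mulFun {ι : Type} (m : ι → ℂ) (F : L2 ι) : L2 ι :=
  if h : Memℓp (fun i => m i * F i) 2 then ⟨fun i => m i * F i, h⟩ else 0

end Pool.Agent.Helper635.CS
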