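import Pool.Agent.Helper635.CS.Defs
set_option autoImplicit false
open scoped ENNReal BigOperators InnerProductSpace Topology
open Polynomial Filter

noncomputable section
namespace Pool.Agent.Helper635.CS.Baire



theorem baire_cyclic {E : Type} [NormedAddCommGroup E] [NormedSpace ℂ E] [CompleteSpace E]
    (N₁ N₂ : E →L[ℂ] E) (hcomm : N₁ * N₂ = N₂ * N₁) {α β : Type} [Countable α] [Countable β]
    (tA : α → E) (tB : β → E) (B : Submodule ℂ E)
    (hA : ∀ (u : E) (a : α) (ε : ℝ), 0 < ε → ∃ F, ‖F - u‖ < ε ∧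
      ∃ q ∈ Submodule.span ℂ (Set.range fun p : ℕ × ℕ => (N₁ ^ p.1 * N₂ ^ p.2) F), ‖q - tA a‖ < ε)
    (hB : ∀ (u : E) (b : β) (ε : ℝ), 0 < ε → ∃ F, ‖F - u‖ < ε ∧
      ∃ q ∈ Submodule.span ℂ (Set.range fun p : ℕ × ℕ => (N₁ ^ p.1 * N₂ ^ p.2) F),
      ∃ y ∈ B, ‖q - y - tB b‖ < ε)
    (hC : ∀ C : Submodule ℂ E, IsClosed (C : Set E) → (∀ x ∈ C, N₁ x ∈ C) → (∀ x ∈ C, N₂ x ∈ C) →
      (∀ a, tA a ∈ C) → B ≤ C)
    (hD : ∀ C : Submodule ℂ E, IsClosed (C : Set E) → (∀ x ∈ C, N₁ x ∈ C) → (∀ x ∈ C, N₂ x ∈ C) →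
      B ≤ C → (∀ b, tB b ∈ C) → C = ⊤) :
    ∃ x : E, Dense ((Submodule.span ℂ
      (Set.range fun p : ℕ × ℕ => (N₁ ^ p.1 * N₂ ^ p.2) x) : Submodule ℂ E) : Set E) := by
  classical
  set P : Submodule ℂ (E →L[ℂ] E) :=
    Submodule.span ℂ (Set.range fun p : ℕ × ℕ => N₁ ^ p.1 * N₂ ^ p.2) with hP
  have hspan : ∀ x q : E, q ∈ Submodule.span ℂ (Set.range fun p : ℕ × ℕ =>
      (N₁ ^ p.1 * N₂ ^ p.2) x) ↔ ∃ T ∈ P, T x = q := by
    intro x q
    have h1 : Submodule.span ℂ (Set.range fun p : ℕ × ℕ => (N₁ ^ p.1 * N₂ ^ p.2) x)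
        = P.map ((ContinuousLinearMap.apply ℂ E x : (E →L[ℂ] E) →L[ℂ] E) :
          (E →L[ℂ] E) →ₗ[ℂ] E) := by
      rw [hP, Submodule.map_span, ← Set.range_comp]
      rfl
    rw [h1, Submodule.mem_map]
    rfl
  have hpos : ∀ n : ℕ, (0 : ℝ) < 1 / ((n : ℝ) + 1) := fun n => by positivity
  let UA : α × ℕ → Set E := fun i => {x | ∃ T ∈ P, ‖T x - tA i.1‖ < 1 / ((i.2 : ℝ) + 1)}
  let UB : β × ℕ → Set E := fun i =>
    {x | ∃ T ∈ P, ∃ y ∈ B, ‖T x - y - tB i.1‖ < 1 / ((i.2 : ℝ) + 1)}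
  have oA : ∀ i, IsOpen (UA i) := by
    intro i
    have : UA i = ⋃ T ∈ P, {x : E | ‖T x - tA i.1‖ < 1 / ((i.2 : ℝ) + 1)} := by
      ext x; simp [UA]
    rw [this]
    exact isOpen_biUnion fun T _ => isOpen_lt (by fun_prop) continuous_const
  have oB : ∀ i, IsOpen (UB i) := by
    intro i
    have : UB i = ⋃ T ∈ P, ⋃ y ∈ B, {x : E | ‖T x - y - tB i.1‖ < 1 / ((i.2 : ℝ) + 1)} := by
      ext x; simp [UB]
    rw [this]
    exact isOpen_biUnion fun T _ => isOpen_biUnion fun y _ =>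
      isOpen_lt (by fun_prop) continuous_const
  have dA : ∀ i, Dense (UA i) := by
    intro i
    rw [Metric.dense_iff]
    intro u r hr
    obtain ⟨F, hF, q, hq, hq2⟩ := hA u i.1 (min r (1 / ((i.2 : ℝ) + 1))) (lt_min hr (hpos _))
    obtain ⟨T, hT, rfl⟩ := (hspan F q).1 hq
    exact ⟨F, by rw [Metric.mem_ball, dist_eq_norm]; exact lt_of_lt_of_le hF (min_le_left _ _),
      T, hT, lt_of_lt_of_le hq2 (min_le_right _ _)⟩
  have dB : ∀ i, Dense (UB i) := by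
    intro i
    rw [Metric.dense_iff]
    intro u r hr
    obtain ⟨F, hF, q, hq, y, hy, hq2⟩ :=
      hB u i.1 (min r (1 / ((i.2 : ℝ) + 1))) (lt_min hr (hpos _))
    obtain ⟨T, hT, rfl⟩ := (hspan F q).1 hq
    exact ⟨F, by rw [Metric.mem_ball, dist_eq_norm]; exact lt_of_lt_of_le hF (min_le_left _ _),
      T, hT, y, hy, lt_of_lt_of_le hq2 (min_le_right _ _)⟩
  have hd : Dense (⋂ i : (α × ℕ) ⊕ (β × ℕ), Sum.elim UA UB i) := by
    apply dense_iInter_of_isOpen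
    · rintro (i | i)
      · exact oA i
      · exact oB i
    · rintro (i | i)
      · exact dA i
      · exact dB i
  obtain ⟨x, hx⟩ := hd.nonempty
  rw [Set.mem_iInter] at hx
  have hxA : ∀ a (n : ℕ), ∃ T ∈ P, ‖T x - tA a‖ < 1 / ((n : ℝ) + 1) := fun a n => hx (Sum.inl (a, n))
  have hxB : ∀ b (n : ℕ), ∃ T ∈ P, ∃ y ∈ B, ‖T x - y - tB b‖ < 1 / ((n : ℝ) + 1) :=
    fun b n => hx (Sum.inr (b, n))
  refine ⟨x, ?_⟩
  set S : Submodule ℂ E := Submodule.span ℂ (Set.range fun p : ℕ × ℕ => (N₁ ^ p.1 * N₂ ^ p.2) x)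
    with hS
  have hN1 : ∀ T ∈ P, N₁ * T ∈ P := by
    intro T hT
    induction hT using Submodule.span_induction with
    | mem T hT =>
      obtain ⟨p, rfl⟩ := hT
      refine Submodule.subset_span ⟨(p.1 + 1, p.2), ?_⟩
      simp only [pow_succ', mul_assoc]
    | zero => simp
    | add a b _ _ ha hb => rw [mul_add]; exact P.add_mem ha hb
    | smul c a _ ha => rw [mul_smul_comm]; exact P.smul_mem c ha
  have hN2 : ∀ T ∈ P, N₂ * T ∈ P := by
    intro T hT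
    induction hT using Submodule.span_induction with
    | mem T hT =>
      obtain ⟨p, rfl⟩ := hT
      refine Submodule.subset_span ⟨(p.1, p.2 + 1), ?_⟩
      have : Commute (N₁ ^ p.1) N₂ := Commute.pow_left hcomm p.1
      simp only [pow_succ']
      rw [← mul_assoc, this.eq, mul_assoc]
    | zero => simp
    | add a b _ _ ha hb => rw [mul_add]; exact P.add_mem ha hb
    | smul c a _ ha => rw [mul_smul_comm]; exact P.smul_mem c ha
  have hcl : ∀ N : E →L[ℂ] E, (∀ T ∈ P, N * T ∈ P) →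
      ∀ y ∈ S.topologicalClosure, N y ∈ S.topologicalClosure := by
    intro N hN y hy
    have hmaps : Set.MapsTo N (S : Set E) (S : Set E) := by
      intro s hs
      obtain ⟨T, hT, rfl⟩ := (hspan x s).1 hs
      exact (hspan x _).2 ⟨N * T, hN T hT, rfl⟩
    have := hmaps.closure N.continuous
    exact this hy
  have i1 := hcl N₁ hN1
  have i2 := hcl N₂ hN2
  have hcC : IsClosed (S.topologicalClosure : Set E) := S.isClosed_topologicalClosure
  have hlim : ∀ v : E, (∀ n : ℕ, ∃ w ∈ S.topologicalClosure, ‖w - v‖ < 1 / ((n : ℝ) + 1)) →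
      v ∈ S.topologicalClosure := by
    intro v hv
    have : v ∈ closure (S.topologicalClosure : Set E) := by
      rw [Metric.mem_closure_iff]
      intro ε hε
      obtain ⟨n, hn⟩ := exists_nat_one_div_lt hε
      obtain ⟨w, hw, hwn⟩ := hv n
      exact ⟨w, hw, by rw [dist_comm, dist_eq_norm]; linarith⟩
    rwa [hcC.closure_eq] at this
  have hsub : ∀ T ∈ P, T x ∈ S.topologicalClosure := fun T hT =>
    S.le_topologicalClosure ((hspan x _).2 ⟨T, hT, rfl⟩)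
  have htA : ∀ a, tA a ∈ S.topologicalClosure := fun a => hlim _ fun n => by
    obtain ⟨T, hT, h⟩ := hxA a n
    exact ⟨T x, hsub T hT, h⟩
  have hBle : B ≤ S.topologicalClosure := hC _ hcC i1 i2 htA
  have htB : ∀ b, tB b ∈ S.topologicalClosure := fun b => hlim _ fun n => by
    obtain ⟨T, hT, y, hy, h⟩ := hxB b n
    exact ⟨T x - y, Submodule.sub_mem _ (hsub T hT) (hBle hy), h⟩
  have htop := hD _ hcC i1 i2 hBle htB
  rw [Submodule.dense_iff_topologicalClosure_eq_top]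
  exact htop




end Pool.Agent.Helper635.CS.Baire
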