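import Pool.Agent.Helper635.CS.Defs
set_option autoImplicit false
open scoped ENNReal BigOperators InnerProductSpace Topology
open Polynomial Filter

noncomputable section
namespace Pool.Agent.Helper635.CS.Bpe




theorem bpe_el_pos (n : ℕ) : 0 < el n := by unfold el; positivity
theorem bpe_av_pos (n : ℕ) : 0 < av n := by unfold av; positivity
theorem bpe_NN_pos (n : ℕ) : 0 < NN n := Nat.mul_pos (bpe_av_pos n) (bpe_el_pos n)

/-- the polynomial of a ring -/
def QP (l : ℕ) : ℂ[X] := 1 - (C 2 * X ^ av l) ^ el l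

theorem QP_eval (l : ℕ) (ζ : ℂ) : (QP l).eval ζ = qq l ζ := by
  simp [QP, qq, xx]

theorem QP_zero (l : ℕ) : (QP l).eval 0 = 1 := by
  rw [QP_eval]
  simp [qq, xx, (bpe_el_pos l).ne', (bpe_av_pos l).ne']

theorem QP_natDegree (l : ℕ) : (QP l).natDegree ≤ NN l := by
  unfold QP
  refine (natDegree_sub_le _ _).trans ?_
  apply max_le
  · simp
  · refine (natDegree_pow_le).trans ?_
    unfold NN
    rw [mul_comm]
    apply Nat.mul_le_mul_right
    exact natDegree_C_mul_X_pow_le 2 (av l)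

/-- the geometric factor -/
def GP (i : R) : ℂ[X] := C ((NN i.1 : ℂ)⁻¹) * ∑ k ∈ Finset.range (NN i.1), (C ((z i)⁻¹) * X) ^ k

theorem GP_eval (i : R) (ζ : ℂ) :
    (GP i).eval ζ = (NN i.1 : ℂ)⁻¹ * ∑ k ∈ Finset.range (NN i.1), ((z i)⁻¹ * ζ) ^ k := by
  simp [GP, eval_finsetSum]

theorem GP_zero (i : R) : (GP i).eval 0 = (NN i.1 : ℂ)⁻¹ := by
  rw [GP_eval]
  have h : ∑ k ∈ Finset.range (NN i.1), ((z i)⁻¹ * 0) ^ k = 1 := by
    rw [mul_zero, Finset.sum_eq_single 0]
    · simp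
    · intro b _ hb; exact zero_pow hb
    · intro h; exact absurd (Finset.mem_range.mpr (bpe_NN_pos _)) h
  rw [h, mul_one]

theorem GP_natDegree (i : R) : (GP i).natDegree ≤ NN i.1 - 1 := by
  unfold GP
  refine (natDegree_C_mul_le _ _).trans ?_
  apply natDegree_sum_le_of_forall_le
  intro k hk
  refine (natDegree_pow_le).trans ?_
  have h1 : (C ((z i)⁻¹) * X : ℂ[X]).natDegree ≤ 1 := (natDegree_C_mul_le _ _).trans natDegree_X_le
  have h2 := Finset.mem_range.mp hk
  calc k * (C ((z i)⁻¹) * X : ℂ[X]).natDegree ≤ k * 1 := Nat.mul_le_mul_left _ h1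
    _ ≤ NN i.1 - 1 := by omega

/-- the interpolation polynomial -/
def LP (n : ℕ) (i : R) : ℂ[X] :=
  (∏ l ∈ (Finset.range n).erase i.1, (C ((qq l (z i))⁻¹) * QP l)) * GP i

theorem LP_zero (n : ℕ) (i : R) :
    (LP n i).eval 0 = (∏ l ∈ (Finset.range n).erase i.1, (qq l (z i))⁻¹) * (NN i.1 : ℂ)⁻¹ := by
  unfold LP
  rw [eval_mul, eval_prod, GP_zero]
  congr 1
  apply Finset.prod_congr rfl
  intro l _
  rw [eval_mul, QP_zero, eval_C, mul_one]

theorem LP_natDegree {n : ℕ} {i : R} (hi : i.1 < n) :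
    (LP n i).natDegree < ∑ l ∈ Finset.range n, NN l := by
  unfold LP
  have h1 : (∏ l ∈ (Finset.range n).erase i.1, (C ((qq l (z i))⁻¹) * QP l)).natDegree
      ≤ ∑ l ∈ (Finset.range n).erase i.1, NN l := by
    refine (natDegree_prod_le _ _).trans ?_
    apply Finset.sum_le_sum
    intro l _
    exact (natDegree_C_mul_le _ _).trans (QP_natDegree l)
  have h2 := GP_natDegree i
  have h3 := natDegree_mul_le (p := ∏ l ∈ (Finset.range n).erase i.1, (C ((qq l (z i))⁻¹) * QP l))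
    (q := GP i)
  have h4 : ∑ l ∈ (Finset.range n).erase i.1, NN l + NN i.1 = ∑ l ∈ Finset.range n, NN l :=
    Finset.sum_erase_add _ _ (Finset.mem_range.mpr hi)
  have h5 := bpe_NN_pos i.1
  omega

theorem bpe_prod_lower (s : Finset ℕ) : 1 - ∑ l ∈ s, (1 / 8 : ℝ) ^ (l + 1) ≤
    ∏ l ∈ s, (1 - (1 / 8 : ℝ) ^ (l + 1)) ∧ ∏ l ∈ s, (1 - (1 / 8 : ℝ) ^ (l + 1)) ≤ 1 ∧
    0 ≤ ∏ l ∈ s, (1 - (1 / 8 : ℝ) ^ (l + 1)) := by
  induction s using Finset.induction_on with
  | empty => simp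
  | insert a s ha ih =>
    obtain ⟨h1, h2, h3⟩ := ih
    rw [Finset.prod_insert ha, Finset.sum_insert ha]
    have h4 : (0:ℝ) < (1/8)^(a+1) := by positivity
    have h5 : (1/8:ℝ)^(a+1) ≤ 1 := pow_le_one₀ (by norm_num) (by norm_num)
    refine ⟨by nlinarith, by nlinarith, mul_nonneg (by linarith) h3⟩

theorem bpe_sum_le (n : ℕ) : ∑ l ∈ Finset.range n, (1 / 8 : ℝ) ^ (l + 1) ≤ 1 / 7 := by
  have h : ∀ n : ℕ, ∑ l ∈ Finset.range n, (1 / 8 : ℝ) ^ (l + 1) = (1 - (1/8)^n) / 7 := by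
    intro n
    induction n with
    | zero => simp
    | succ n ih => rw [Finset.sum_range_succ, ih]; ring
  rw [h]
  have : (0:ℝ) < (1/8)^n := by positivity
  linarith

theorem bpe_sum4 (n : ℕ) : ∑ l ∈ Finset.range n, (4 : ℝ) / 4 ^ l ≤ 16 / 3 := by
  have h : ∀ n : ℕ, ∑ l ∈ Finset.range n, (4 : ℝ) / 4 ^ l = 16 / 3 * (1 - (1/4)^n) := by
    intro n
    induction n with
    | zero => simp
    | succ n ih =>
      rw [Finset.sum_range_succ, ih]
      have : (4:ℝ) / 4 ^ n = 4 * (1/4)^n := by rw [one_div, inv_pow]; ring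
      rw [this]; ring
  rw [h]
  have : (0:ℝ) < (1/4)^n := by positivity
  linarith

theorem DD_pos (n : ℕ) : 0 < DD n := by
  unfold DD
  apply Finset.prod_pos
  intro i _
  positivity

theorem bpe (hz : ∀ i : R, ‖z i‖ = rad i.1) (hinj : Function.Injective z)
    (hself : ∀ i : R, xx i.1 (z i) ^ el i.1 = 1) (hw : Summable ww) (hw0 : ∀ i, 0 < ww i)
    (hlow : ∀ (i : R) (m : ℕ), m < i.1 → (1 + (2 : ℝ) ^ el m) * (1 - (1 / 8) ^ (m + 1)) ≤ ‖qq m (z i)‖)
    (hup : ∀ (i : R) (m : ℕ), i.1 < m → 4 ^ m * ‖xx m (z i)‖ ≤ (1 / 8) ^ (m + 1))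
    (hnorm : ∀ (f : R → ℂ), Bd f → ‖vec ee f‖ ^ 2 = ∑' i, ee i ^ 2 * ‖f i‖ ^ 2) :
    ∃ C : ℝ, ∀ p : ℂ[X], ‖p.eval 0‖ ≤ C * ‖vec ee (fun i => p.eval (z i))‖ := by
  classical
  -- nonvanishing
  have hzne : ∀ i : R, z i ≠ 0 := by
    intro i h0
    have h1 := hself i
    rw [h0] at h1
    simp [xx, (bpe_el_pos i.1).ne', (bpe_av_pos i.1).ne'] at h1
  have hpow : ∀ i : R, (2:ℂ) ^ el i.1 * z i ^ NN i.1 = 1 := by
    intro i
    have h1 := hself i
    unfold xx at h1
    rw [mul_pow, ← pow_mul] at h1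
    exact h1
  have hqself : ∀ i : R, qq i.1 (z i) = 0 := by
    intro i
    unfold qq
    rw [hself i, sub_self]
  -- lower bound for each factor
  have hfac : ∀ (i : R) (l : ℕ), l ≠ i.1 →
      (if l < i.1 then 1 + (2:ℝ) ^ el l else 1) * (1 - (1/8)^(l+1)) ≤ ‖qq l (z i)‖ := by
    intro i l hl
    by_cases hlt : l < i.1
    · rw [if_pos hlt]; exact hlow i l hlt
    · rw [if_neg hlt, one_mul]
      have hgt : i.1 < l := lt_of_le_of_ne (not_lt.mp hlt) (Ne.symm hl)
      have h1 := hup i l hgt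
      have h2 : ‖xx l (z i)‖ ≤ (1/8)^(l+1) := by
        have h3 : (1:ℝ) ≤ 4 ^ l := one_le_pow₀ (by norm_num)
        have h4 := norm_nonneg (xx l (z i))
        nlinarith
      have h5 : ‖xx l (z i) ^ el l‖ ≤ (1/8)^(l+1) := by
        rw [norm_pow]
        have h6 : ‖xx l (z i)‖ ≤ 1 := h2.trans (pow_le_one₀ (by norm_num) (by norm_num))
        calc ‖xx l (z i)‖ ^ el l ≤ ‖xx l (z i)‖ ^ 1 :=
              pow_le_pow_of_le_one (norm_nonneg _) h6 (bpe_el_pos l)
          _ = ‖xx l (z i)‖ := pow_one _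
          _ ≤ _ := h2
      unfold qq
      have h7 : ‖(1:ℂ)‖ - ‖xx l (z i) ^ el l‖ ≤ ‖1 - xx l (z i) ^ el l‖ := norm_sub_norm_le _ _
      rw [norm_one] at h7
      linarith
  have hfacpos : ∀ (i : R) (l : ℕ), l ≠ i.1 →
      0 < (if l < i.1 then 1 + (2:ℝ) ^ el l else 1) * (1 - (1/8)^(l+1)) := by
    intro i l _
    apply mul_pos
    · split_ifs <;> positivity
    · have : (1/8:ℝ)^(l+1) < 1 := pow_lt_one₀ (by norm_num) (by norm_num) (by omega)
      linarith
  have hqne : ∀ (i : R) (l : ℕ), l ≠ i.1 → qq l (z i) ≠ 0 := by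
    intro i l hl h0
    have h1 := hfac i l hl
    rw [h0, norm_zero] at h1
    linarith [hfacpos i l hl]
  have hprod : ∀ (n : ℕ) (i : R), i.1 < n →
      DD i.1 / 2 ≤ ∏ l ∈ (Finset.range n).erase i.1, ‖qq l (z i)‖ := by
    intro n i hi
    have h1 : ∏ l ∈ (Finset.range n).erase i.1,
        ((if l < i.1 then 1 + (2:ℝ) ^ el l else 1) * (1 - (1/8)^(l+1)))
        ≤ ∏ l ∈ (Finset.range n).erase i.1, ‖qq l (z i)‖ := by
      apply Finset.prod_le_prod
      · intro l hl; exact (hfacpos i l (Finset.ne_of_mem_erase hl)).le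
      · intro l hl; exact hfac i l (Finset.ne_of_mem_erase hl)
    refine le_trans ?_ h1
    rw [Finset.prod_mul_distrib]
    have h2 : ∏ l ∈ (Finset.range n).erase i.1, (if l < i.1 then 1 + (2:ℝ) ^ el l else 1)
        = DD i.1 := by
      rw [← Finset.prod_filter]
      unfold DD
      apply Finset.prod_congr _ (fun _ _ => rfl)
      ext l
      simp only [Finset.mem_filter, Finset.mem_erase, Finset.mem_range]
      omega
    rw [h2]
    have h3 := (bpe_prod_lower ((Finset.range n).erase i.1)).1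
    have h4 : ∑ l ∈ (Finset.range n).erase i.1, (1 / 8 : ℝ) ^ (l + 1) ≤ 1 / 7 := by
      refine le_trans ?_ (bpe_sum_le n)
      apply Finset.sum_le_sum_of_subset_of_nonneg (Finset.erase_subset _ _)
      intro _ _ _; positivity
    have h5 := DD_pos i.1
    nlinarith
  have hLPself : ∀ (n : ℕ) (i : R), (LP n i).eval (z i) = 1 := by
    intro n i
    unfold LP
    rw [eval_mul, eval_prod, GP_eval]
    have h1 : ∏ l ∈ (Finset.range n).erase i.1, (C ((qq l (z i))⁻¹) * QP l).eval (z i) = 1 := by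
      apply Finset.prod_eq_one
      intro l hl
      rw [eval_mul, eval_C, QP_eval, inv_mul_cancel₀ (hqne i l (Finset.ne_of_mem_erase hl))]
    rw [h1, one_mul, inv_mul_cancel₀ (hzne i)]
    simp only [one_pow, Finset.sum_const, Finset.card_range, nsmul_eq_mul, mul_one]
    exact inv_mul_cancel₀ (by exact_mod_cast (bpe_NN_pos i.1).ne')
  have hLPother : ∀ (n : ℕ) (i j : R), j.1 < n → j ≠ i → (LP n i).eval (z j) = 0 := by
    intro n i j hj hji
    unfold LP
    rw [eval_mul, eval_prod]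
    by_cases hm : j.1 = i.1
    · have h1 : (GP i).eval (z j) = 0 := by
        rw [GP_eval]
        have h2 : ((z i)⁻¹ * z j) ≠ 1 := by
          intro h
          apply hji
          apply hinj
          have h3 := congrArg (fun t => z i * t) h
          simp only [mul_one] at h3
          rw [mul_inv_cancel_left₀ (hzne i)] at h3
          exact h3
        have h3 : ((z i)⁻¹ * z j) ^ NN i.1 = 1 := by
          have h4 := hpow i
          have h5 := hpow j
          rw [hm] at h5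
          have h6 : z j ^ NN i.1 = z i ^ NN i.1 := by
            have h7 : (2:ℂ) ^ el i.1 ≠ 0 := pow_ne_zero _ two_ne_zero
            apply mul_left_cancel₀ h7
            rw [h4, h5]
          rw [mul_pow, inv_pow, h6]
          exact inv_mul_cancel₀ (pow_ne_zero _ (hzne i))
        have h8 : ∑ k ∈ Finset.range (NN i.1), ((z i)⁻¹ * z j) ^ k = 0 := by
          rw [geom_sum_eq h2, h3, sub_self, zero_div]
        rw [h8, mul_zero]
      rw [h1, mul_zero]
    · have h1 : ∏ l ∈ (Finset.range n).erase i.1, (C ((qq l (z i))⁻¹) * QP l).eval (z j) = 0 := by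
        apply Finset.prod_eq_zero (i := j.1)
        · exact Finset.mem_erase.mpr ⟨hm, Finset.mem_range.mpr hj⟩
        · rw [eval_mul, QP_eval, hqself j, mul_zero]
      rw [h1, zero_mul]
  refine ⟨3, ?_⟩
  intro p
  set n : ℕ := p.natDegree + 1 with hn
  set s : Finset R := (Finset.range n).sigma (fun _ => Finset.univ) with hs
  have hsmem : ∀ i : R, i ∈ s ↔ i.1 < n := by
    intro i; simp [hs]
  have hscard : s.card = ∑ l ∈ Finset.range n, NN l := by
    rw [hs, Finset.card_sigma]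
    simp
  have hcardn : n ≤ s.card := by
    rw [hscard]
    calc n = ∑ l ∈ Finset.range n, 1 := by simp
      _ ≤ ∑ l ∈ Finset.range n, NN l := Finset.sum_le_sum (fun l _ => bpe_NN_pos l)
  have hinterp : p = ∑ i ∈ s, C (p.eval (z i)) * LP n i := by
    apply eq_of_degrees_lt_of_eval_index_eq (v := z) s hinj.injOn
    · refine lt_of_le_of_lt degree_le_natDegree ?_
      have : p.natDegree < s.card := by omega
      exact_mod_cast this
    · refine lt_of_le_of_lt (degree_sum_le _ _) ?_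
      rw [Finset.sup_lt_iff (by exact WithBot.bot_lt_coe _)]
      intro i hi
      refine lt_of_le_of_lt degree_le_natDegree ?_
      have h1 : (C (p.eval (z i)) * LP n i).natDegree < s.card := by
        rw [hscard]
        exact lt_of_le_of_lt (natDegree_C_mul_le _ _) (LP_natDegree ((hsmem i).mp hi))
      exact_mod_cast h1
    · intro j hj
      rw [eval_finsetSum, Finset.sum_eq_single j]
      · rw [eval_mul, eval_C, hLPself, mul_one]
      · intro i _ hij
        rw [eval_mul, hLPother n i j ((hsmem j).mp hj) hij.symm, mul_zero]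
      · intro h; exact absurd hj h
  have hp0 : p.eval 0 = ∑ i ∈ s, p.eval (z i) *
      ((∏ l ∈ (Finset.range n).erase i.1, (qq l (z i))⁻¹) * (NN i.1 : ℂ)⁻¹) := by
    conv_lhs => rw [hinterp]
    rw [eval_finsetSum]
    apply Finset.sum_congr rfl
    intro i _
    rw [eval_mul, eval_C, LP_zero]
  have hee : ∀ i, 0 < ee i := fun i => Real.sqrt_pos.mpr (hw0 i)
  have hee2 : ∀ i, ee i ^ 2 = ww i := fun i => Real.sq_sqrt (hw0 i).le
  have hNN : ∀ m : ℕ, (0:ℝ) < NN m := fun m => by exact_mod_cast bpe_NN_pos m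
  have hbound : ‖p.eval 0‖ ≤ ∑ i ∈ s, (ee i * ‖p.eval (z i)‖) * (2 / (DD i.1 * NN i.1 * ee i)) := by
    rw [hp0]
    refine (norm_sum_le _ _).trans ?_
    apply Finset.sum_le_sum
    intro i hi
    rw [norm_mul, norm_mul, norm_prod, norm_inv, Complex.norm_natCast]
    have h1 := hprod n i ((hsmem i).mp hi)
    have h2 := DD_pos i.1
    have h3 : ∏ l ∈ (Finset.range n).erase i.1, ‖(qq l (z i))⁻¹‖ =
        (∏ l ∈ (Finset.range n).erase i.1, ‖qq l (z i)‖)⁻¹ := by
      rw [← Finset.prod_inv_distrib]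
      apply Finset.prod_congr rfl
      intro l _
      rw [norm_inv]
    rw [h3]
    have h4 : (∏ l ∈ (Finset.range n).erase i.1, ‖qq l (z i)‖)⁻¹ ≤ (DD i.1 / 2)⁻¹ :=
      inv_anti₀ (by positivity) h1
    have h5 := hee i
    have h6 := hNN i.1
    calc ‖p.eval (z i)‖ * ((∏ l ∈ (Finset.range n).erase i.1, ‖qq l (z i)‖)⁻¹ * (NN i.1 : ℝ)⁻¹)
        ≤ ‖p.eval (z i)‖ * ((DD i.1 / 2)⁻¹ * (NN i.1 : ℝ)⁻¹) := by
          apply mul_le_mul_of_nonneg_left _ (norm_nonneg _)
          exact mul_le_mul_of_nonneg_right h4 (by positivity)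
      _ = (ee i * ‖p.eval (z i)‖) * (2 / (DD i.1 * NN i.1 * ee i)) := by
          field_simp
  have hCS := Finset.sum_mul_sq_le_sq_mul_sq s (fun i => ee i * ‖p.eval (z i)‖)
    (fun i => 2 / (DD i.1 * NN i.1 * ee i))
  have hsum2 : ∑ i ∈ s, (2 / (DD i.1 * NN i.1 * ee i)) ^ 2 ≤ 16 / 3 := by
    rw [hs, Finset.sum_sigma]
    refine le_trans (le_of_eq ?_) (bpe_sum4 n)
    apply Finset.sum_congr rfl
    intro m _
    have h1 : ∀ k ∈ (Finset.univ : Finset (Fin (NN m))),
        (2 / (DD (⟨m, k⟩ : R).1 * NN (⟨m, k⟩ : R).1 * ee ⟨m, k⟩)) ^ 2 = (4 / 4 ^ m) / NN m := by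
      intro k _
      have h2 := hee2 ⟨m, k⟩
      have h3 := DD_pos m
      have h4 := hNN m
      have h5 : ww ⟨m, k⟩ = 4 ^ m / DD m ^ 2 / NN m := rfl
      rw [div_pow, mul_pow, h2, h5]
      simp only
      field_simp
      norm_num
    rw [Finset.sum_congr rfl h1, Finset.sum_const, Finset.card_univ, Fintype.card_fin, nsmul_eq_mul]
    have h4 := hNN m
    field_simp
  have hrad : ∀ i : R, ‖z i‖ ≤ 1 := by
    intro i
    rw [hz i]
    unfold rad
    apply Real.rpow_le_one (by norm_num) (by norm_num)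
    positivity
  have hBd : Bd (fun i => p.eval (z i)) := by
    refine ⟨∑ k ∈ Finset.range (p.natDegree + 1), ‖p.coeff k‖, ?_⟩
    intro i
    simp only
    rw [eval_eq_sum_range]
    refine (norm_sum_le _ _).trans ?_
    apply Finset.sum_le_sum
    intro k _
    rw [norm_mul, norm_pow]
    have h1 : ‖z i‖ ^ k ≤ 1 := pow_le_one₀ (norm_nonneg _) (hrad i)
    have h2 := norm_nonneg (p.coeff k)
    nlinarith
  have hsummable : Summable (fun i : R => ee i ^ 2 * ‖p.eval (z i)‖ ^ 2) := by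
    obtain ⟨B, hB⟩ := hBd
    have h0 : Summable (fun i : R => ww i * B ^ 2) := hw.mul_right _
    refine Summable.of_nonneg_of_le (fun i => by positivity) (fun i => ?_) h0
    rw [hee2]
    apply mul_le_mul_of_nonneg_left _ (hw0 i).le
    exact pow_le_pow_left₀ (norm_nonneg _) (hB i) 2
  have hsum1 : ∑ i ∈ s, (ee i * ‖p.eval (z i)‖) ^ 2 ≤ ‖vec ee (fun i => p.eval (z i))‖ ^ 2 := by
    rw [hnorm _ hBd]
    have h1 : ∑ i ∈ s, (ee i * ‖p.eval (z i)‖) ^ 2 = ∑ i ∈ s, ee i ^ 2 * ‖p.eval (z i)‖ ^ 2 := by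
      apply Finset.sum_congr rfl
      intro i _; ring
    rw [h1]
    exact hsummable.sum_le_tsum s (fun i _ => by positivity)
  have hfin : ‖p.eval 0‖ ^ 2 ≤ (3 * ‖vec ee (fun i => p.eval (z i))‖) ^ 2 := by
    calc ‖p.eval 0‖ ^ 2
        ≤ (∑ i ∈ s, (ee i * ‖p.eval (z i)‖) * (2 / (DD i.1 * NN i.1 * ee i))) ^ 2 :=
          pow_le_pow_left₀ (norm_nonneg _) hbound 2
      _ ≤ (∑ i ∈ s, (ee i * ‖p.eval (z i)‖) ^ 2) * ∑ i ∈ s, (2 / (DD i.1 * NN i.1 * ee i)) ^ 2 := hCS
      _ ≤ ‖vec ee (fun i => p.eval (z i))‖ ^ 2 * (16 / 3) := by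
          apply mul_le_mul hsum1 hsum2 (Finset.sum_nonneg (fun _ _ => by positivity)) (by positivity)
      _ ≤ (3 * ‖vec ee (fun i => p.eval (z i))‖) ^ 2 := by
          have := sq_nonneg ‖vec ee (fun i => p.eval (z i))‖
          nlinarith
  exact le_of_sq_le_sq hfin (by positivity)



end Pool.Agent.Helper635.CS.Bpe
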