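import Pool.Agent.Helper635.CS.Defs
set_option autoImplicit false
open scoped ENNReal BigOperators InnerProductSpace Topology
open Polynomial Filter

noncomputable section
namespace Pool.Agent.Helper635.CS.Expo


/-- truncated exponentials -/
def EJ (J : ℕ) (w : ℂ) : ℂ := ∑ k ∈ Finset.range J, w ^ k / (k.factorial : ℂ)
def PJ (J : ℕ) (w : ℂ) : ℂ := ∑ k ∈ Finset.range J, w ^ k / ((k + 1).factorial : ℂ)


theorem EJ_succ (J : ℕ) (w : ℂ) : EJ (J + 1) w = 1 + w * PJ J w := by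
  unfold EJ PJ
  rw [Finset.sum_range_succ', Finset.mul_sum]
  simp only [pow_zero, Nat.factorial_zero, Nat.cast_one, div_one]
  rw [add_comm]
  congr 1
  refine Finset.sum_congr rfl fun k _ => ?_
  rw [pow_succ]
  ring

theorem norm_EJ_le (J : ℕ) (w : ℂ) : ‖EJ J w‖ ≤ Real.exp ‖w‖ := by
  unfold EJ
  refine (norm_sum_le _ _).trans ?_
  refine le_trans (Finset.sum_le_sum fun k _ => ?_) (Real.sum_le_exp_of_nonneg (norm_nonneg w) J)
  rw [norm_div, norm_pow, Complex.norm_natCast]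

theorem norm_PJ_le (J : ℕ) (w : ℂ) : ‖PJ J w‖ ≤ Real.exp ‖w‖ := by
  unfold PJ
  refine (norm_sum_le _ _).trans ?_
  refine le_trans (Finset.sum_le_sum fun k _ => ?_) (Real.sum_le_exp_of_nonneg (norm_nonneg w) J)
  rw [norm_div, norm_pow, Complex.norm_natCast]
  apply div_le_div_of_nonneg_left (by positivity)
  · exact_mod_cast Nat.factorial_pos k
  · exact_mod_cast Nat.factorial_le (Nat.le_succ k)

theorem norm_PJ_sub_one (J : ℕ) (w : ℂ) : ‖PJ (J + 1) w - 1‖ ≤ ‖w‖ * Real.exp ‖w‖ := by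
  have h : PJ (J + 1) w - 1 = w * ∑ k ∈ Finset.range J, w ^ k / ((k + 2).factorial : ℂ) := by
    unfold PJ
    rw [Finset.sum_range_succ', Finset.mul_sum]
    simp only [pow_zero, zero_add, Nat.factorial_one, Nat.cast_one, div_one]
    rw [add_sub_cancel_right]
    refine Finset.sum_congr rfl fun k _ => ?_
    rw [pow_succ]
    ring
  rw [h, norm_mul]
  refine mul_le_mul_of_nonneg_left ?_ (norm_nonneg w)
  refine (norm_sum_le _ _).trans ?_
  refine le_trans (Finset.sum_le_sum fun k _ => ?_) (Real.sum_le_exp_of_nonneg (norm_nonneg w) J)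
  rw [norm_div, norm_pow, Complex.norm_natCast]
  apply div_le_div_of_nonneg_left (by positivity)
  · exact_mod_cast Nat.factorial_pos k
  · exact_mod_cast Nat.factorial_le (by omega)

theorem EJ_mul_neg (W : ℝ) : ∃ J₀ : ℕ, ∀ J, J₀ ≤ J → ∀ w : ℂ, ‖w‖ ≤ W → ‖EJ J w * EJ J (-w)‖ ≤ 2 := by
  have htend := (FloorSemiring.tendsto_pow_div_factorial_atTop (|W|)).mul_const (2 : ℝ)
  rw [zero_mul] at htend
  have hd : (0 : ℝ) < Real.exp (-|W|) / 4 := by positivity
  have hev := htend.eventually (ge_mem_nhds hd)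
  obtain ⟨J₁, hJ₁⟩ := Filter.eventually_atTop.1 hev
  obtain ⟨J₂, hJ₂⟩ := exists_nat_ge (2 * |W|)
  refine ⟨max J₁ J₂, fun J hJ w hw => ?_⟩
  have hW : ‖w‖ ≤ |W| := hw.trans (le_abs_self W)
  have hsmall : |W| ^ J / (J.factorial : ℝ) * 2 ≤ Real.exp (-|W|) / 4 := hJ₁ J (le_trans (le_max_left _ _) hJ)
  have hJ2 : (2 * |W|) ≤ (J : ℝ) := hJ₂.trans (by exact_mod_cast le_trans (le_max_right _ _) hJ)
  have key : ∀ u : ℂ, ‖u‖ ≤ |W| → ‖EJ J u - Complex.exp u‖ ≤ Real.exp (-|W|) / 4 := by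
    intro u hu
    rw [← norm_neg, neg_sub]
    have h1 : ‖u‖ / (J.succ : ℝ) ≤ 1 / 2 := by
      rw [div_le_iff₀ (by positivity)]
      push_cast
      linarith
    refine (Complex.exp_bound' h1).trans (le_trans ?_ hsmall)
    gcongr
  have h1 := key w hW
  have h2 := key (-w) (by rwa [norm_neg])
  have he : ∀ u : ℂ, ‖u‖ ≤ |W| → ‖Complex.exp u‖ ≤ Real.exp |W| := fun u hu =>
    (Complex.norm_exp_le_exp_norm u).trans (Real.exp_le_exp.2 hu)
  have e1 := he w hW
  have e2' := he (-w) (by rwa [norm_neg])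
  have hid : EJ J w * EJ J (-w) = 1 + Complex.exp w * (EJ J (-w) - Complex.exp (-w))
      + (EJ J w - Complex.exp w) * Complex.exp (-w)
      + (EJ J w - Complex.exp w) * (EJ J (-w) - Complex.exp (-w)) := by
    have : Complex.exp w * Complex.exp (-w) = 1 := by rw [← Complex.exp_add, add_neg_cancel, Complex.exp_zero]
    linear_combination this
  have hprod : Real.exp |W| * (Real.exp (-|W|) / 4) = 1 / 4 := by
    rw [mul_div_assoc', ← Real.exp_add, add_neg_cancel, Real.exp_zero]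
  have hle1 : Real.exp (-|W|) / 4 ≤ 1 / 4 := by
    have : Real.exp (-|W|) ≤ 1 := Real.exp_le_one_iff.2 (by simp)
    linarith
  rw [hid]
  have n1 : ‖Complex.exp w * (EJ J (-w) - Complex.exp (-w))‖ ≤ 1 / 4 := by
    rw [norm_mul, ← hprod]
    exact mul_le_mul e1 h2 (norm_nonneg _) (Real.exp_pos _).le
  have n2 : ‖(EJ J w - Complex.exp w) * Complex.exp (-w)‖ ≤ 1 / 4 := by
    rw [norm_mul, ← hprod, mul_comm]
    exact mul_le_mul e2' h1 (norm_nonneg _) (Real.exp_pos _).le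
  have n3 : ‖(EJ J w - Complex.exp w) * (EJ J (-w) - Complex.exp (-w))‖ ≤ 1 / 4 * (1 / 4) := by
    rw [norm_mul]
    exact mul_le_mul (h1.trans hle1) (h2.trans hle1) (norm_nonneg _) (by norm_num)
  calc ‖1 + Complex.exp w * (EJ J (-w) - Complex.exp (-w))
      + (EJ J w - Complex.exp w) * Complex.exp (-w)
      + (EJ J w - Complex.exp w) * (EJ J (-w) - Complex.exp (-w))‖
      ≤ ‖(1 : ℂ)‖ + ‖Complex.exp w * (EJ J (-w) - Complex.exp (-w))‖
      + ‖(EJ J w - Complex.exp w) * Complex.exp (-w)‖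
      + ‖(EJ J w - Complex.exp w) * (EJ J (-w) - Complex.exp (-w))‖ := norm_add₄_le
    _ ≤ 1 + 1 / 4 + 1 / 4 + 1 / 4 * (1 / 4) := by
      rw [norm_one]; linarith
    _ ≤ 2 := by norm_num



end Pool.Agent.Helper635.CS.Expo
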