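import Pool.Agent.Helper635.CS.Defs
set_option autoImplicit false
open scoped ENNReal BigOperators InnerProductSpace Topology
open Polynomial Filter

noncomputable section
namespace Pool.Agent.Helper635.CS.KsLe

theorem kl_summable_sq {ι : Type} (G : L2 ι) : Summable fun i => ‖G i‖ ^ 2 := by
  have h := lp.memℓp G
  have := (memℓp_gen_iff (by norm_num : 0 < (2:ℝ≥0∞).toReal)).1 h
  simpa using this

theorem kl_mem_of_sq {ι : Type} (f : ι → ℂ) (h : Summable fun i => ‖f i‖ ^ 2) :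
    Memℓp f 2 := by
  refine (memℓp_gen_iff (by norm_num : 0 < (2:ℝ≥0∞).toReal)).2 ?_
  simpa using h

theorem kl_norm_sq {ι : Type} (G : L2 ι) : ‖G‖ ^ 2 = ∑' i, ‖G i‖ ^ 2 := by
  have := lp.norm_rpow_eq_tsum (by norm_num : 0 < (2:ℝ≥0∞).toReal) G
  simpa using this

/-- rows -/
def kl_row (G : L2 (R × R)) (i : R) : L2 R :=
  ⟨fun j => G (i, j), kl_mem_of_sq _ ((kl_summable_sq G).comp_injective
    (Prod.mk_right_injective i))⟩

/-- swap -/
def kl_swp (G : L2 (R × R)) : L2 (R × R) :=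
  ⟨fun p => G p.swap, kl_mem_of_sq _ ((kl_summable_sq G).comp_injective
    Prod.swap_injective)⟩

theorem kl_row_apply (G : L2 (R × R)) (i j : R) : kl_row G i j = G (i, j) := rfl
theorem kl_swp_apply (G : L2 (R × R)) (p : R × R) : kl_swp G p = G p.swap := rfl

theorem kl_inner_row (G F : L2 (R × R)) :
    ⟪G, F⟫_ℂ = ∑' i, ⟪kl_row G i, kl_row F i⟫_ℂ := by
  rw [lp.inner_eq_tsum]
  have hs := lp.summable_inner (𝕜 := ℂ) G F
  rw [hs.tsum_prod]
  refine tsum_congr fun i => ?_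
  rw [lp.inner_eq_tsum]
  rfl

theorem kl_inner_swp (G F : L2 (R × R)) :
    ⟪kl_swp G, kl_swp F⟫_ℂ = ⟪G, F⟫_ℂ := by
  rw [lp.inner_eq_tsum, lp.inner_eq_tsum]
  exact (Equiv.prodComm R R).tsum_eq (fun p => ⟪G p, F p⟫_ℂ)

theorem kl_row_sq (G : L2 (R × R)) : Summable fun i => ‖kl_row G i‖ ^ 2 := by
  have h := (kl_summable_sq G).prod
  refine h.congr fun i => ?_
  rw [kl_norm_sq]
  rfl

theorem kl_c_mem (b : L2 R) (G : L2 (R × R)) : Memℓp (fun i => ⟪b, kl_row G i⟫_ℂ) 2 := by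
  refine kl_mem_of_sq _ ?_
  refine Summable.of_nonneg_of_le (fun i => by positivity) (fun i => ?_)
    ((kl_row_sq G).mul_left (‖b‖ ^ 2))
  rw [← mul_pow]
  exact pow_le_pow_left₀ (norm_nonneg _) (norm_inner_le_norm _ _) 2

theorem kl_tens_inner (htens : ∀ (a b : L2 R) (p : R × R), tens a b p = a p.1 * b p.2)
    (a b : L2 R) (G : L2 (R × R)) :
    ⟪tens a b, G⟫_ℂ = ⟪a, (⟨fun i => ⟪b, kl_row G i⟫_ℂ, kl_c_mem b G⟩ : L2 R)⟫_ℂ := by
  rw [kl_inner_row, lp.inner_eq_tsum]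
  refine tsum_congr fun i => ?_
  have : kl_row (tens a b) i = a i • b := by
    ext j
    rw [kl_row_apply, htens]
    rfl
  rw [this, inner_smul_left]
  simp [mul_comm]

theorem kl_mem_Hs_perp (v : L2 R) (h : ∀ k : ℕ, ⟪mon (k : ℤ), v⟫_ℂ = 0) : v ∈ Hsᗮ := by
  unfold Hs
  rw [Submodule.orthogonal_closure]
  rw [Submodule.mem_orthogonal]
  intro u hu
  induction hu using Submodule.span_induction with
  | mem x hx =>
    obtain ⟨k, rfl⟩ := hx
    exact h k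
  | zero => simp
  | add x y _ _ hx hy => rw [inner_add_left, hx, hy, add_zero]
  | smul c x _ hx => rw [inner_smul_left, hx, mul_zero]

theorem kl_row_mem (htens : ∀ (a b : L2 R) (p : R × R), tens a b p = a p.1 * b p.2)
    (htot : ∀ a : L2 R, (∀ k : ℤ, ⟪mon k, a⟫_ℂ = 0) → a = 0)
    (G : L2 (R × R)) (h : ∀ (k : ℤ) (l : ℕ), ⟪tens (mon k) (mon (l : ℤ)), G⟫_ℂ = 0) (i : R) :
    kl_row G i ∈ Hsᗮ := by
  refine kl_mem_Hs_perp _ fun l => ?_
  have h0 := htot (⟨fun i => ⟪mon (l : ℤ), kl_row G i⟫_ℂ, kl_c_mem _ G⟩ : L2 R) (fun k => by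
    rw [← kl_tens_inner htens]; exact h k l)
  have := congrArg (fun v : L2 R => v i) h0
  exact this

theorem Ks_le (he : Summable fun i => ee i ^ 2) (he2 : Summable fun p => e2 p ^ 2)
    (hzb : ∀ i : R, 1 / 2 ≤ ‖z i‖ ∧ ‖z i‖ < 1)
    (hvec : ∀ (f : R → ℂ), Bd f → ∀ i, vec ee f i = ee i * f i)
    (hvec2 : ∀ (f : R × R → ℂ), Bd f → ∀ p, vec e2 f p = e2 p * f p)
    (htens : ∀ (a b : L2 R) (p : R × R), tens a b p = a p.1 * b p.2)
    (hin : ∀ a b c d : L2 R, ⟪tens a b, tens c d⟫_ℂ = ⟪a, c⟫_ℂ * ⟪b, d⟫_ℂ)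
    (htot : ∀ a : L2 R, (∀ k : ℤ, ⟪mon k, a⟫_ℂ = 0) → a = 0)
    (hpart : ∀ (T : L2 R →L[ℂ] L2 R), (∀ a b, ⟪T a, b⟫_ℂ = ⟪a, T b⟫_ℂ) → ∀ F : L2 (R × R),
      ∃ G : L2 (R × R), (∀ a b, ⟪tens a b, G⟫_ℂ = ⟪tens a (T b), F⟫_ℂ) ∧
      ∃ row : R → L2 R, (∀ i j, row i j = F (i, j)) ∧ ∀ i j, G (i, j) = T (row i) j) :
    Ks ≤ (Submodule.span ℂ {T | ∃ k l : ℤ, (0 ≤ k ∨ 0 ≤ l) ∧ T = Xm k l}).topologicalClosure := by
  -- bounded monomials
  have hzk : ∀ k : ℤ, ∀ i : R, ‖z i ^ k‖ ≤ 2 ^ k.natAbs := by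
    intro k i
    obtain ⟨h1, h2⟩ := hzb i
    rw [norm_zpow]
    rcases Int.natAbs_eq k with hk | hk
    · rw [hk, zpow_natCast, Int.natAbs_natCast]
      exact pow_le_pow_left₀ (norm_nonneg _) (by linarith) _
    · rw [hk, zpow_neg, zpow_natCast, Int.natAbs_neg, Int.natAbs_natCast, ← inv_pow]
      refine pow_le_pow_left₀ (by positivity) ?_ _
      rw [inv_le_comm₀ (by linarith) (by norm_num)]
      linarith
  have hXm : ∀ k l : ℤ, Xm k l = tens (mon k) (mon l) := by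
    intro k l
    ext p
    rw [htens]
    unfold Xm mon
    rw [hvec2 _ ⟨2 ^ k.natAbs * 2 ^ l.natAbs, fun p => by
      rw [norm_mul]
      exact mul_le_mul (hzk k p.1) (hzk l p.2) (norm_nonneg _) (by positivity)⟩,
      hvec _ ⟨_, hzk k⟩, hvec _ ⟨_, hzk l⟩]
    unfold e2
    push_cast
    ring
  intro F hF
  have : CompleteSpace Hs := by
    unfold Hs
    infer_instance
  rw [← Submodule.orthogonal_orthogonal_eq_closure, Submodule.mem_orthogonal]
  intro G hG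
  rw [Submodule.mem_orthogonal] at hG
  have hG' : ∀ k l : ℤ, (0 ≤ k ∨ 0 ≤ l) → ⟪tens (mon k) (mon l), G⟫_ℂ = 0 := by
    intro k l hkl
    exact hG _ (Submodule.subset_span ⟨k, l, hkl, (hXm k l).symm⟩)
  have hrow : ∀ i, kl_row G i ∈ Hsᗮ := kl_row_mem htens htot G fun k l =>
    hG' k l (Or.inr (Int.natCast_nonneg l))
  have hcol : ∀ i, kl_row (kl_swp G) i ∈ Hsᗮ := kl_row_mem htens htot (kl_swp G) fun k l => by
    have : tens (mon k) (mon (l : ℤ)) = kl_swp (tens (mon (l : ℤ)) (mon k)) := by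
      ext p
      rw [kl_swp_apply, htens, htens, mul_comm]
      rfl
    rw [this, kl_inner_swp]
    exact hG' l k (Or.inl (Int.natCast_nonneg l))
  obtain ⟨FA, hFA, row, hrowF, hFArow⟩ := hpart Hs.starProjection
    (fun a b => Submodule.inner_starProjection_left_eq_right Hs a b) F
  -- first part
  have h1 : ⟪G, FA⟫_ℂ = 0 := by
    rw [kl_inner_row]
    refine (tsum_congr fun i => ?_).trans tsum_zero
    have : kl_row FA i = Hs.starProjection (row i) := by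
      ext j
      rw [kl_row_apply, hFArow]
    rw [this]
    exact Submodule.inner_left_of_mem_orthogonal (Submodule.starProjection_apply_mem Hs (row i)) (hrow i)
  have h2 : ⟪G, F - FA⟫_ℂ = 0 := by
    rw [← kl_inner_swp, kl_inner_row]
    refine (tsum_congr fun j => ?_).trans tsum_zero
    refine Submodule.inner_right_of_mem_orthogonal (K := Hsᗮ) (hcol j) ?_
    rw [Submodule.mem_orthogonal]
    intro a ha
    -- ⟪a, col j⟫ = ⟪tens a δ_j, FB⟫
    have hd : ⟪a, kl_row (kl_swp (F - FA)) j⟫_ℂ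
        = ⟪tens a (lp.single 2 j (1:ℂ)), F - FA⟫_ℂ := by
      rw [kl_tens_inner htens, lp.inner_eq_tsum, lp.inner_eq_tsum]
      refine tsum_congr fun i => ?_
      congr 1
      show (F - FA) (i, j) = ⟪lp.single 2 j (1:ℂ), kl_row (F - FA) i⟫_ℂ
      rw [lp.inner_single_left]
      simp [kl_row_apply]
    rw [hd, inner_sub_right, hFA, ← inner_sub_left]
    have he : tens a (lp.single 2 j (1:ℂ)) - tens a (Hs.starProjection (lp.single 2 j (1:ℂ)))
        = tens a (lp.single 2 j (1:ℂ) - Hs.starProjection (lp.single 2 j (1:ℂ))) := by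
      ext p
      rw [htens]
      show tens a (lp.single 2 j (1:ℂ)) p - tens a (Hs.starProjection (lp.single 2 j (1:ℂ))) p = _
      rw [htens, htens]
      show _ = a p.1 * ((lp.single 2 j (1:ℂ) : L2 R) p.2 - (Hs.starProjection (lp.single 2 j (1:ℂ))) p.2)
      ring
    rw [he]
    have hK := hF
    unfold Ks at hK
    rw [Submodule.mem_orthogonal] at hK
    exact hK _ (Submodule.subset_span ⟨a, ha, _, Submodule.sub_starProjection_mem_orthogonal _, rfl⟩)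
  have : ⟪G, F⟫_ℂ = ⟪G, FA⟫_ℂ + ⟪G, F - FA⟫_ℂ := by
    rw [← inner_add_right]; congr 1; abel
  rw [this, h1, h2, add_zero]


end Pool.Agent.Helper635.CS.KsLe
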