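import Pool.Agent.Helper635.CS.Defs
set_option autoImplicit false
open scoped ENNReal BigOperators InnerProductSpace Topology
open Polynomial Filter

noncomputable section
namespace Pool.Agent.Helper635.CS.Lims



theorem lm_DD_succ (n : ℕ) : DD (n + 1) = DD n * (1 + (2 : ℝ) ^ el n) := by
  unfold DD
  rw [Finset.prod_range_succ]

theorem lm_one_le_DD (n : ℕ) : 1 ≤ DD n := by
  induction n with
  | zero => simp [DD]
  | succ n ih =>
    rw [lm_DD_succ]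
    have : (0 : ℝ) < 2 ^ el n := by positivity
    nlinarith

theorem lm_DD_ge (n : ℕ) : (2 : ℝ) ^ (8 ^ (n + 1)) ≤ DD (n + 1) := by
  rw [lm_DD_succ]
  have h1 := lm_one_le_DD n
  have h2 : (0 : ℝ) < 2 ^ el n := by positivity
  have h3 : (2 : ℝ) ^ (8 ^ (n + 1)) = 2 ^ el n := rfl
  rw [h3]
  nlinarith

theorem lm_G (c : ℝ) : Tendsto (fun m : ℕ => (4 : ℝ) ^ m * Real.exp (4 ^ m * c) / 2 ^ (8 ^ m))
    atTop (𝓝 0) := by
  have hlog2 : 0 < Real.log 2 := Real.log_pos (by norm_num)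
  have hlog4 : 0 < Real.log 4 := Real.log_pos (by norm_num)
  set u : ℕ → ℝ := fun m => Real.log 4 + |c| - 2 ^ m * Real.log 2 with hu
  have hu1 : Tendsto u atTop atBot := by
    have h1 : Tendsto (fun m : ℕ => (2 : ℝ) ^ m * Real.log 2) atTop atTop :=
      (tendsto_pow_atTop_atTop_of_one_lt (by norm_num)).atTop_mul_const hlog2
    exact tendsto_atBot_add_const_left _ _ (tendsto_neg_atTop_atBot.comp h1)
  have hexp : ∀ m : ℕ, (4 : ℝ) ^ m * Real.exp (4 ^ m * c) / 2 ^ (8 ^ m) =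
      Real.exp (m * Real.log 4 + 4 ^ m * c - 8 ^ m * Real.log 2) := by
    intro m
    rw [Real.exp_sub, Real.exp_add]
    congr 1
    · congr 1
      rw [← Real.log_pow, Real.exp_log (by positivity)]
    · have : ((8 : ℝ) ^ m) * Real.log 2 = ((8 ^ m : ℕ) : ℝ) * Real.log 2 := by push_cast; ring
      rw [this, ← Real.log_pow, Real.exp_log (by positivity)]
  have hle : ∀ᶠ m : ℕ in atTop, (m : ℝ) * Real.log 4 + 4 ^ m * c - 8 ^ m * Real.log 2 ≤ u m := by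
    filter_upwards [hu1.eventually_le_atBot 0] with m hm
    have h1 : (m : ℝ) ≤ 4 ^ m := by
      have : m < 4 ^ m := Nat.lt_pow_self (by norm_num)
      exact_mod_cast this.le
    have h2 : (8 : ℝ) ^ m = 4 ^ m * 2 ^ m := by
      rw [← mul_pow]; norm_num
    have h3 : (1 : ℝ) ≤ 4 ^ m := one_le_pow₀ (by norm_num)
    have h4 : (m : ℝ) * Real.log 4 ≤ 4 ^ m * Real.log 4 := mul_le_mul_of_nonneg_right h1 hlog4.le
    have h5 : (4 : ℝ) ^ m * c ≤ 4 ^ m * |c| := mul_le_mul_of_nonneg_left (le_abs_self c) (by positivity)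
    have h6 : (4 : ℝ) ^ m * u m ≤ u m := by nlinarith
    have h7 : (4 : ℝ) ^ m * u m = 4 ^ m * Real.log 4 + 4 ^ m * |c| - 8 ^ m * Real.log 2 := by
      rw [h2]; simp only [hu]; ring
    linarith
  simp only [hexp]
  exact Real.tendsto_exp_atBot.comp (tendsto_atBot_mono' _ hle hu1)

theorem lim1 (r : ℝ) : Tendsto (fun n : ℕ => MM n * (Real.exp (4 ^ n * r) + 1) ^ 2) atTop (𝓝 0) := by
  rw [← tendsto_add_atTop_iff_nat 1]
  have hG := ((tendsto_add_atTop_iff_nat 1).2 (lm_G |r|))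
  have hG2 : Tendsto (fun n : ℕ => 4 * ((4 : ℝ) ^ (n + 1) * Real.exp (4 ^ (n + 1) * |r|) /
      2 ^ (8 ^ (n + 1))) ^ 2) atTop (𝓝 0) := by
    have := (hG.pow 2).const_mul 4
    simpa using this
  refine squeeze_zero (fun n => ?_) (fun n => ?_) hG2
  · unfold MM
    have := lm_one_le_DD (n + 1)
    positivity
  · have h1 := lm_DD_ge n
    have h2 : (0 : ℝ) < 2 ^ (8 ^ (n + 1)) := by positivity
    have h3 : Real.exp (4 ^ (n + 1) * r) ≤ Real.exp (4 ^ (n + 1) * |r|) := by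
      apply Real.exp_le_exp.2
      exact mul_le_mul_of_nonneg_left (le_abs_self r) (by positivity)
    have h4 : 1 ≤ Real.exp (4 ^ (n + 1) * |r|) := by
      apply Real.one_le_exp
      positivity
    have h5 : Real.exp (4 ^ (n + 1) * r) + 1 ≤ 2 * Real.exp (4 ^ (n + 1) * |r|) := by linarith
    have h6 : (1 : ℝ) ≤ 4 ^ (n + 1) := one_le_pow₀ (by norm_num)
    unfold MM
    generalize (4 : ℝ) ^ (n + 1) = q at *
    generalize Real.exp (q * |r|) = e at *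
    generalize (2 : ℝ) ^ (8 ^ (n + 1)) = p at *
    generalize DD (n + 1) = D at *
    have h7 : (Real.exp (q * r) + 1) ^ 2 ≤ (2 * e) ^ 2 :=
      pow_le_pow_left₀ (by positivity) h5 2
    have h8 : p ^ 2 ≤ D ^ 2 := pow_le_pow_left₀ h2.le h1 2
    calc q / D ^ 2 * (Real.exp (q * r) + 1) ^ 2 ≤ q / p ^ 2 * (2 * e) ^ 2 := by gcongr
      _ = 4 * (q * e ^ 2 / p ^ 2) := by ring
      _ ≤ 4 * (q ^ 2 * e ^ 2 / p ^ 2) := by
          have : q ≤ q ^ 2 := by nlinarith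
          gcongr
      _ = 4 * (q * e / p) ^ 2 := by ring

theorem lim2 : Tendsto (fun n : ℕ => MM n * (DD n / 4 ^ n) ^ 2) atTop (𝓝 0) := by
  have h : ∀ n : ℕ, MM n * (DD n / 4 ^ n) ^ 2 = (1 / 4 : ℝ) ^ n := by
    intro n
    have h1 := lm_one_le_DD n
    have h2 : DD n ≠ 0 := by positivity
    unfold MM
    rw [one_div, inv_pow]
    field_simp
  simp only [h]
  exact tendsto_pow_atTop_nhds_zero_of_lt_one (by norm_num) (by norm_num)

theorem lm3 (r : ℝ) (n : ℕ) : |2 ^ (n + 1) * ((r * Real.exp (2 * 4 ^ n * r) +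
    2 ^ (el n - 1) / 4 ^ n) / (1 + 2 ^ el n))| ≤
    |r| * ((4 : ℝ) ^ (n + 1) * Real.exp (4 ^ (n + 1) * |r|) / 2 ^ (8 ^ (n + 1))) +
            (1 / 2 : ℝ) ^ n := by
  have hel : el n = (el n - 1) + 1 := by
    have : 0 < el n := by unfold el; positivity
    omega
  have h8 : (2 : ℝ) ^ (8 ^ (n + 1)) = 2 ^ el n := rfl
  rw [h8]
  have hp2 : (2 : ℝ) ^ el n = 2 * 2 ^ (el n - 1) := by
    conv_lhs => rw [hel]
    rw [pow_succ]; ring
  have hq : (0 : ℝ) < 2 ^ (el n - 1) := by positivity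
  have hp : (0 : ℝ) < 2 ^ el n := by positivity
  have h4n : (0 : ℝ) < 4 ^ n := by positivity
  have h2n : (0 : ℝ) < 2 ^ (n + 1) := by positivity
  rw [abs_mul, abs_of_pos h2n, abs_div, abs_of_pos (by positivity : (0 : ℝ) < 1 + 2 ^ el n)]
  have h1 : |r * Real.exp (2 * 4 ^ n * r) + 2 ^ (el n - 1) / 4 ^ n| ≤
      |r| * Real.exp (4 ^ (n + 1) * |r|) + 2 ^ (el n - 1) / 4 ^ n := by
    refine (abs_add_le _ _).trans ?_
    rw [abs_mul, Real.abs_exp, abs_of_pos (by positivity : (0 : ℝ) < 2 ^ (el n - 1) / 4 ^ n)]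
    have h2 : Real.exp (2 * 4 ^ n * r) ≤ Real.exp (4 ^ (n + 1) * |r|) := by
      apply Real.exp_le_exp.2
      have h3 : 2 * 4 ^ n * r ≤ 2 * 4 ^ n * |r| :=
        mul_le_mul_of_nonneg_left (le_abs_self r) (by positivity)
      have h4 : 0 ≤ (4 : ℝ) ^ n * |r| := by positivity
      have h5 : (4 : ℝ) ^ (n + 1) * |r| = 4 * (4 ^ n * |r|) := by rw [pow_succ]; ring
      rw [h5]
      linarith
    gcongr
  have h24 : (2 : ℝ) ^ (n + 1) ≤ 4 ^ (n + 1) := pow_le_pow_left₀ (by norm_num) (by norm_num) _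
  calc (2 : ℝ) ^ (n + 1) * (|r * Real.exp (2 * 4 ^ n * r) + 2 ^ (el n - 1) / 4 ^ n| /
        (1 + 2 ^ el n))
      ≤ 2 ^ (n + 1) * ((|r| * Real.exp (4 ^ (n + 1) * |r|) + 2 ^ (el n - 1) / 4 ^ n) /
        (2 ^ el n)) := by
        gcongr
        linarith
    _ = |r| * (2 ^ (n + 1) * Real.exp (4 ^ (n + 1) * |r|) / 2 ^ el n) +
        2 ^ (n + 1) * (2 ^ (el n - 1) / 4 ^ n) / 2 ^ el n := by ring
    _ ≤ |r| * (4 ^ (n + 1) * Real.exp (4 ^ (n + 1) * |r|) / 2 ^ el n) + (1 / 2) ^ n := by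
        have h6 : 2 ^ (n + 1) * (2 ^ (el n - 1) / 4 ^ n) / 2 ^ el n = (1 / 2 : ℝ) ^ n := by
          rw [hp2, pow_succ, one_div, inv_pow]
          have h7 : (4 : ℝ) ^ n = 2 ^ n * 2 ^ n := by rw [← mul_pow]; norm_num
          rw [h7]
          field_simp
        rw [h6]
        gcongr

theorem lim3 (r : ℝ) : Tendsto (fun n : ℕ => MM (n + 1) *
    (DD n * (r * Real.exp (2 * 4 ^ n * r) + 2 ^ (el n - 1) / 4 ^ n)) ^ 2) atTop (𝓝 0) := by
  have hG := ((tendsto_add_atTop_iff_nat 1).2 (lm_G |r|))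
  have hT : Tendsto (fun n : ℕ => (|r| * ((4 : ℝ) ^ (n + 1) * Real.exp (4 ^ (n + 1) * |r|) /
      2 ^ (8 ^ (n + 1))) + (1 / 2 : ℝ) ^ n) ^ 2) atTop (𝓝 0) := by
    have h1 : Tendsto (fun n : ℕ => (1 / 2 : ℝ) ^ n) atTop (𝓝 0) :=
      tendsto_pow_atTop_nhds_zero_of_lt_one (by norm_num) (by norm_num)
    have := ((hG.const_mul |r|).add h1).pow 2
    simpa using this
  refine squeeze_zero (fun n => ?_) (fun n => ?_) hT
  · unfold MM
    have := lm_one_le_DD (n + 1)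
    positivity
  · have hD := lm_one_le_DD n
    have hD0 : DD n ≠ 0 := by positivity
    have hp : (0 : ℝ) < 2 ^ el n := by positivity
    set X : ℝ := r * Real.exp (2 * 4 ^ n * r) + 2 ^ (el n - 1) / 4 ^ n with hX
    have h1 : MM (n + 1) * (DD n * X) ^ 2 = (2 ^ (n + 1) * (X / (1 + 2 ^ el n))) ^ 2 := by
      unfold MM
      rw [lm_DD_succ]
      have h4 : (4 : ℝ) ^ (n + 1) = (2 ^ (n + 1)) ^ 2 := by
        rw [← pow_mul, mul_comm, pow_mul]; norm_num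
      rw [h4]
      have h5 : (1 + (2 : ℝ) ^ el n) ≠ 0 := by positivity
      field_simp
    rw [h1]
    apply sq_le_sq'
    · -- lower bound
      have habs : |2 ^ (n + 1) * (X / (1 + 2 ^ el n))| ≤
          |r| * ((4 : ℝ) ^ (n + 1) * Real.exp (4 ^ (n + 1) * |r|) / 2 ^ (8 ^ (n + 1))) +
            (1 / 2 : ℝ) ^ n := lm3 r n
      exact (abs_le.1 habs).1
    · have habs : |2 ^ (n + 1) * (X / (1 + 2 ^ el n))| ≤
          |r| * ((4 : ℝ) ^ (n + 1) * Real.exp (4 ^ (n + 1) * |r|) / 2 ^ (8 ^ (n + 1))) +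
            (1 / 2 : ℝ) ^ n := lm3 r n
      exact (abs_le.1 habs).2



end Pool.Agent.Helper635.CS.Lims
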