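import Pool.Agent.Helper635.CS.Defs
set_option autoImplicit false
open scoped ENNReal BigOperators InnerProductSpace Topology
open Polynomial Filter

noncomputable section
namespace Pool.Agent.Helper635.CS.Mass



theorem DD_succ (n : ℕ) : DD (n + 1) = DD n * (1 + (2 : ℝ) ^ el n) := by
  unfold DD; rw [Finset.prod_range_succ]
theorem one_le_DD (n : ℕ) : 1 ≤ DD n := by
  induction n with
  | zero => simp [DD]
  | succ n ih =>
    rw [DD_succ]
    have : (0 : ℝ) < 2 ^ el n := by positivity
    nlinarith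
theorem MM_pos (n : ℕ) : 0 < MM n := by
  have := one_le_DD n
  unfold MM
  positivity
theorem NN_pos (n : ℕ) : 0 < NN n := by
  unfold NN av el; positivity
theorem ww_pos (i : R) : 0 < ww i := by
  have h1 := MM_pos i.1
  have h2 : (0 : ℝ) < NN i.1 := by exact_mod_cast NN_pos i.1
  unfold ww
  positivity
theorem MM_succ_le (n : ℕ) : MM (n + 1) ≤ MM n / 2 := by
  have h1 := one_le_DD n
  have h2 : (2 : ℝ) ^ 3 ≤ 2 ^ el n := by
    apply pow_le_pow_right₀ (by norm_num)
    unfold el
    have : 1 ≤ 8 ^ n := Nat.one_le_pow _ _ (by norm_num)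
    rw [pow_succ]; omega
  unfold MM
  rw [DD_succ, div_div, div_le_div_iff₀ (by positivity) (by positivity)]
  have h3 : (81 : ℝ) ≤ (1 + 2 ^ el n) ^ 2 := by nlinarith
  have h4 : (0 : ℝ) < 4 ^ n * DD n ^ 2 := by positivity
  calc (4 : ℝ) ^ (n + 1) * (DD n ^ 2 * 2) = 8 * (4 ^ n * DD n ^ 2) := by ring
    _ ≤ (1 + 2 ^ el n) ^ 2 * (4 ^ n * DD n ^ 2) := by
      apply mul_le_mul_of_nonneg_right _ h4.le
      linarith
    _ = 4 ^ n * (DD n * (1 + 2 ^ el n)) ^ 2 := by ring
theorem MM_add_le (n m : ℕ) : MM (n + m) ≤ MM n * (1 / 2) ^ m := by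
  induction m with
  | zero => simp
  | succ m ih =>
    have := MM_succ_le (n + m)
    rw [← add_assoc, pow_succ]
    linarith
theorem summable_MM : Summable MM := by
  refine Summable.of_nonneg_of_le (fun n => (MM_pos n).le) (fun n => ?_)
    (summable_geometric_two.mul_left (MM 0))
  have := MM_add_le 0 n
  rwa [zero_add] at this
theorem tail_MM (n : ℕ) : ∑' m, MM (n + m) ≤ 2 * MM n := by
  have h1 : Summable fun m => MM n * (1 / 2 : ℝ) ^ m := summable_geometric_two.mul_left _
  have h2 : Summable fun m => MM (n + m) :=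
    Summable.of_nonneg_of_le (fun m => (MM_pos _).le) (fun m => MM_add_le n m) h1
  calc ∑' m, MM (n + m) ≤ ∑' m, MM n * (1 / 2 : ℝ) ^ m := h2.tsum_le_tsum (fun m => MM_add_le n m) h1
    _ = 2 * MM n := by rw [tsum_mul_left, tsum_geometric_two]; ring
theorem tsum_ww_level (c : ℕ → ℝ) (hc : ∀ n, 0 ≤ c n) (hs : Summable fun n => MM n * c n) :
    (Summable fun i : R => ww i * c i.1) ∧ ∑' i : R, ww i * c i.1 = ∑' n, MM n * c n := by
  have hfib : ∀ n : ℕ, ∑' y : Fin (NN n), ww (⟨n, y⟩ : R) * c n = MM n * c n := by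
    intro n
    have h2 : (NN n : ℝ) ≠ 0 := by exact_mod_cast (NN_pos n).ne'
    rw [tsum_fintype]
    simp only [ww, Finset.sum_const, Finset.card_univ, Fintype.card_fin, nsmul_eq_mul]
    field_simp
  have hsum : Summable fun i : R => ww i * c i.1 := by
    rw [summable_sigma_of_nonneg (fun i => mul_nonneg (ww_pos i).le (hc _))]
    refine ⟨fun n => (hasSum_fintype _).summable, ?_⟩
    simpa only [hfib] using hs
  refine ⟨hsum, ?_⟩
  rw [hsum.tsum_sigma]
  exact tsum_congr hfib
theorem summable_ww : Summable ww := by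
  have := (tsum_ww_level (fun _ => 1) (fun _ => zero_le_one) (by simpa using summable_MM)).1
  simpa using this


end Pool.Agent.Helper635.CS.Mass
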