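import Pool.Agent.Helper635.CS.Defs
set_option autoImplicit false
open scoped ENNReal BigOperators InnerProductSpace Topology
open Polynomial Filter

noncomputable section
namespace Pool.Agent.Helper635.CS.NormLevel



theorem norm_vec2_le (hw : Summable ww) (hw0 : ∀ i, 0 < ww i)
    (hlev : ∀ (c : ℕ → ℝ), (∀ n, 0 ≤ c n) → (Summable fun n => MM n * c n) →
      (Summable fun i : R => ww i * c i.1) ∧ ∑' i : R, ww i * c i.1 = ∑' n, MM n * c n)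
    (hnorm : ∀ (f : R × R → ℂ), Bd f → ‖vec e2 f‖ ^ 2 = ∑' p, e2 p ^ 2 * ‖f p‖ ^ 2)
    (f : R × R → ℂ) (hf : Bd f) (b : ℕ → ℝ) (hb : ∀ n, 0 ≤ b n)
    (hs : Summable fun n => MM n * b n ^ 2) (h : ∀ p, ‖f p‖ ≤ b p.2.1) :
    ‖vec e2 f‖ ^ 2 ≤ (∑' i, ww i) * ∑' n, MM n * b n ^ 2 := by
  obtain ⟨hsum1, hts⟩ := hlev (fun n => b n ^ 2) (fun n => sq_nonneg _) hs
  have hprod : Summable (fun p : R × R => ww p.1 * (ww p.2 * b p.2.1 ^ 2)) :=
    hw.mul_of_nonneg hsum1 (fun i => (hw0 i).le) (fun i => mul_nonneg (hw0 i).le (sq_nonneg _))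
  have hpt : ∀ p : R × R, e2 p ^ 2 * ‖f p‖ ^ 2 ≤ ww p.1 * (ww p.2 * b p.2.1 ^ 2) := by
    intro p
    have he : e2 p ^ 2 = ww p.1 * ww p.2 := by
      unfold e2 ee
      rw [mul_pow, Real.sq_sqrt (hw0 _).le, Real.sq_sqrt (hw0 _).le]
    rw [he, ← mul_assoc]
    exact mul_le_mul_of_nonneg_left (pow_le_pow_left₀ (norm_nonneg _) (h p) 2)
      (mul_nonneg (hw0 _).le (hw0 _).le)
  have hsum2 : Summable (fun p : R × R => e2 p ^ 2 * ‖f p‖ ^ 2) :=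
    Summable.of_nonneg_of_le (fun p => mul_nonneg (sq_nonneg _) (sq_nonneg _)) hpt hprod
  rw [hnorm f hf, ← hts, hw.tsum_mul_tsum hsum1 hprod]
  exact Summable.tsum_le_tsum hpt hsum2 hprod



end Pool.Agent.Helper635.CS.NormLevel
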