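import Pool.Agent.Helper635.CS.Defs
set_option autoImplicit false
open scoped ENNReal BigOperators InnerProductSpace Topology
open Polynomial Filter

noncomputable section
namespace Pool.Agent.Helper635.CS.NotMem



theorem Bd_sub {ι : Type} {f g : ι → ℂ} (hf : Bd f) (hg : Bd g) : Bd (fun i => f i - g i) := by
  obtain ⟨C, hC⟩ := hf
  obtain ⟨D, hD⟩ := hg
  exact ⟨C + D, fun i => (norm_sub_le _ _).trans (add_le_add (hC i) (hD i))⟩

theorem Bd_add {ι : Type} {f g : ι → ℂ} (hf : Bd f) (hg : Bd g) : Bd (fun i => f i + g i) := by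
  obtain ⟨C, hC⟩ := hf
  obtain ⟨D, hD⟩ := hg
  exact ⟨C + D, fun i => (norm_add_le _ _).trans (add_le_add (hC i) (hD i))⟩

theorem Bd_poly {ι : Type} {g : ι → ℂ} (hg : ∀ i, ‖g i‖ ≤ 1) (p : ℂ[X]) :
    Bd (fun i => p.eval (g i)) := by
  induction p using Polynomial.induction_on' with
  | add p q hp hq =>
    simp only [Polynomial.eval_add]
    exact Bd_add hp hq
  | monomial n a =>
    refine ⟨‖a‖, fun i => ?_⟩
    dsimp only
    rw [Polynomial.eval_monomial, norm_mul, norm_pow]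
    exact mul_le_of_le_one_right (norm_nonneg _) (pow_le_one₀ (norm_nonneg _) (hg i))

theorem mon_neg_one_notMem (hz : ∀ i : R, 1 / 2 ≤ ‖z i‖ ∧ ‖z i‖ < 1) (he : Summable fun i => ee i ^ 2)
    (hvec : ∀ (f : R → ℂ), Bd f → ∀ i, vec ee f i = ee i * f i)
    (hnorm : ∀ (f : R → ℂ), Bd f → ‖vec ee f‖ ^ 2 = ∑' i, ee i ^ 2 * ‖f i‖ ^ 2)
    (hb : ∃ C : ℝ, ∀ p : ℂ[X], ‖p.eval 0‖ ≤ C * ‖vec ee (fun i => p.eval (z i))‖) :
    mon (-1) ∉ Hs := by
  intro hmem
  obtain ⟨C, hC⟩ := hb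
  have hz1 : ∀ i, ‖z i‖ ≤ 1 := fun i => (hz i).2.le
  have hz0 : ∀ i, z i ≠ 0 := by
    intro i h
    have := (hz i).1
    rw [h, norm_zero] at this
    norm_num at this
  have hP : ∀ p : ℂ[X], Bd (fun i => p.eval (z i)) := fun p => Bd_poly hz1 p
  have hinv : Bd (fun i => (z i)⁻¹) := by
    refine ⟨2, fun i => ?_⟩
    rw [norm_inv]
    have := (hz i).1
    rw [inv_le_comm₀ (by linarith) (by norm_num)]
    linarith
  have hmon : mon (-1) = vec ee (fun i => (z i)⁻¹) := by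
    unfold mon
    congr 1
    funext i
    rw [zpow_neg_one]
  -- span elements
  have hspan : ∀ v ∈ Submodule.span ℂ (Set.range fun k : ℕ => mon (k : ℤ)),
      ∃ p : ℂ[X], v = vec ee (fun i => p.eval (z i)) := by
    intro v hv
    induction hv using Submodule.span_induction with
    | mem x hx =>
      obtain ⟨k, rfl⟩ := hx
      refine ⟨X ^ k, ?_⟩
      simp only [mon, Polynomial.eval_pow, Polynomial.eval_X, zpow_natCast]
    | zero =>
      refine ⟨0, ?_⟩
      apply lp.ext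
      funext i
      rw [hvec _ (hP 0) i]
      simp
    | add x y _ _ hx hy =>
      obtain ⟨p, rfl⟩ := hx
      obtain ⟨q, rfl⟩ := hy
      refine ⟨p + q, ?_⟩
      apply lp.ext
      funext i
      rw [hvec _ (hP (p + q)) i, lp.coeFn_add, Pi.add_apply, hvec _ (hP p) i, hvec _ (hP q) i,
        Polynomial.eval_add]
      ring
    | smul a x _ hx =>
      obtain ⟨p, rfl⟩ := hx
      refine ⟨Polynomial.C a * p, ?_⟩
      apply lp.ext
      funext i
      rw [hvec _ (hP (Polynomial.C a * p)) i, lp.coeFn_smul, Pi.smul_apply, hvec _ (hP p) i,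
        Polynomial.eval_mul, Polynomial.eval_C, smul_eq_mul]
      ring
  have hsumm : ∀ f : R → ℂ, Bd f → Summable fun i => ee i ^ 2 * ‖f i‖ ^ 2 := by
    rintro f ⟨D, hD⟩
    refine Summable.of_nonneg_of_le (fun i => by positivity) (fun i => ?_) (he.mul_right (D ^ 2))
    exact mul_le_mul_of_nonneg_left (pow_le_pow_left₀ (norm_nonneg _) (hD i) 2) (sq_nonneg _)
  unfold Hs at hmem
  rw [← SetLike.mem_coe, Submodule.topologicalClosure_coe, Metric.mem_closure_iff] at hmem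
  obtain ⟨v, hv, hd⟩ := hmem (1 / (|C| + 1)) (by positivity)
  obtain ⟨p, rfl⟩ := hspan v hv
  rw [dist_comm, dist_eq_norm, hmon] at hd
  have hsub : vec ee (fun i => p.eval (z i)) - vec ee (fun i => (z i)⁻¹) =
      vec ee (fun i => p.eval (z i) - (z i)⁻¹) := by
    apply lp.ext
    funext i
    rw [hvec _ (Bd_sub (hP p) hinv) i, lp.coeFn_sub, Pi.sub_apply, hvec _ (hP p) i, hvec _ hinv i]
    ring
  rw [hsub] at hd
  have hr := hC (X * p - 1)
  have hr0 : ‖(X * p - 1 : ℂ[X]).eval 0‖ = 1 := by simp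
  rw [hr0] at hr
  have hle : ‖vec ee (fun i => (X * p - 1 : ℂ[X]).eval (z i))‖ ≤
      ‖vec ee (fun i => p.eval (z i) - (z i)⁻¹)‖ := by
    apply le_of_sq_le_sq _ (norm_nonneg _)
    rw [hnorm _ (hP _), hnorm _ (Bd_sub (hP p) hinv)]
    refine Summable.tsum_le_tsum (fun i => ?_) (hsumm _ (hP _)) (hsumm _ (Bd_sub (hP p) hinv))
    refine mul_le_mul_of_nonneg_left ?_ (sq_nonneg _)
    apply pow_le_pow_left₀ (norm_nonneg _)
    have : (X * p - 1 : ℂ[X]).eval (z i) = z i * (p.eval (z i) - (z i)⁻¹) := by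
      simp only [Polynomial.eval_sub, Polynomial.eval_mul, Polynomial.eval_X, Polynomial.eval_one]
      rw [mul_sub, mul_inv_cancel₀ (hz0 i)]
    rw [this, norm_mul]
    exact mul_le_of_le_one_left (norm_nonneg _) (hz1 i)
  have h1 : C * ‖vec ee (fun i => (X * p - 1 : ℂ[X]).eval (z i))‖ ≤ |C| * (1 / (|C| + 1)) := by
    calc C * ‖vec ee (fun i => (X * p - 1 : ℂ[X]).eval (z i))‖
        ≤ |C| * ‖vec ee (fun i => (X * p - 1 : ℂ[X]).eval (z i))‖ :=
          mul_le_mul_of_nonneg_right (le_abs_self _) (norm_nonneg _)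
      _ ≤ |C| * (1 / (|C| + 1)) :=
          mul_le_mul_of_nonneg_left (hle.trans hd.le) (abs_nonneg _)
  have h2 : |C| * (1 / (|C| + 1)) < 1 := by
    rw [mul_one_div, div_lt_one (by positivity)]
    linarith
  linarith


end Pool.Agent.Helper635.CS.NotMem
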