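import Pool.Agent.Helper635.CS.Defs
set_option autoImplicit false
open scoped ENNReal BigOperators InnerProductSpace Topology
open Polynomial Filter

noncomputable section
namespace Pool.Agent.Helper635.CS.PartialT




theorem pT_mem {ι : Type} (f : ι → ℂ) : Memℓp f 2 ↔ Summable (fun i => ‖f i‖ ^ 2) := by
  rw [memℓp_gen_iff (by norm_num)]
  simp

theorem pT_norm {ι : Type} (f : L2 ι) : ‖f‖ ^ 2 = ∑' i, ‖f i‖ ^ 2 := by
  have h := lp.norm_rpow_eq_tsum (p := 2) (by norm_num) f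
  simpa using h

theorem pT_inner {ι : Type} (f g : L2 ι) : ⟪f, g⟫_ℂ = ∑' i, g i * (starRingEnd ℂ) (f i) := by
  rw [lp.inner_eq_tsum]
  rfl

theorem pT_summ {ι : Type} (f g : L2 ι) : Summable fun i => g i * (starRingEnd ℂ) (f i) :=
  lp.summable_inner (𝕜 := ℂ) f g

theorem partialT (htens : ∀ (a b : L2 R) (p : R × R), tens a b p = a p.1 * b p.2)
    (T : L2 R →L[ℂ] L2 R) (hT : ∀ a b, ⟪T a, b⟫_ℂ = ⟪a, T b⟫_ℂ) (F : L2 (R × R)) :
    ∃ G : L2 (R × R), (∀ a b, ⟪tens a b, G⟫_ℂ = ⟪tens a (T b), F⟫_ℂ) ∧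
      ∃ row : R → L2 R, (∀ i j, row i j = F (i, j)) ∧ ∀ i j, G (i, j) = T (row i) j := by
  have s : Summable (fun p : R × R => ‖F p‖ ^ 2) := (pT_mem _).1 (lp.memℓp F)
  have hrow : ∀ i : R, Memℓp (fun j : R => F (i, j)) 2 := fun i =>
    (pT_mem _).2 (s.prod_factor i)
  obtain ⟨row, hr⟩ : ∃ row : R → L2 R, ∀ i j, row i j = F (i, j) :=
    ⟨fun i => ⟨fun j => F (i, j), hrow i⟩, fun i j => rfl⟩
  have hrn : ∀ i, ‖row i‖ ^ 2 = ∑' j, ‖F (i, j)‖ ^ 2 := by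
    intro i
    rw [pT_norm]
    exact tsum_congr fun j => by rw [hr]
  have hG : Memℓp (fun p : R × R => T (row p.1) p.2) 2 := by
    rw [pT_mem, summable_prod_of_nonneg (fun p => by positivity)]
    refine ⟨fun i => (pT_mem _).1 (lp.memℓp (T (row i))), ?_⟩
    have h1 : Summable fun i => ‖T‖ ^ 2 * ‖row i‖ ^ 2 := by
      refine Summable.mul_left _ ?_
      have := s.prod
      refine this.congr fun i => ?_
      rw [hrn]
    refine Summable.of_nonneg_of_le (fun i => tsum_nonneg fun j => by positivity) (fun i => ?_) h1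
    have h2 : ∑' j, ‖T (row i) j‖ ^ 2 = ‖T (row i)‖ ^ 2 := (pT_norm _).symm
    calc ∑' j, ‖T (row i) j‖ ^ 2 = ‖T (row i)‖ ^ 2 := h2
      _ ≤ (‖T‖ * ‖row i‖) ^ 2 := by
          gcongr; exact T.le_opNorm _
      _ = ‖T‖ ^ 2 * ‖row i‖ ^ 2 := by ring
  obtain ⟨G, hGv⟩ : ∃ G : L2 (R × R), ∀ i j, G (i, j) = T (row i) j :=
    ⟨⟨fun p : R × R => T (row p.1) p.2, hG⟩, fun i j => rfl⟩
  refine ⟨G, fun a b => ?_, row, hr, hGv⟩
  rw [pT_inner, pT_inner, (pT_summ _ _).tsum_prod, (pT_summ _ _).tsum_prod]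
  refine tsum_congr fun i => ?_
  have e1 : ∀ j, G (i, j) * (starRingEnd ℂ) (tens a b (i, j))
      = (starRingEnd ℂ) (a i) * (T (row i) j * (starRingEnd ℂ) (b j)) := by
    intro j; rw [hGv, htens, map_mul]; ring
  have e2 : ∀ j, F (i, j) * (starRingEnd ℂ) (tens a (T b) (i, j))
      = (starRingEnd ℂ) (a i) * (row i j * (starRingEnd ℂ) (T b j)) := by
    intro j; rw [hr, htens, map_mul]; ring
  rw [tsum_congr e1, tsum_congr e2, tsum_mul_left, tsum_mul_left, ← pT_inner, ← pT_inner, hT]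


end Pool.Agent.Helper635.CS.PartialT
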