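import Pool.Agent.Helper635.CS.Defs
set_option autoImplicit false
open scoped ENNReal BigOperators InnerProductSpace Topology
open Polynomial Filter

noncomputable section
namespace Pool.Agent.Helper635.CS.Rho



theorem exists_rho (hz : ∀ i : R, ‖z i‖ = rad i.1) (hhalf : ∀ n, 1 / 2 ≤ rad n) (hone : ∀ n, rad n < 1)
    (hw : Summable ww) (hw0 : ∀ i, 0 < ww i)
    (hlow : ∀ (i : R) (m : ℕ), m < i.1 → (1 + (2 : ℝ) ^ el m) * (1 - (1 / 8) ^ (m + 1)) ≤ ‖qq m (z i)‖)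
    (hself : ∀ i : R, xx i.1 (z i) ^ el i.1 = 1)
    (hnorm : ∀ (f : R → ℂ), Bd f → ‖vec ee f‖ ^ 2 = ∑' i, ee i ^ 2 * ‖f i‖ ^ 2)
    (hP : ∀ j : R, ∃ C : ℝ, 0 < C ∧ ∀ n, j.1 < n → ∃ P : ℂ[X], P.eval (z j) = 1 ∧
      (∀ k : R, k.1 < n → k ≠ j → P.eval (z k) = 0) ∧ ∀ ζ : ℂ, ‖ζ‖ ≤ 1 → ‖P.eval ζ‖ ≤ C * DD n)
    (g : R → ℂ) (hg : Bd g) (K : ℕ) (ε : ℝ) (hε : 0 < ε) :
    ∃ ρ : ℂ[X], X ^ K ∣ ρ ∧ (∃ c : ℝ, 0 < c ∧ ∀ i, c ≤ ‖ρ.eval (z i)‖) ∧
      ‖vec ee (fun i => (ρ.eval (z i))⁻¹ - g i)‖ ≤ ε := by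
  classical
  obtain ⟨B', hB'⟩ := hg
  set B : ℝ := max B' 0 with hBdef
  have hB0 : 0 ≤ B := le_max_right _ _
  have hB : ∀ i, ‖g i‖ ≤ B := fun i => (hB' i).trans (le_max_left _ _)
  -- the tail
  have htail : Tendsto (fun n : ℕ => ∑' i : R, if n ≤ i.1 then ww i else 0) atTop (𝓝 0) := by
    have h := tendsto_tsum_of_dominated_convergence (𝓕 := atTop) (β := R) (α := ℕ) (G := ℝ)
      (f := fun n i => if n ≤ i.1 then ww i else 0) (g := fun _ => 0) (bound := ww) hw ?_ ?_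
    · simpa using h
    · intro i
      refine tendsto_const_nhds.congr' ?_
      filter_upwards [eventually_gt_atTop i.1] with n hn
      rw [if_neg (by omega)]
    · refine Eventually.of_forall fun n i => ?_
      by_cases h : n ≤ i.1
      · rw [if_pos h, Real.norm_of_nonneg (hw0 i).le]
      · rw [if_neg h, norm_zero]; exact (hw0 i).le
  have hδ : 0 < ε ^ 2 / 2 / (1 + B) ^ 2 := by positivity
  obtain ⟨n, hn⟩ := (htail.eventually (gt_mem_nhds hδ)).exists
  set W : ℝ := ∑' i, ww i with hW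
  have hW0 : 0 ≤ W := tsum_nonneg fun i => (hw0 i).le
  set η : ℝ := min 1 (ε / Real.sqrt (2 * (W + 1))) with hη
  have hη0 : 0 < η := lt_min one_pos (by positivity)
  have hη1 : η ≤ 1 := min_le_left _ _
  have hη2 : η ^ 2 * W ≤ ε ^ 2 / 2 := by
    have h1 : η ^ 2 ≤ (ε / Real.sqrt (2 * (W + 1))) ^ 2 :=
      pow_le_pow_left₀ hη0.le (min_le_right _ _) 2
    rw [div_pow, Real.sq_sqrt (by positivity)] at h1
    calc η ^ 2 * W ≤ ε ^ 2 / (2 * (W + 1)) * (W + 1) :=
          mul_le_mul h1 (by linarith) hW0 (by positivity)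
      _ = ε ^ 2 / 2 := by field_simp
  -- the values
  set t : R → ℂ := fun i => if g i = 0 then (η : ℂ) else g i with ht
  have ht0 : ∀ i, t i ≠ 0 := by
    intro i
    simp only [ht]
    by_cases h : g i = 0
    · rw [if_pos h]; exact_mod_cast hη0.ne'
    · rw [if_neg h]; exact h
  have htg : ∀ i, ‖t i - g i‖ ≤ η := by
    intro i
    simp only [ht]
    by_cases h : g i = 0
    · rw [if_pos h, h, sub_zero, Complex.norm_real, Real.norm_of_nonneg hη0.le]
    · rw [if_neg h, sub_self, norm_zero]; exact hη0.le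
  have htB : ∀ i, ‖t i‖ ≤ B + 1 := by
    intro i
    simp only [ht]
    by_cases h : g i = 0
    · rw [if_pos h, Complex.norm_real, Real.norm_of_nonneg hη0.le]; linarith
    · rw [if_neg h]; linarith [hB i]
  have hz0 : ∀ i, z i ≠ 0 := by
    intro i h
    have h1 := hz i
    have h2 := hhalf i.1
    rw [h, norm_zero] at h1
    linarith
  have hP' : ∀ j : R, ∃ P : ℂ[X], j.1 < n → (P.eval (z j) = 1 ∧
      ∀ k : R, k.1 < n → k ≠ j → P.eval (z k) = 0) := by
    intro j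
    by_cases hj : j.1 < n
    · obtain ⟨_, _, h⟩ := hP j
      obtain ⟨P, h1, h2, _⟩ := h n hj
      exact ⟨P, fun _ => ⟨h1, h2⟩⟩
    · exact ⟨0, fun h => absurd h hj⟩
  choose P hPP using hP'
  set J : Finset R := (Finset.range n).sigma (fun l => (Finset.univ : Finset (Fin (NN l)))) with hJ
  have hmemJ : ∀ j : R, j ∈ J ↔ j.1 < n := by
    intro j
    simp [hJ]
  set q0 : ℂ[X] := ∑ j ∈ J, C ((t j * z j ^ K)⁻¹) * P j with hq0
  set G : ℂ[X] := ∏ l ∈ Finset.range n, (1 - (C 2 * X ^ av l) ^ el l) with hG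
  have hGe : ∀ ζ, G.eval ζ = ∏ l ∈ Finset.range n, qq l ζ := by
    intro ζ
    rw [hG, eval_prod]
    refine Finset.prod_congr rfl fun l _ => ?_
    simp [qq, xx]
  obtain ⟨B1, hB1⟩ := (isCompact_closedBall (0 : ℂ) 1).exists_bound_of_continuousOn
    (f := fun ζ => q0.eval ζ) q0.continuous.continuousOn
  set B0 : ℝ := max B1 0 with hB0def
  have hB00 : 0 ≤ B0 := le_max_right _ _
  have hq0b : ∀ i, ‖q0.eval (z i)‖ ≤ B0 := by
    intro i
    refine (hB1 (z i) ?_).trans (le_max_left _ _)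
    rw [mem_closedBall_zero_iff, hz i]
    exact (hone i.1).le
  set A : ℝ := B0 + 2 ^ K with hA
  set ρ : ℂ[X] := X ^ K * (q0 + C (A : ℂ) * G) with hρ
  have hρlow : ∀ i : R, i.1 < n → ρ.eval (z i) = (t i)⁻¹ := by
    intro i hi
    have hG0 : G.eval (z i) = 0 := by
      rw [hGe]
      refine Finset.prod_eq_zero (Finset.mem_range.2 hi) ?_
      rw [qq, hself i, sub_self]
    have hq : q0.eval (z i) = (t i * z i ^ K)⁻¹ := by
      rw [hq0, eval_finsetSum, Finset.sum_eq_single i]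
      · rw [eval_mul, eval_C, (hPP i hi).1, mul_one]
      · intro j hj hji
        rw [eval_mul, (hPP j ((hmemJ j).1 hj)).2 i hi hji.symm, mul_zero]
      · intro h
        exact absurd ((hmemJ i).2 hi) h
    rw [hρ, eval_mul, eval_pow, eval_X, eval_add, eval_mul, hG0, mul_zero, add_zero, hq, mul_inv]
    have := pow_ne_zero K (hz0 i)
    field_simp
  have hρhigh : ∀ i : R, n ≤ i.1 → 1 ≤ ‖ρ.eval (z i)‖ := by
    intro i hi
    have hG1 : 1 ≤ ‖G.eval (z i)‖ := by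
      rw [hGe, norm_prod]
      refine Finset.prod_induction _ (fun x => (1 : ℝ) ≤ x)
        (fun a b ha hb => one_le_mul_of_one_le_of_one_le ha hb) le_rfl (fun l hl => ?_)
      have hl' : l < i.1 := lt_of_lt_of_le (Finset.mem_range.1 hl) hi
      refine le_trans ?_ (hlow i l hl')
      have h1 : (1 : ℝ) ≤ 2 ^ el l := one_le_pow₀ (by norm_num)
      have h2 : ((1 : ℝ) / 8) ^ (l + 1) ≤ 1 / 8 := by
        rw [pow_succ]
        have : ((1 : ℝ) / 8) ^ l ≤ 1 := pow_le_one₀ (by norm_num) (by norm_num)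
        linarith
      nlinarith
    have h1 : ρ.eval (z i) = z i ^ K * (q0.eval (z i) + A * G.eval (z i)) := by
      rw [hρ, eval_mul, eval_pow, eval_X, eval_add, eval_mul, eval_C]
    have h2 : (1 / 2 : ℝ) ^ K ≤ ‖z i‖ ^ K := by
      refine pow_le_pow_left₀ (by norm_num) ?_ K
      rw [hz i]; exact hhalf i.1
    have hA0 : 0 ≤ A := by positivity
    have h3 : (2 : ℝ) ^ K ≤ ‖q0.eval (z i) + A * G.eval (z i)‖ := by
      have h4 : ‖(A : ℂ) * G.eval (z i)‖ - ‖q0.eval (z i)‖ ≤ ‖q0.eval (z i) + A * G.eval (z i)‖ := by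
        have := norm_sub_norm_le ((A : ℂ) * G.eval (z i)) (-(q0.eval (z i)))
        rw [norm_neg, sub_neg_eq_add, add_comm ((A : ℂ) * G.eval (z i))] at this
        exact this
      rw [norm_mul, Complex.norm_real, Real.norm_of_nonneg hA0] at h4
      have h5 : A * 1 ≤ A * ‖G.eval (z i)‖ := mul_le_mul_of_nonneg_left hG1 hA0
      have h6 := hq0b i
      linarith
    rw [h1, norm_mul, norm_pow]
    calc (1 : ℝ) = (1 / 2) ^ K * 2 ^ K := by rw [← mul_pow]; norm_num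
      _ ≤ _ := mul_le_mul h2 h3 (by positivity) (by positivity)
  have hc : ∀ i, 1 / (B + 1) ≤ ‖ρ.eval (z i)‖ := by
    intro i
    rcases Nat.lt_or_ge i.1 n with hi | hi
    · rw [hρlow i hi, norm_inv, one_div]
      exact inv_anti₀ (norm_pos_iff.2 (ht0 i)) (htB i)
    · refine le_trans ?_ (hρhigh i hi)
      rw [div_le_one (by linarith)]; linarith
  have hcpos : 0 < 1 / (B + 1) := by positivity
  refine ⟨ρ, Dvd.intro _ rfl, ⟨1 / (B + 1), hcpos, hc⟩, ?_⟩
  have hbd : ∀ i, ‖(ρ.eval (z i))⁻¹‖ ≤ B + 1 := by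
    intro i
    rw [norm_inv]
    have := inv_anti₀ hcpos (hc i)
    rwa [one_div, inv_inv] at this
  have hBd : Bd (fun i => (ρ.eval (z i))⁻¹ - g i) :=
    ⟨(B + 1) + B, fun i => (norm_sub_le _ _).trans (add_le_add (hbd i) (hB i))⟩
  have hpt : ∀ i, ee i ^ 2 * ‖(ρ.eval (z i))⁻¹ - g i‖ ^ 2 ≤
      η ^ 2 * ww i + (1 + B) ^ 2 * (if n ≤ i.1 then ww i else 0) := by
    intro i
    have he : ee i ^ 2 = ww i := by rw [ee, Real.sq_sqrt (hw0 i).le]
    have hwi := (hw0 i).le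
    rw [he]
    rcases Nat.lt_or_ge i.1 n with hi | hi
    · rw [if_neg (by omega), hρlow i hi, inv_inv, mul_zero, add_zero, mul_comm]
      exact mul_le_mul_of_nonneg_right (pow_le_pow_left₀ (norm_nonneg _) (htg i) 2) hwi
    · rw [if_pos hi]
      have h1 : ‖(ρ.eval (z i))⁻¹ - g i‖ ≤ 1 + B := by
        refine (norm_sub_le _ _).trans (add_le_add ?_ (hB i))
        rw [norm_inv]
        exact inv_le_one_of_one_le₀ (hρhigh i hi)
      have h2 := mul_le_mul_of_nonneg_left (pow_le_pow_left₀ (norm_nonneg _) h1 2) hwi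
      have h3 : 0 ≤ η ^ 2 * ww i := by positivity
      linarith
  have hs1 : Summable (fun i : R => if n ≤ i.1 then ww i else 0) := by
    refine Summable.of_nonneg_of_le (fun i => ?_) (fun i => ?_) hw
    · by_cases h : n ≤ i.1
      · rw [if_pos h]; exact (hw0 i).le
      · rw [if_neg h]
    · by_cases h : n ≤ i.1
      · rw [if_pos h]
      · rw [if_neg h]; exact (hw0 i).le
  have hs2 : Summable (fun i : R => η ^ 2 * ww i + (1 + B) ^ 2 * (if n ≤ i.1 then ww i else 0)) :=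
    (hw.mul_left _).add (hs1.mul_left _)
  have hs3 : Summable (fun i : R => ee i ^ 2 * ‖(ρ.eval (z i))⁻¹ - g i‖ ^ 2) :=
    Summable.of_nonneg_of_le (fun i => by positivity) hpt hs2
  have hfin : ‖vec ee (fun i => (ρ.eval (z i))⁻¹ - g i)‖ ^ 2 ≤ ε ^ 2 := by
    rw [hnorm _ hBd]
    refine (hs3.tsum_le_tsum hpt hs2).trans ?_
    rw [(hw.mul_left _).tsum_add (hs1.mul_left _), tsum_mul_left, tsum_mul_left]
    have h1 : (1 + B) ^ 2 * ∑' i : R, (if n ≤ i.1 then ww i else 0) ≤ ε ^ 2 / 2 := by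
      have h2 := mul_le_mul_of_nonneg_left hn.le (by positivity : (0 : ℝ) ≤ (1 + B) ^ 2)
      refine h2.trans (le_of_eq ?_)
      field_simp
    linarith
  exact (pow_le_pow_iff_left₀ (norm_nonneg _) hε.le two_ne_zero).1 hfin



end Pool.Agent.Helper635.CS.Rho
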