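import Pool.Agent.Helper635.CS.Defs
set_option autoImplicit false
open scoped ENNReal BigOperators InnerProductSpace Topology
open Polynomial Filter

noncomputable section
namespace Pool.Agent.Helper635.CS.Ring2



theorem J_pow_big (k : ℕ) (hk : 8 ≤ k) : 16 * k ≤ 2 ^ k := by
  induction k, hk using Nat.le_induction with
  | base => norm_num
  | succ k hk ih => rw [pow_succ]; omega

theorem J_half_rpow (d : ℝ) (hd : 0 ≤ d) : 1 - d ≤ (1 / 2 : ℝ) ^ d := by
  have h1 : (1 / 2 : ℝ) ^ d = Real.exp (-(d * Real.log 2)) := by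
    rw [Real.rpow_def_of_pos (by norm_num)]
    congr 1
    rw [one_div, Real.log_inv]
    ring
  have h2 := Real.add_one_le_exp (-(d * Real.log 2))
  have h3 : Real.log 2 ≤ 1 := by
    have := Real.log_two_lt_d9
    linarith
  have h4 : d * Real.log 2 ≤ d * 1 := mul_le_mul_of_nonneg_left h3 hd
  rw [h1]
  linarith

theorem qq_lower (hz : ∀ i : R, ‖z i‖ = rad i.1) (i : R) (m : ℕ) (hm : m < i.1) :
    (1 + (2 : ℝ) ^ el m) * (1 - (1 / 8) ^ (m + 1)) ≤ ‖qq m (z i)‖ := by
  set n := i.1 with hn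
  set E : ℝ := (2 : ℝ) ^ el m with hE
  set b : ℝ := (1 / 8 : ℝ) ^ (m + 2) with hb
  set a : ℝ := (1 / 8 : ℝ) ^ (m + 1) with ha
  have hab : b = a / 8 := by rw [hb, ha, pow_succ]; ring
  have ha0 : 0 < a := by positivity
  have ha1 : a ≤ 1 := pow_le_one₀ (by norm_num) (by norm_num)
  -- size of E
  have hEa : 16 ≤ E * a := by
    have h8 : 8 ≤ 8 ^ (m + 1) := by
      calc 8 = 8 ^ 1 := by norm_num
        _ ≤ 8 ^ (m + 1) := Nat.pow_le_pow_right (by norm_num) (by omega)
    have h1 := J_pow_big (8 ^ (m + 1)) h8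
    have h2 : (16 : ℝ) * 8 ^ (m + 1) ≤ E := by
      rw [hE, el]
      exact_mod_cast h1
    have h3 : (8 : ℝ) ^ (m + 1) * a = 1 := by
      rw [ha, ← mul_pow]; norm_num
    calc (16 : ℝ) = 16 * 8 ^ (m + 1) * a := by rw [mul_assoc, h3, mul_one]
      _ ≤ E * a := mul_le_mul_of_nonneg_right h2 ha0.le
  -- the exponent
  set d : ℝ := ((av n : ℝ))⁻¹ * ((av m * el m : ℕ) : ℝ) with hd
  have hav : (0 : ℝ) < (av n : ℝ) := by
    have : 0 < av n := by unfold av; positivity
    exact_mod_cast this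
  have hd0 : 0 ≤ d := by positivity
  have hdb : d ≤ b := by
    have h1 : av m * el m * 8 ^ (m + 2) ≤ av n := by
      unfold av el
      rw [← pow_add, ← pow_add]
      apply Nat.pow_le_pow_right (by norm_num)
      have : m + 1 + 1 ≤ n + 1 := by omega
      nlinarith
    have h2 : ((av m * el m : ℕ) : ℝ) * 8 ^ (m + 2) ≤ (av n : ℝ) := by exact_mod_cast h1
    have h3 : (8 : ℝ) ^ (m + 2) * b = 1 := by
      rw [hb, ← mul_pow]; norm_num
    rw [hd, inv_mul_le_iff₀ hav]
    calc ((av m * el m : ℕ) : ℝ) = ((av m * el m : ℕ) : ℝ) * 8 ^ (m + 2) * b := by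
          rw [mul_assoc, h3, mul_one]
      _ ≤ (av n : ℝ) * b := mul_le_mul_of_nonneg_right h2 (by positivity)
  have hnorm : ‖xx m (z i) ^ el m‖ = E * (1 / 2 : ℝ) ^ d := by
    have hr : rad n ^ (av m * el m) = (1 / 2 : ℝ) ^ d := by
      rw [rad, ← Real.rpow_natCast, ← Real.rpow_mul (by norm_num)]
    rw [norm_pow, xx, norm_mul, norm_pow, hz i, mul_pow, ← pow_mul, ← hn, hr]
    simp [hE]
  have hlow : E * (1 - b) ≤ ‖xx m (z i) ^ el m‖ := by
    rw [hnorm]
    have h1 := J_half_rpow d hd0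
    exact mul_le_mul_of_nonneg_left (by linarith) (by positivity)
  have htri : ‖xx m (z i) ^ el m‖ - 1 ≤ ‖qq m (z i)‖ := by
    rw [qq, norm_sub_rev]
    have := norm_sub_norm_le (xx m (z i) ^ el m) (1 : ℂ)
    simpa using this
  have hE0 : 0 < E := by positivity
  have : (1 + E) * (1 - a) ≤ E * (1 - b) - 1 := by
    rw [hab]
    nlinarith
  linarith



end Pool.Agent.Helper635.CS.Ring2
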