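import Pool.Agent.Helper635.CS.Defs
set_option autoImplicit false
open scoped ENNReal BigOperators InnerProductSpace Topology
open Polynomial Filter

noncomputable section
namespace Pool.Agent.Helper635.CS.Ring3



theorem xx_upper (hz : ∀ i : R, ‖z i‖ = rad i.1) (i : R) (m : ℕ) (hm : i.1 < m) :
    4 ^ m * ‖xx m (z i)‖ ≤ (1 / 8) ^ (m + 1) := by
  obtain ⟨k, hk1, hk2⟩ : ∃ k, (m+1)^2 = (i.1+1)^2 + k ∧ 2*m+1 ≤ k := by
    refine ⟨(m+1)^2 - (i.1+1)^2, ?_, ?_⟩
    · have : (i.1+1)^2 ≤ (m+1)^2 := Nat.pow_le_pow_left (by omega) 2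
      omega
    · have : (i.1+1)^2 ≤ m^2 := Nat.pow_le_pow_left (by omega) 2
      have h2 : (m+1)^2 = m^2 + 2*m+1 := by ring
      omega
  have hav : av m = av i.1 * 8^k := by unfold av; rw [hk1, pow_add]
  have hapos : (av i.1 : ℝ) ≠ 0 := by unfold av; positivity
  have hr : rad i.1 ^ av i.1 = 1/2 := by
    unfold rad
    rw [← Real.rpow_natCast, ← Real.rpow_mul (by norm_num), inv_mul_cancel₀ hapos, Real.rpow_one]
  have h5 : 5*m+4 ≤ 8^k := by
    have h1 : 8^(2*m+1) ≤ 8^k := Nat.pow_le_pow_right (by norm_num) hk2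
    refine le_trans ?_ h1
    clear * -
    induction m with
    | zero => norm_num
    | succ n ih =>
      have : 8^(2*(n+1)+1) = 64 * 8^(2*n+1) := by ring
      omega
  have hx : ‖xx m (z i)‖ = 2 * (1/2)^(8^k) := by
    unfold xx
    rw [norm_mul, norm_pow, hz, hav, pow_mul, hr]
    simp
  rw [hx]
  have h6 : ((1:ℝ)/2)^(8^k) ≤ (1/2)^(5*m+4) := pow_le_pow_of_le_one (by norm_num) (by norm_num) h5
  calc (4:ℝ)^m * (2 * (1/2)^(8^k)) ≤ 4^m * (2 * (1/2)^(5*m+4)) := by gcongr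
    _ = (1/8)^(m+1) := by
      rw [show (1/2:ℝ)^(5*m+4) = ((1/4)^m) * ((1/8)^m) * (1/16) from ?_, show (1/8:ℝ)^(m+1) = (1/8)^m * (1/8) from pow_succ _ _]
      · have : (4:ℝ)^m * (1/4)^m = 1 := by rw [← mul_pow]; norm_num
        linear_combination ((1/8:ℝ)^m * (1/8)) * this
      · rw [← mul_pow, pow_add, pow_mul]; norm_num


end Pool.Agent.Helper635.CS.Ring3
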