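import Pool.Agent.Helper635.CS.Defs
set_option autoImplicit false
open scoped ENNReal BigOperators InnerProductSpace Topology
open Polynomial Filter

noncomputable section
namespace Pool.Agent.Helper635.CS.RowCol



theorem mem_Ks_of_tens (F : L2 (R × R))
    (h : ∀ a ∈ Hsᗮ, ∀ b ∈ Hsᗮ, ⟪tens a b, F⟫_ℂ = 0) : F ∈ Ks := by
  unfold Ks
  rw [Submodule.mem_orthogonal]
  intro u hu
  induction hu using Submodule.span_induction with
  | mem x hx =>
    obtain ⟨a, ha, b, hb, rfl⟩ := hx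
    exact h a ha b hb
  | zero => exact inner_zero_left _
  | add x y _ _ hx hy => rw [inner_add_left, hx, hy, add_zero]
  | smul c x _ hx => rw [inner_smul_left, hx, mul_zero]

theorem Bd_row {f : R × R → ℂ} (hf : Bd f) (i : R) : Bd (fun j => f (i, j)) := by
  obtain ⟨C, hC⟩ := hf
  exact ⟨C, fun j => hC (i, j)⟩

theorem Bd_col {f : R × R → ℂ} (hf : Bd f) (j : R) : Bd (fun i => f (i, j)) := by
  obtain ⟨C, hC⟩ := hf
  exact ⟨C, fun i => hC (i, j)⟩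

theorem mem_Ks_of_row (hw : Summable ww) (hw0 : ∀ i, 0 < ww i)
    (htens : ∀ (a b : L2 R) (p : R × R), tens a b p = a p.1 * b p.2)
    (hvec : ∀ (f : R → ℂ), Bd f → ∀ i, vec ee f i = ee i * f i)
    (hvec2 : ∀ (f : R × R → ℂ), Bd f → ∀ p, vec e2 f p = e2 p * f p)
    (f : R × R → ℂ) (hf : Bd f)
    (h : ∀ i, vec ee (fun j => f (i, j)) ∈ Hs) : vec e2 f ∈ Ks := by
  apply mem_Ks_of_tens
  intro a ha b hb
  have hs : Summable (fun p : R × R => ⟪tens a b p, vec e2 f p⟫_ℂ) :=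
    lp.summable_inner (tens a b) (vec e2 f)
  rw [lp.inner_eq_tsum, hs.tsum_prod]
  have h0 : ∀ i : R, ∑' j : R, ⟪tens a b (i, j), vec e2 f (i, j)⟫_ℂ = 0 := by
    intro i
    have h1 : ⟪b, vec ee (fun j => f (i, j))⟫_ℂ = 0 := by
      rw [Submodule.mem_orthogonal'] at hb
      exact hb _ (h i)
    rw [lp.inner_eq_tsum] at h1
    have h2 : ∀ j : R, ⟪tens a b (i, j), vec e2 f (i, j)⟫_ℂ
        = ((ee i : ℂ) * (starRingEnd ℂ) (a i)) * ⟪b j, vec ee (fun j => f (i, j)) j⟫_ℂ := by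
      intro j
      rw [htens, hvec2 f hf, hvec _ (Bd_row hf i)]
      simp only [RCLike.inner_apply, map_mul, e2]
      push_cast
      ring
    simp_rw [h2]
    rw [tsum_mul_left, h1, mul_zero]
  simp_rw [h0]
  exact tsum_zero

theorem mem_Ks_of_col (hw : Summable ww) (hw0 : ∀ i, 0 < ww i)
    (htens : ∀ (a b : L2 R) (p : R × R), tens a b p = a p.1 * b p.2)
    (hvec : ∀ (f : R → ℂ), Bd f → ∀ i, vec ee f i = ee i * f i)
    (hvec2 : ∀ (f : R × R → ℂ), Bd f → ∀ p, vec e2 f p = e2 p * f p)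
    (f : R × R → ℂ) (hf : Bd f)
    (h : ∀ j, vec ee (fun i => f (i, j)) ∈ Hs) : vec e2 f ∈ Ks := by
  apply mem_Ks_of_tens
  intro a ha b hb
  have hs : Summable (fun p : R × R => ⟪tens a b p, vec e2 f p⟫_ℂ) :=
    lp.summable_inner (tens a b) (vec e2 f)
  have hs' : Summable (fun p : R × R => ⟪tens a b p.swap, vec e2 f p.swap⟫_ℂ) :=
    (Equiv.prodComm R R).summable_iff.mpr hs
  have hsw : ∑' p : R × R, ⟪tens a b p, vec e2 f p⟫_ℂ
      = ∑' p : R × R, ⟪tens a b p.swap, vec e2 f p.swap⟫_ℂ :=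
    ((Equiv.prodComm R R).tsum_eq (fun p : R × R => ⟪tens a b p, vec e2 f p⟫_ℂ)).symm
  rw [lp.inner_eq_tsum, hsw, hs'.tsum_prod]
  have h0 : ∀ j : R, ∑' i : R, ⟪tens a b (j, i).swap, vec e2 f (j, i).swap⟫_ℂ = 0 := by
    intro j
    have h1 : ⟪a, vec ee (fun i => f (i, j))⟫_ℂ = 0 := by
      rw [Submodule.mem_orthogonal'] at ha
      exact ha _ (h j)
    rw [lp.inner_eq_tsum] at h1
    have h2 : ∀ i : R, ⟪tens a b (j, i).swap, vec e2 f (j, i).swap⟫_ℂ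
        = ((ee j : ℂ) * (starRingEnd ℂ) (b j)) * ⟪a i, vec ee (fun i => f (i, j)) i⟫_ℂ := by
      intro i
      rw [Prod.swap_prod_mk, htens, hvec2 f hf, hvec _ (Bd_col hf j)]
      simp only [RCLike.inner_apply, map_mul, e2]
      push_cast
      ring
    simp_rw [h2]
    rw [tsum_mul_left, h1, mul_zero]
  simp_rw [h0]
  exact tsum_zero

theorem tens_mem_Ks_left (hin : ∀ a b c d : L2 R, ⟪tens a b, tens c d⟫_ℂ = ⟪a, c⟫_ℂ * ⟪b, d⟫_ℂ)
    (a b : L2 R) (ha : a ∈ Hs) : tens a b ∈ Ks := by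
  apply mem_Ks_of_tens
  intro c hc d hd
  rw [Submodule.mem_orthogonal'] at hc
  rw [hin, hc a ha, zero_mul]

theorem tens_mem_Ks_right (hin : ∀ a b c d : L2 R, ⟪tens a b, tens c d⟫_ℂ = ⟪a, c⟫_ℂ * ⟪b, d⟫_ℂ)
    (a b : L2 R) (hb : b ∈ Hs) : tens a b ∈ Ks := by
  apply mem_Ks_of_tens
  intro c hc d hd
  rw [Submodule.mem_orthogonal'] at hd
  rw [hin, hd b hb, mul_zero]



end Pool.Agent.Helper635.CS.RowCol
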