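import Pool.Agent.Helper635.CS.Defs
set_option autoImplicit false
open scoped ENNReal BigOperators InnerProductSpace Topology
open Polynomial Filter

noncomputable section
namespace Pool.Agent.Helper635.CS.TensApi



theorem sum_sq {ι : Type} (a : L2 ι) : Summable fun i => ‖a i‖ ^ 2 := by
  have h := (lp.memℓp a).summable (by norm_num)
  simpa using h

theorem norm_sq_eq {ι : Type} (a : L2 ι) : ‖a‖ ^ 2 = ∑' i, ‖a i‖ ^ 2 := by
  have h := lp.norm_rpow_eq_tsum (p := 2) (by norm_num) a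
  simpa using h

theorem memlp_tens (a b : L2 R) : Memℓp (fun p : R × R => a p.1 * b p.2) 2 := by
  apply memℓp_gen
  have h := (sum_sq a).mul_of_nonneg (sum_sq b) (fun _ => by positivity) (fun _ => by positivity)
  refine h.congr (fun p => ?_)
  simp [mul_pow]

theorem tens_coe (a b : L2 R) (p : R × R) : tens a b p = a p.1 * b p.2 := by
  unfold tens
  rw [dif_pos (memlp_tens a b)]

theorem norm_tens (a b : L2 R) : ‖tens a b‖ = ‖a‖ * ‖b‖ := by
  have h1 : ‖tens a b‖ ^ 2 = (‖a‖ * ‖b‖) ^ 2 := by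
    rw [mul_pow, norm_sq_eq, norm_sq_eq, norm_sq_eq]
    rw [(sum_sq a).tsum_mul_tsum (sum_sq b)
      ((sum_sq a).mul_of_nonneg (sum_sq b) (fun _ => by positivity) (fun _ => by positivity))]
    apply tsum_congr
    intro p
    rw [tens_coe, norm_mul, mul_pow]
  exact (pow_left_inj₀ (norm_nonneg _) (by positivity) two_ne_zero).1 h1

theorem inner_tens (a b c d : L2 R) : ⟪tens a b, tens c d⟫_ℂ = ⟪a, c⟫_ℂ * ⟪b, d⟫_ℂ := by
  have e : ∀ p : R × R, ⟪tens a b p, tens c d p⟫_ℂ = ⟪a p.1, c p.1⟫_ℂ * ⟪b p.2, d p.2⟫_ℂ := by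
    intro p
    rw [tens_coe, tens_coe]
    simp only [RCLike.inner_apply, map_mul]
    ring
  rw [lp.inner_eq_tsum, lp.inner_eq_tsum, lp.inner_eq_tsum]
  have h3 := (lp.summable_inner (𝕜 := ℂ) (tens a b) (tens c d)).congr e
  rw [(lp.summable_inner (𝕜 := ℂ) a c).tsum_mul_tsum (lp.summable_inner (𝕜 := ℂ) b d) h3]
  exact tsum_congr e

theorem tens_add_left (a a' b : L2 R) : tens (a + a') b = tens a b + tens a' b := by
  apply lp.ext
  funext p
  rw [lp.coeFn_add, Pi.add_apply, tens_coe, tens_coe, tens_coe, lp.coeFn_add, Pi.add_apply, add_mul]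

theorem tens_add_right (a b b' : L2 R) : tens a (b + b') = tens a b + tens a b' := by
  apply lp.ext
  funext p
  rw [lp.coeFn_add, Pi.add_apply, tens_coe, tens_coe, tens_coe, lp.coeFn_add, Pi.add_apply, mul_add]

theorem tens_smul_left (c : ℂ) (a b : L2 R) : tens (c • a) b = c • tens a b := by
  apply lp.ext
  funext p
  rw [lp.coeFn_smul, Pi.smul_apply, tens_coe, tens_coe, lp.coeFn_smul, Pi.smul_apply, smul_eq_mul,
    smul_eq_mul, mul_assoc]

theorem tens_smul_right (c : ℂ) (a b : L2 R) : tens a (c • b) = c • tens a b := by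
  apply lp.ext
  funext p
  rw [lp.coeFn_smul, Pi.smul_apply, tens_coe, tens_coe, lp.coeFn_smul, Pi.smul_apply, smul_eq_mul,
    smul_eq_mul, mul_left_comm]

theorem tens_sub_left (a a' b : L2 R) : tens (a - a') b = tens a b - tens a' b := by
  apply lp.ext
  funext p
  rw [lp.coeFn_sub, Pi.sub_apply, tens_coe, tens_coe, tens_coe, lp.coeFn_sub, Pi.sub_apply, sub_mul]

theorem tens_sub_right (a b b' : L2 R) : tens a (b - b') = tens a b - tens a b' := by
  apply lp.ext
  funext p
  rw [lp.coeFn_sub, Pi.sub_apply, tens_coe, tens_coe, tens_coe, lp.coeFn_sub, Pi.sub_apply, mul_sub]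

theorem summable_e2 (hw : Summable ww) (hw0 : ∀ i, 0 < ww i) : Summable fun p => e2 p ^ 2 := by
  have h := hw.mul_of_nonneg hw (fun i => (hw0 i).le) (fun i => (hw0 i).le)
  refine h.congr (fun p => ?_)
  unfold e2 ee
  rw [mul_pow, Real.sq_sqrt (hw0 _).le, Real.sq_sqrt (hw0 _).le]


end Pool.Agent.Helper635.CS.TensApi
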