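import Pool.Agent.Helper635.CS.Defs
set_option autoImplicit false
open scoped ENNReal BigOperators InnerProductSpace Topology
open Polynomial Filter

noncomputable section
namespace Pool.Agent.Helper635.CS.Total



theorem mon_total (hz : ∀ i : R, ‖z i‖ = rad i.1) (hr : StrictMono rad) (hhalf : ∀ n, 1 / 2 ≤ rad n) (hone : ∀ n, rad n < 1)
    (he : Summable fun i => ee i ^ 2) (hee : ∀ i, 0 < ee i)
    (hvec : ∀ (f : R → ℂ), Bd f → ∀ i, vec ee f i = ee i * f i)
    (hP : ∀ j : R, ∃ C : ℝ, 0 < C ∧ ∀ n, j.1 < n → ∃ P : ℂ[X], P.eval (z j) = 1 ∧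
      (∀ k : R, k.1 < n → k ≠ j → P.eval (z k) = 0) ∧ ∀ ζ : ℂ, ‖ζ‖ ≤ 1 → ‖P.eval ζ‖ ≤ C * DD n)
    (a : L2 R) (h : ∀ k : ℤ, ⟪mon k, a⟫_ℂ = 0) : a = 0 := by
  classical
  have hrpos : ∀ n, 0 < rad n := fun n => lt_of_lt_of_le (by norm_num) (hhalf n)
  have hzne : ∀ i : R, z i ≠ 0 := fun i => norm_pos_iff.mp (by rw [hz]; exact hrpos _)
  -- integer powers are bounded
  have hbd : ∀ k : ℤ, Bd (fun i => z i ^ k) := by
    intro k
    refine ⟨2 ^ |k|, fun i => ?_⟩
    rw [norm_zpow, hz]
    rcases le_total 0 k with hk | hk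
    · rw [abs_of_nonneg hk]
      obtain ⟨m, rfl⟩ := Int.eq_ofNat_of_zero_le hk
      simp only [zpow_natCast]
      exact pow_le_pow_left₀ (hrpos _).le (by linarith [hone i.1]) m
    · rw [abs_of_nonpos hk]
      obtain ⟨m, hm⟩ := Int.eq_ofNat_of_zero_le (neg_nonneg.mpr hk)
      have hk' : k = -(m : ℤ) := by rw [← hm]; ring
      rw [hk', neg_neg, zpow_neg, zpow_natCast, zpow_natCast, ← inv_pow]
      refine pow_le_pow_left₀ (inv_nonneg.mpr (hrpos _).le) ?_ m
      rw [inv_le_comm₀ (hrpos _) (by norm_num)]
      have := hhalf i.1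
      norm_num at this ⊢
      exact this
  -- the sequence b
  set b : R → ℂ := fun i => (ee i : ℂ) * a i with hb
  have ha2 : Summable fun i => ‖a i‖ ^ 2 := by
    have := (lp.memℓp a).summable (by norm_num)
    simpa using this
  have hbs : Summable fun i => ‖b i‖ := by
    refine Summable.of_nonneg_of_le (fun i => norm_nonneg _) (fun i => ?_) (he.add ha2)
    rw [hb]
    beta_reduce
    rw [norm_mul, Complex.norm_real, Real.norm_eq_abs, abs_of_pos (hee i)]
    nlinarith [sq_nonneg (ee i - ‖a i‖), sq_nonneg (ee i), sq_nonneg ‖a i‖]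
  have hsumm : ∀ g : R → ℂ, Bd g → Summable fun i => (starRingEnd ℂ) (g i) * b i := by
    rintro g ⟨C, hC⟩
    refine Summable.of_norm_bounded (hbs.mul_left C) (fun i => ?_)
    rw [norm_mul, RCLike.norm_conj]
    gcongr
    exact hC i
  have hmon : ∀ k : ℤ, ∑' i, (starRingEnd ℂ) (z i ^ k) * b i = 0 := by
    intro k
    rw [← h k, lp.inner_eq_tsum]
    refine tsum_congr (fun i => ?_)
    rw [mon, hvec _ (hbd k), RCLike.inner_apply, map_mul, Complex.conj_ofReal, hb]
    ring
  -- the key
  have hbz : ∀ j, b j = 0 := by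
    intro j
    obtain ⟨C, hC, hPn⟩ := hP j
    obtain ⟨P, hP1, hP0, hPb⟩ := hPn (j.1 + 1) (Nat.lt_succ_self _)
    set n := j.1 + 1 with hn
    set ρ : ℝ := rad j.1 / rad n with hρ
    have hρ0 : 0 ≤ ρ := div_nonneg (hrpos _).le (hrpos _).le
    have hρ1 : ρ < 1 := by
      rw [hρ, div_lt_one (hrpos _)]
      exact hr (Nat.lt_succ_self _)
    have hDD : 0 ≤ C * DD n := (norm_nonneg _).trans (hPb 0 (by simp))
    set B : ℝ := ∑' i, ‖b i‖ with hB
    have hbound : ∀ s : ℕ, ‖b j‖ ≤ (C * DD n * ρ ^ s) * B := by
      intro s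
      set g : R → ℂ := fun i => P.eval (z i) * (z j / z i) ^ s with hg
      have hgb : Bd g := by
        refine ⟨C * DD n * 2 ^ s, fun i => ?_⟩
        rw [hg]
        beta_reduce
        rw [norm_mul, norm_pow, norm_div, hz, hz]
        have h1 := hPb (z i) (by rw [hz]; exact (hone _).le)
        refine mul_le_mul h1 ?_ (by have := hrpos i.1; have := hrpos j.1; positivity) hDD
        refine pow_le_pow_left₀ (div_nonneg (hrpos _).le (hrpos _).le) ?_ s
        rw [div_le_iff₀ (hrpos _)]
        have := hone j.1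
        have := hhalf i.1
        linarith
      have hgsum : ∑' i, (starRingEnd ℂ) (g i) * b i = 0 := by
        have e1 : ∀ i, (starRingEnd ℂ) (g i) * b i = ∑ m ∈ Finset.range (P.natDegree + 1),
            (starRingEnd ℂ) (P.coeff m * z j ^ s) * ((starRingEnd ℂ) (z i ^ ((m : ℤ) - s)) * b i) := by
          intro i
          have e2 : g i = ∑ m ∈ Finset.range (P.natDegree + 1),
              P.coeff m * z j ^ s * z i ^ ((m : ℤ) - s) := by
            rw [hg]
            beta_reduce
            rw [Polynomial.eval_eq_sum_range, Finset.sum_mul]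
            refine Finset.sum_congr rfl (fun m _ => ?_)
            rw [zpow_sub₀ (hzne i), zpow_natCast, zpow_natCast, div_pow]
            ring
          rw [e2, map_sum, Finset.sum_mul]
          refine Finset.sum_congr rfl (fun m _ => ?_)
          rw [map_mul]
          ring
        simp_rw [e1]
        rw [Summable.tsum_finsetSum]
        · refine Finset.sum_eq_zero (fun m _ => ?_)
          rw [tsum_mul_left, hmon, mul_zero]
        · intro m _
          exact (hsumm _ (hbd _)).mul_left _
      have hpt : ∀ i, ‖(starRingEnd ℂ) (g i) * b i - (if i = j then b j else 0)‖ ≤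
          (C * DD n * ρ ^ s) * ‖b i‖ := by
        intro i
        by_cases hij : i = j
        · rw [if_pos hij, hij]
          have e2 : g j = 1 := by
            rw [hg]
            beta_reduce
            rw [hP1, div_self (hzne j), one_pow, mul_one]
          rw [e2, map_one, one_mul, sub_self, norm_zero]
          positivity
        · rw [if_neg hij, sub_zero, norm_mul, RCLike.norm_conj]
          refine mul_le_mul_of_nonneg_right ?_ (norm_nonneg _)
          by_cases hlev : i.1 < n
          · rw [hg]
            beta_reduce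
            rw [hP0 i hlev hij, zero_mul, norm_zero]
            positivity
          · push Not at hlev
            rw [hg]
            beta_reduce
            rw [norm_mul, norm_pow, norm_div, hz, hz]
            have h1 := hPb (z i) (by rw [hz]; exact (hone _).le)
            refine mul_le_mul h1 ?_ (by have := hrpos i.1; have := hrpos j.1; positivity) hDD
            refine pow_le_pow_left₀ (div_nonneg (hrpos _).le (hrpos _).le) ?_ s
            rw [hρ]
            exact div_le_div_of_nonneg_left (hrpos _).le (hrpos _) (hr.monotone hlev)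
      have hs1 := hsumm g hgb
      have hs2 : Summable (fun i => if i = j then b j else 0) :=
        (hasSum_ite_eq j (b j)).summable
      have e3 : ∑' i, ((starRingEnd ℂ) (g i) * b i - (if i = j then b j else 0)) = - b j := by
        rw [hs1.tsum_sub hs2, hgsum, tsum_ite_eq, zero_sub]
      have hs3 : Summable (fun i => (C * DD n * ρ ^ s) * ‖b i‖) := hbs.mul_left _
      calc ‖b j‖ = ‖∑' i, ((starRingEnd ℂ) (g i) * b i - (if i = j then b j else 0))‖ := by
            rw [e3, norm_neg]
        _ ≤ ∑' i, (C * DD n * ρ ^ s) * ‖b i‖ :=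
          tsum_of_norm_bounded hs3.hasSum hpt
        _ = _ := tsum_mul_left
    have hlim : Tendsto (fun s : ℕ => (C * DD n * ρ ^ s) * B) atTop (𝓝 0) := by
      have := ((tendsto_pow_atTop_nhds_zero_of_lt_one hρ0 hρ1).const_mul (C * DD n)).mul_const B
      simpa using this
    have := ge_of_tendsto' hlim hbound
    exact norm_le_zero_iff.mp this
  ext j
  have h1 := hbz j
  rw [hb] at h1
  have h2 : ((ee j : ℝ) : ℂ) ≠ 0 := by
    exact_mod_cast (hee j).ne'
  simpa using (mul_eq_zero.mp h1).resolve_left h2


end Pool.Agent.Helper635.CS.Total
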