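import Pool.Agent.Helper635.CS.Defs
set_option autoImplicit false
open scoped ENNReal BigOperators InnerProductSpace Topology
open Polynomial Filter

noncomputable section
namespace Pool.Agent.Helper635.CS.TsumB



theorem tsum_b (hMM : Summable MM) (hpos : ∀ n, 0 < MM n) (htail : ∀ n, ∑' m, MM (n + m) ≤ 2 * MM n)
    (m₀ n : ℕ) (h : m₀ < n) (δ β γ : ℝ) :
    (Summable fun m => MM m * (if m = m₀ then δ else if m < n then 0 else if m = n then β else γ) ^ 2) ∧
    ∑' m, MM m * (if m = m₀ then δ else if m < n then 0 else if m = n then β else γ) ^ 2 ≤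
      MM m₀ * δ ^ 2 + MM n * β ^ 2 + 2 * MM (n + 1) * γ ^ 2 := by
  have hC : Summable (fun m => if m < n + 1 then 0 else MM m * γ ^ 2) := by
    refine Summable.of_nonneg_of_le (fun m => ?_) (fun m => ?_) (hMM.mul_right (γ ^ 2))
    · split_ifs
      · exact le_rfl
      · exact mul_nonneg (hpos m).le (sq_nonneg _)
    · split_ifs
      · exact mul_nonneg (hpos m).le (sq_nonneg _)
      · exact le_rfl
  have hA : HasSum (fun m => if m = m₀ then MM m₀ * δ ^ 2 else 0) (MM m₀ * δ ^ 2) :=
    hasSum_ite_eq m₀ _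
  have hB : HasSum (fun m => if m = n then MM n * β ^ 2 else 0) (MM n * β ^ 2) :=
    hasSum_ite_eq n _
  have hsum := (hA.add hB).add hC.hasSum
  have heq : (fun m => MM m * (if m = m₀ then δ else if m < n then 0 else if m = n then β else γ) ^ 2)
      = fun m => ((if m = m₀ then MM m₀ * δ ^ 2 else 0) + (if m = n then MM n * β ^ 2 else 0)) +
        (if m < n + 1 then 0 else MM m * γ ^ 2) := by
    funext m
    by_cases h1 : m = m₀
    · subst h1
      rw [if_pos rfl, if_pos rfl, if_neg (by omega), if_pos (by omega)]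
      ring
    · by_cases h2 : m < n
      · rw [if_neg h1, if_pos h2, if_neg h1, if_neg (by omega), if_pos (by omega)]
        ring
      · by_cases h3 : m = n
        · subst h3
          rw [if_neg h1, if_neg h2, if_pos rfl, if_neg h1, if_pos rfl, if_pos (by omega)]
          ring
        · rw [if_neg h1, if_neg h2, if_neg h3, if_neg h1, if_neg h3, if_neg (by omega)]
          ring
  have hsum' : HasSum (fun m => MM m * (if m = m₀ then δ else if m < n then 0 else if m = n then β
      else γ) ^ 2) (MM m₀ * δ ^ 2 + MM n * β ^ 2 + ∑' m, (if m < n + 1 then 0 else MM m * γ ^ 2)) := by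
    rw [heq]
    exact hsum
  refine ⟨hsum'.summable, ?_⟩
  rw [hsum'.tsum_eq]
  have h4 : ∑' m, (if m < n + 1 then 0 else MM m * γ ^ 2) = (∑' m, MM (n + 1 + m)) * γ ^ 2 := by
    rw [← hC.sum_add_tsum_nat_add (n + 1), Finset.sum_eq_zero, zero_add, ← tsum_mul_right]
    · refine tsum_congr fun m => ?_
      rw [if_neg (by omega), add_comm m (n + 1)]
    · intro m hm
      rw [if_pos (Finset.mem_range.1 hm)]
  rw [h4]
  have h5 := mul_le_mul_of_nonneg_right (htail (n + 1)) (sq_nonneg γ)
  linarith



end Pool.Agent.Helper635.CS.TsumB
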