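import Pool.Agent.Helper635.CS.Defs
set_option autoImplicit false
open scoped ENNReal BigOperators InnerProductSpace Topology
open Polynomial Filter

noncomputable section
namespace Pool.Agent.Helper635.CS.VecApi



section api
variable {ι : Type}

theorem vec_memlp {e : ι → ℝ} (he : Summable fun i => e i ^ 2) {f : ι → ℂ} (hf : Bd f) :
    Memℓp (fun i => (e i : ℂ) * f i) 2 := by
  obtain ⟨C, hC⟩ := hf
  have h2 : (2 : ENNReal).toReal = (2 : ℝ) := by norm_num
  apply memℓp_gen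
  rw [h2]
  have hs : Summable fun i => C ^ 2 * e i ^ 2 := he.mul_left _
  refine Summable.of_nonneg_of_le (fun i => by positivity) (fun i => ?_) hs
  have h3 : ‖(e i : ℂ) * f i‖ = |e i| * ‖f i‖ := by
    rw [norm_mul, Complex.norm_real, Real.norm_eq_abs]
  rw [h3, Real.rpow_two, mul_pow, sq_abs]
  have h4 : ‖f i‖ ^ 2 ≤ C ^ 2 := pow_le_pow_left₀ (norm_nonneg _) (hC i) 2
  nlinarith [sq_nonneg (e i)]

theorem vec_coe {e : ι → ℝ} (he : Summable fun i => e i ^ 2) {f : ι → ℂ} (hf : Bd f) (i : ι) :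
    vec e f i = e i * f i := by
  unfold vec
  rw [dif_pos (vec_memlp he hf)]

theorem L2_norm_sq (F : L2 ι) : ‖F‖ ^ 2 = ∑' i, ‖F i‖ ^ 2 := by
  have h2 : (2 : ENNReal).toReal = (2 : ℝ) := by norm_num
  have h := lp.norm_rpow_eq_tsum (p := 2) (by rw [h2]; norm_num) F
  rw [h2] at h
  simpa [Real.rpow_two] using h

theorem L2_summable (F : L2 ι) : Summable fun i => ‖F i‖ ^ 2 := by
  have h2 : (2 : ENNReal).toReal = (2 : ℝ) := by norm_num
  have h := (lp.memℓp F).summable (by rw [h2]; norm_num)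
  rw [h2] at h
  simpa [Real.rpow_two] using h

theorem norm_vec_sq {e : ι → ℝ} (he : Summable fun i => e i ^ 2) {f : ι → ℂ} (hf : Bd f) :
    ‖vec e f‖ ^ 2 = ∑' i, e i ^ 2 * ‖f i‖ ^ 2 := by
  rw [L2_norm_sq]
  apply tsum_congr
  intro i
  rw [vec_coe he hf, norm_mul, Complex.norm_real, Real.norm_eq_abs, mul_pow, sq_abs]

theorem Bd_add {f g : ι → ℂ} (hf : Bd f) (hg : Bd g) : Bd (fun i => f i + g i) := by
  obtain ⟨C, hC⟩ := hf
  obtain ⟨D, hD⟩ := hg
  exact ⟨C + D, fun i => (norm_add_le _ _).trans (add_le_add (hC i) (hD i))⟩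

theorem Bd_sub {f g : ι → ℂ} (hf : Bd f) (hg : Bd g) : Bd (fun i => f i - g i) := by
  obtain ⟨C, hC⟩ := hf
  obtain ⟨D, hD⟩ := hg
  exact ⟨C + D, fun i => (norm_sub_le _ _).trans (add_le_add (hC i) (hD i))⟩

theorem Bd_smul {f : ι → ℂ} (hf : Bd f) (c : ℂ) : Bd (fun i => c * f i) := by
  obtain ⟨C, hC⟩ := hf
  refine ⟨‖c‖ * C, fun i => ?_⟩
  rw [norm_mul]
  exact mul_le_mul_of_nonneg_left (hC i) (norm_nonneg _)

theorem vec_add {e : ι → ℝ} (he : Summable fun i => e i ^ 2) {f g : ι → ℂ} (hf : Bd f) (hg : Bd g) :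
    vec e (fun i => f i + g i) = vec e f + vec e g := by
  apply lp.ext
  funext i
  rw [lp.coeFn_add, Pi.add_apply, vec_coe he (Bd_add hf hg), vec_coe he hf, vec_coe he hg]
  ring

theorem vec_sub {e : ι → ℝ} (he : Summable fun i => e i ^ 2) {f g : ι → ℂ} (hf : Bd f) (hg : Bd g) :
    vec e (fun i => f i - g i) = vec e f - vec e g := by
  apply lp.ext
  funext i
  rw [lp.coeFn_sub, Pi.sub_apply, vec_coe he (Bd_sub hf hg), vec_coe he hf, vec_coe he hg]
  ring

theorem vec_smul {e : ι → ℝ} (he : Summable fun i => e i ^ 2) {f : ι → ℂ} (hf : Bd f) (c : ℂ) :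
    vec e (fun i => c * f i) = c • vec e f := by
  apply lp.ext
  funext i
  rw [lp.coeFn_smul, Pi.smul_apply, vec_coe he (Bd_smul hf c), vec_coe he hf, smul_eq_mul]
  ring

theorem Bd_sum {κ : Type} (s : Finset κ) (f : κ → ι → ℂ)
    (hf : ∀ k, Bd (f k)) : Bd (fun i => ∑ k ∈ s, f k i) := by
  classical
  induction s using Finset.induction_on with
  | empty => exact ⟨0, fun i => by simp⟩
  | insert a s ha ih =>
    have := Bd_add (hf a) ih
    simpa [Finset.sum_insert ha] using this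

theorem vec_sum {e : ι → ℝ} (he : Summable fun i => e i ^ 2) {κ : Type} (s : Finset κ) (f : κ → ι → ℂ)
    (hf : ∀ k, Bd (f k)) : vec e (fun i => ∑ k ∈ s, f k i) = ∑ k ∈ s, vec e (f k) := by
  classical
  induction s using Finset.induction_on with
  | empty =>
    apply lp.ext
    funext i
    rw [vec_coe he ⟨0, fun i => by simp⟩]
    simp
  | insert a s ha ih =>
    rw [Finset.sum_insert ha, ← ih, ← vec_add he (hf a) (Bd_sum s f hf)]
    congr 1
    funext i
    rw [Finset.sum_insert ha]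

theorem mul_memlp (m : ι → ℂ) (C : ℝ) (hm : ∀ i, ‖m i‖ ≤ C) (F : L2 ι) :
    Memℓp (fun i => m i * F i) 2 := by
  have h2 : (2 : ENNReal).toReal = (2 : ℝ) := by norm_num
  apply memℓp_gen
  rw [h2]
  have hs : Summable fun i => C ^ 2 * ‖F i‖ ^ 2 := (L2_summable F).mul_left _
  refine Summable.of_nonneg_of_le (fun i => by positivity) (fun i => ?_) hs
  rw [Real.rpow_two, norm_mul, mul_pow]
  have h4 : ‖m i‖ ^ 2 ≤ C ^ 2 := pow_le_pow_left₀ (norm_nonneg _) (hm i) 2
  exact mul_le_mul_of_nonneg_right h4 (by positivity)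

theorem exists_mulL (m : ι → ℂ) (C : ℝ) (hC : 0 ≤ C) (hm : ∀ i, ‖m i‖ ≤ C) :
    ∃ T : L2 ι →L[ℂ] L2 ι, (∀ F i, T F i = m i * F i) ∧ ‖T‖ ≤ C := by
  let T0 : L2 ι →ₗ[ℂ] L2 ι :=
    { toFun := fun F => ⟨fun i => m i * F i, mul_memlp m C hm F⟩
      map_add' := by
        intro F G
        apply lp.ext
        funext i
        show m i * (F + G) i = m i * F i + m i * G i
        rw [lp.coeFn_add, Pi.add_apply]
        ring
      map_smul' := by
        intro c F
        apply lp.ext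
        funext i
        show m i * (c • F) i = c • (m i * F i)
        rw [lp.coeFn_smul, Pi.smul_apply, smul_eq_mul, smul_eq_mul]
        ring }
  have hT0 : ∀ F i, (T0 F) i = m i * F i := fun F i => rfl
  have hb : ∀ F, ‖T0 F‖ ≤ C * ‖F‖ := by
    intro F
    have h1 : ‖T0 F‖ ^ 2 ≤ (C * ‖F‖) ^ 2 := by
      rw [mul_pow, L2_norm_sq, L2_norm_sq F, ← tsum_mul_left]
      apply Summable.tsum_le_tsum _ (L2_summable (T0 F)) ((L2_summable F).mul_left _)
      intro i
      rw [hT0, norm_mul, mul_pow]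
      have h4 : ‖m i‖ ^ 2 ≤ C ^ 2 := pow_le_pow_left₀ (norm_nonneg _) (hm i) 2
      exact mul_le_mul_of_nonneg_right h4 (by positivity)
    exact (sq_le_sq₀ (norm_nonneg _) (mul_nonneg hC (norm_nonneg _))).1 h1
  refine ⟨T0.mkContinuous C hb, fun F i => ?_, T0.mkContinuous_norm_le hC hb⟩
  rw [LinearMap.mkContinuous_apply]
  exact hT0 F i

theorem isStarNormal_of_mul (m : ι → ℂ) (C : ℝ) (hC : 0 ≤ C) (hm : ∀ i, ‖m i‖ ≤ C)
    (T : L2 ι →L[ℂ] L2 ι) (hT : ∀ F i, T F i = m i * F i) :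
    IsStarNormal T ∧ ∀ F i, (ContinuousLinearMap.adjoint T) F i = (starRingEnd ℂ) (m i) * F i := by
  obtain ⟨S, hS, -⟩ := exists_mulL (fun i => (starRingEnd ℂ) (m i)) C hC
    (fun i => by rw [RCLike.norm_conj]; exact hm i)
  have hadj : S = ContinuousLinearMap.adjoint T := by
    rw [ContinuousLinearMap.eq_adjoint_iff]
    intro F G
    rw [lp.inner_eq_tsum, lp.inner_eq_tsum]
    apply tsum_congr
    intro i
    rw [hS, hT]
    simp only [RCLike.inner_apply, map_mul, RCLike.conj_conj]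
    ring
  have hadj' : ∀ F i, (ContinuousLinearMap.adjoint T) F i = (starRingEnd ℂ) (m i) * F i := by
    intro F i
    rw [← hadj]
    exact hS F i
  refine ⟨⟨?_⟩, hadj'⟩
  show star T * T = T * star T
  rw [ContinuousLinearMap.star_eq_adjoint]
  apply ContinuousLinearMap.ext
  intro F
  show (ContinuousLinearMap.adjoint T) (T F) = T ((ContinuousLinearMap.adjoint T) F)
  apply lp.ext
  funext i
  rw [hadj', hT, hT, hadj']
  ring

end api



end Pool.Agent.Helper635.CS.VecApi
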