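import Pool.Agent.Helper635.CS.JRing1
import Pool.Agent.Helper635.CS.JRing2
import Pool.Agent.Helper635.CS.JRing3
import Pool.Agent.Helper635.CS.JMass
import Pool.Agent.Helper635.CS.JLims
import Pool.Agent.Helper635.CS.JVecApi
import Pool.Agent.Helper635.CS.JTensApi
import Pool.Agent.Helper635.CS.JPartialT
import Pool.Agent.Helper635.CS.JRowCol
import Pool.Agent.Helper635.CS.JNormLevel
import Pool.Agent.Helper635.CS.JExpo
import Pool.Agent.Helper635.CS.JExistsP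
import Pool.Agent.Helper635.CS.JBpe
import Pool.Agent.Helper635.CS.JNotMem
import Pool.Agent.Helper635.CS.JTotal
import Pool.Agent.Helper635.CS.JRho
import Pool.Agent.Helper635.CS.JKsLe
import Pool.Agent.Helper635.CS.JBaire
import Pool.Agent.Helper635.CS.JTsumB
set_option autoImplicit false
open scoped ENNReal BigOperators InnerProductSpace Topology
open Polynomial Filter

noncomputable section
namespace Pool.Agent.Helper635.CS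

/-! ### ring facts -/
theorem rad_pow (n : ℕ) : rad n ^ av n = 1 / 2 := Ring1.rad_pow n
theorem half_le_rad (n : ℕ) : 1 / 2 ≤ rad n := Ring1.half_le_rad n
theorem rad_lt_one (n : ℕ) : rad n < 1 := Ring1.rad_lt_one n
theorem norm_z (i : R) : ‖z i‖ = rad i.1 := Ring1.norm_z i
theorem norm_xx_self (i : R) : ‖xx i.1 (z i)‖ = 1 := Ring1.norm_xx_self i
theorem xx_self_pow (i : R) : xx i.1 (z i) ^ el i.1 = 1 := Ring1.xx_self_pow i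
theorem rad_strictMono : StrictMono rad := Ring1.rad_strictMono
theorem z_inj : Function.Injective z := Ring1.z_inj
theorem qq_lower (i : R) (m : ℕ) (hm : m < i.1) :
    (1 + (2 : ℝ) ^ el m) * (1 - (1 / 8) ^ (m + 1)) ≤ ‖qq m (z i)‖ := Ring2.qq_lower norm_z i m hm
theorem xx_upper (i : R) (m : ℕ) (hm : i.1 < m) :
    4 ^ m * ‖xx m (z i)‖ ≤ (1 / 8) ^ (m + 1) := Ring3.xx_upper norm_z i m hm

/-! ### masses -/
theorem one_le_DD (n : ℕ) : 1 ≤ DD n := Mass.one_le_DD n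
theorem MM_pos (n : ℕ) : 0 < MM n := Mass.MM_pos n
theorem ww_pos (i : R) : 0 < ww i := Mass.ww_pos i
theorem summable_MM : Summable MM := Mass.summable_MM
theorem summable_ww : Summable ww := Mass.summable_ww
theorem tail_MM (n : ℕ) : ∑' m, MM (n + m) ≤ 2 * MM n := Mass.tail_MM n
theorem tsum_b (m₀ n : ℕ) (h : m₀ < n) (δ β γ : ℝ) :
    (Summable fun m => MM m * (if m = m₀ then δ else if m < n then 0 else if m = n then β else γ) ^ 2) ∧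
    ∑' m, MM m * (if m = m₀ then δ else if m < n then 0 else if m = n then β else γ) ^ 2 ≤
      MM m₀ * δ ^ 2 + MM n * β ^ 2 + 2 * MM (n + 1) * γ ^ 2 :=
  TsumB.tsum_b summable_MM MM_pos tail_MM m₀ n h δ β γ

theorem ee_sq (i : R) : ee i ^ 2 = ww i := Real.sq_sqrt (ww_pos i).le
theorem summable_ee' : Summable fun i : R => ee i ^ 2 := by
  simpa only [ee_sq] using summable_ww
theorem ee_pos (i : R) : 0 < ee i := Real.sqrt_pos.2 (ww_pos i)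

/-! ### Hilbert space API -/
section api
variable {ι : Type}
theorem vec_coe {e : ι → ℝ} (he : Summable fun i => e i ^ 2) {f : ι → ℂ} (hf : Bd f) (i : ι) :
    vec e f i = e i * f i := VecApi.vec_coe he hf i
theorem norm_vec_sq {e : ι → ℝ} (he : Summable fun i => e i ^ 2) {f : ι → ℂ} (hf : Bd f) :
    ‖vec e f‖ ^ 2 = ∑' i, e i ^ 2 * ‖f i‖ ^ 2 := VecApi.norm_vec_sq he hf
theorem exists_mulL (m : ι → ℂ) (C : ℝ) (hC : 0 ≤ C) (hm : ∀ i, ‖m i‖ ≤ C) :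
    ∃ T : L2 ι →L[ℂ] L2 ι, (∀ F i, T F i = m i * F i) ∧ ‖T‖ ≤ C := VecApi.exists_mulL m C hC hm
theorem isStarNormal_of_mul (m : ι → ℂ) (C : ℝ) (hC : 0 ≤ C) (hm : ∀ i, ‖m i‖ ≤ C)
    (T : L2 ι →L[ℂ] L2 ι) (hT : ∀ F i, T F i = m i * F i) :
    IsStarNormal T ∧ ∀ F i, (ContinuousLinearMap.adjoint T) F i = (starRingEnd ℂ) (m i) * F i :=
  VecApi.isStarNormal_of_mul m C hC hm T hT
end api
theorem tens_coe (a b : L2 R) (p : R × R) : tens a b p = a p.1 * b p.2 := TensApi.tens_coe a b p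
theorem norm_tens (a b : L2 R) : ‖tens a b‖ = ‖a‖ * ‖b‖ := TensApi.norm_tens a b
theorem inner_tens (a b c d : L2 R) : ⟪tens a b, tens c d⟫_ℂ = ⟪a, c⟫_ℂ * ⟪b, d⟫_ℂ :=
  TensApi.inner_tens a b c d
theorem tens_add_left (a a' b : L2 R) : tens (a + a') b = tens a b + tens a' b :=
  TensApi.tens_add_left a a' b
theorem tens_add_right (a b b' : L2 R) : tens a (b + b') = tens a b + tens a b' :=
  TensApi.tens_add_right a b b'
theorem tens_smul_left (c : ℂ) (a b : L2 R) : tens (c • a) b = c • tens a b :=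
  TensApi.tens_smul_left c a b
theorem tens_smul_right (c : ℂ) (a b : L2 R) : tens a (c • b) = c • tens a b :=
  TensApi.tens_smul_right c a b
theorem tens_sub_left (a a' b : L2 R) : tens (a - a') b = tens a b - tens a' b :=
  TensApi.tens_sub_left a a' b
theorem tens_sub_right (a b b' : L2 R) : tens a (b - b') = tens a b - tens a b' :=
  TensApi.tens_sub_right a b b'
theorem summable_e2 : Summable fun p => e2 p ^ 2 := TensApi.summable_e2 summable_ww ww_pos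

theorem vec_coe1 (f : R → ℂ) (hf : Bd f) (i : R) : vec ee f i = ee i * f i :=
  vec_coe summable_ee' hf i
theorem vec_coe2 (f : R × R → ℂ) (hf : Bd f) (p : R × R) : vec e2 f p = e2 p * f p :=
  vec_coe summable_e2 hf p
theorem norm_vec1 (f : R → ℂ) (hf : Bd f) : ‖vec ee f‖ ^ 2 = ∑' i, ee i ^ 2 * ‖f i‖ ^ 2 :=
  norm_vec_sq summable_ee' hf
theorem norm_vec2 (f : R × R → ℂ) (hf : Bd f) : ‖vec e2 f‖ ^ 2 = ∑' p, e2 p ^ 2 * ‖f p‖ ^ 2 :=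
  norm_vec_sq summable_e2 hf

theorem norm_vec2_le (f : R × R → ℂ) (hf : Bd f) (b : ℕ → ℝ) (hb : ∀ n, 0 ≤ b n)
    (hs : Summable fun n => MM n * b n ^ 2) (h : ∀ p, ‖f p‖ ≤ b p.2.1) :
    ‖vec e2 f‖ ^ 2 ≤ (∑' i, ww i) * ∑' n, MM n * b n ^ 2 :=
  NormLevel.norm_vec2_le summable_ww ww_pos Mass.tsum_ww_level norm_vec2 f hf b hb hs h
theorem lim1 (r : ℝ) : Tendsto (fun n : ℕ => MM n * (Real.exp (4 ^ n * r) + 1) ^ 2) atTop (𝓝 0) :=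
  Lims.lim1 r
theorem lim2 : Tendsto (fun n : ℕ => MM n * (DD n / 4 ^ n) ^ 2) atTop (𝓝 0) := Lims.lim2
theorem lim3 (r : ℝ) : Tendsto (fun n : ℕ => MM (n + 1) *
    (DD n * (r * Real.exp (2 * 4 ^ n * r) + 2 ^ (el n - 1) / 4 ^ n)) ^ 2) atTop (𝓝 0) := Lims.lim3 r

theorem z_bounds (i : R) : 1 / 2 ≤ ‖z i‖ ∧ ‖z i‖ < 1 := by
  rw [norm_z]; exact ⟨half_le_rad _, rad_lt_one _⟩

/-! ### polynomials -/
theorem exists_P (j : R) : ∃ C : ℝ, 0 < C ∧ ∀ n, j.1 < n → ∃ P : ℂ[X], P.eval (z j) = 1 ∧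
    (∀ k : R, k.1 < n → k ≠ j → P.eval (z k) = 0) ∧ ∀ ζ : ℂ, ‖ζ‖ ≤ 1 → ‖P.eval ζ‖ ≤ C * DD n :=
  ExistsP.exists_P norm_z z_inj xx_self_pow qq_lower xx_upper j
theorem bpe : ∃ C : ℝ, ∀ p : ℂ[X], ‖p.eval 0‖ ≤ C * ‖vec ee (fun i => p.eval (z i))‖ :=
  Bpe.bpe norm_z z_inj xx_self_pow summable_ww ww_pos qq_lower xx_upper norm_vec1
theorem mon_neg_one_notMem : mon (-1) ∉ Hs :=
  NotMem.mon_neg_one_notMem z_bounds summable_ee' vec_coe1 norm_vec1 bpe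
theorem mon_total (a : L2 R) (h : ∀ k : ℤ, ⟪mon k, a⟫_ℂ = 0) : a = 0 :=
  Total.mon_total norm_z rad_strictMono half_le_rad rad_lt_one summable_ee' ee_pos vec_coe1
    exists_P a h
theorem exists_rho (g : R → ℂ) (hg : Bd g) (K : ℕ) (ε : ℝ) (hε : 0 < ε) :
    ∃ ρ : ℂ[X], X ^ K ∣ ρ ∧ (∃ c : ℝ, 0 < c ∧ ∀ i, c ≤ ‖ρ.eval (z i)‖) ∧
      ‖vec ee (fun i => (ρ.eval (z i))⁻¹ - g i)‖ ≤ ε :=
  Rho.exists_rho norm_z half_le_rad rad_lt_one summable_ww ww_pos qq_lower xx_self_pow norm_vec1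
    exists_P g hg K ε hε

theorem partialT' (T : L2 R →L[ℂ] L2 R) (hT : ∀ a b, ⟪T a, b⟫_ℂ = ⟪a, T b⟫_ℂ) (F : L2 (R × R)) :
    ∃ G : L2 (R × R), (∀ a b, ⟪tens a b, G⟫_ℂ = ⟪tens a (T b), F⟫_ℂ) ∧
      ∃ row : R → L2 R, (∀ i j, row i j = F (i, j)) ∧ ∀ i j, G (i, j) = T (row i) j :=
  PartialT.partialT tens_coe T hT F
theorem partialT (T : L2 R →L[ℂ] L2 R) (hT : ∀ a b, ⟪T a, b⟫_ℂ = ⟪a, T b⟫_ℂ) (F : L2 (R × R)) :
    ∃ G : L2 (R × R), ∀ a b, ⟪tens a b, G⟫_ℂ = ⟪tens a (T b), F⟫_ℂ := by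
  obtain ⟨G, hG, _⟩ := partialT' T hT F
  exact ⟨G, hG⟩
theorem mem_Ks_of_row (f : R × R → ℂ) (hf : Bd f)
    (h : ∀ i, vec ee (fun j => f (i, j)) ∈ Hs) : vec e2 f ∈ Ks :=
  RowCol.mem_Ks_of_row summable_ww ww_pos tens_coe vec_coe1 vec_coe2 f hf h
theorem mem_Ks_of_col (f : R × R → ℂ) (hf : Bd f)
    (h : ∀ j, vec ee (fun i => f (i, j)) ∈ Hs) : vec e2 f ∈ Ks :=
  RowCol.mem_Ks_of_col summable_ww ww_pos tens_coe vec_coe1 vec_coe2 f hf h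
theorem tens_mem_Ks_left (a b : L2 R) (ha : a ∈ Hs) : tens a b ∈ Ks :=
  RowCol.tens_mem_Ks_left inner_tens a b ha
theorem tens_mem_Ks_right (a b : L2 R) (hb : b ∈ Hs) : tens a b ∈ Ks :=
  RowCol.tens_mem_Ks_right inner_tens a b hb
theorem Ks_le : Ks ≤ (Submodule.span ℂ {T | ∃ k l : ℤ, (0 ≤ k ∨ 0 ≤ l) ∧ T = Xm k l}).topologicalClosure :=
  KsLe.Ks_le summable_ee' summable_e2 z_bounds vec_coe1 vec_coe2 tens_coe inner_tens mon_total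
    partialT'

/-! ### truncated exponentials -/
def EJ (J : ℕ) (w : ℂ) : ℂ := ∑ k ∈ Finset.range J, w ^ k / (k.factorial : ℂ)
def PJ (J : ℕ) (w : ℂ) : ℂ := ∑ k ∈ Finset.range J, w ^ k / ((k + 1).factorial : ℂ)
theorem EJ_succ (J : ℕ) (w : ℂ) : EJ (J + 1) w = 1 + w * PJ J w := Expo.EJ_succ J w
theorem norm_EJ_le (J : ℕ) (w : ℂ) : ‖EJ J w‖ ≤ Real.exp ‖w‖ := Expo.norm_EJ_le J w
theorem norm_PJ_le (J : ℕ) (w : ℂ) : ‖PJ J w‖ ≤ Real.exp ‖w‖ := Expo.norm_PJ_le J w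
theorem norm_PJ_sub_one (J : ℕ) (w : ℂ) : ‖PJ (J + 1) w - 1‖ ≤ ‖w‖ * Real.exp ‖w‖ :=
  Expo.norm_PJ_sub_one J w
theorem EJ_mul_neg (W : ℝ) : ∃ J₀ : ℕ, ∀ J, J₀ ≤ J → ∀ w : ℂ, ‖w‖ ≤ W → ‖EJ J w * EJ J (-w)‖ ≤ 2 :=
  Expo.EJ_mul_neg W

/-! ### Baire -/
theorem baire_cyclic {E : Type} [NormedAddCommGroup E] [NormedSpace ℂ E] [CompleteSpace E]
    (N₁ N₂ : E →L[ℂ] E) (hcomm : N₁ * N₂ = N₂ * N₁) {α β : Type} [Countable α] [Countable β]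
    (tA : α → E) (tB : β → E) (B : Submodule ℂ E)
    (hA : ∀ (u : E) (a : α) (ε : ℝ), 0 < ε → ∃ F, ‖F - u‖ < ε ∧
      ∃ q ∈ Submodule.span ℂ (Set.range fun p : ℕ × ℕ => (N₁ ^ p.1 * N₂ ^ p.2) F), ‖q - tA a‖ < ε)
    (hB : ∀ (u : E) (b : β) (ε : ℝ), 0 < ε → ∃ F, ‖F - u‖ < ε ∧
      ∃ q ∈ Submodule.span ℂ (Set.range fun p : ℕ × ℕ => (N₁ ^ p.1 * N₂ ^ p.2) F),
      ∃ y ∈ B, ‖q - y - tB b‖ < ε)
    (hC : ∀ C : Submodule ℂ E, IsClosed (C : Set E) → (∀ x ∈ C, N₁ x ∈ C) → (∀ x ∈ C, N₂ x ∈ C) →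
      (∀ a, tA a ∈ C) → B ≤ C)
    (hD : ∀ C : Submodule ℂ E, IsClosed (C : Set E) → (∀ x ∈ C, N₁ x ∈ C) → (∀ x ∈ C, N₂ x ∈ C) →
      B ≤ C → (∀ b, tB b ∈ C) → C = ⊤) :
    ∃ x : E, Dense ((Submodule.span ℂ
      (Set.range fun p : ℕ × ℕ => (N₁ ^ p.1 * N₂ ^ p.2) x) : Submodule ℂ E) : Set E) :=
  Baire.baire_cyclic N₁ N₂ hcomm tA tB B hA hB hC hD

end Pool.Agent.Helper635.CS
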