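import Pool.Agent.Helper635.CS.Cyc
set_option autoImplicit false
open scoped ENNReal BigOperators InnerProductSpace Topology
open Polynomial Filter

noncomputable section
namespace Pool.Agent.Helper635.CS

/-- a closed subspace of `ℓ²` containing all `lp.single` is everything -/
theorem eq_top_of_single (C : Submodule ℂ (L2 R)) (hC : IsClosed (C : Set (L2 R)))
    (h : ∀ (j : R), (by classical exact (lp.single 2 j (1 : ℂ) : L2 R)) ∈ C) : C = ⊤ := by
  classical
  haveI : CompleteSpace C := hC.completeSpace_coe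
  rw [← Submodule.orthogonal_eq_bot_iff, Submodule.eq_bot_iff]
  intro a ha
  ext j
  rw [Submodule.mem_orthogonal] at ha
  have h1 := ha _ (h j)
  have h2 : ⟪(lp.single 2 j (1 : ℂ) : L2 R), a⟫_ℂ = a j := by
    rw [lp.inner_single_left]; simp
  have h3 : ⟪(lp.single 2 j (1 : ℂ) : L2 R), a⟫_ℂ = 0 := by
    convert h1
  rw [h2] at h3
  simpa using h3

/-- the map `b ↦ (mon 0) ⊗ b` -/
def tl : L2 R →L[ℂ] L2 (R × R) :=
  LinearMap.mkContinuous
    { toFun := fun b => tens (mon 0) b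
      map_add' := fun a b => tens_add_right _ _ _
      map_smul' := fun c a => tens_smul_right _ _ _ } ‖mon 0‖
    (fun b => by rw [LinearMap.coe_mk, AddHom.coe_mk, norm_tens])
theorem tl_apply (b : L2 R) : tl b = tens (mon 0) b := rfl

theorem tgf_eq (j : R) : vec e2 (tgf j) = (ee j : ℂ) • tens (mon 0)
    (by classical exact (lp.single 2 j (1 : ℂ) : L2 R)) := by
  classical
  ext p
  rw [vec_coe summable_e2 (Bd_tgf j), lp.coeFn_smul, Pi.smul_apply, tens_coe, mon,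
    vec_coe summable_ee (Bd_zpow 0)]
  simp only [tgf, e2, zpow_zero, mul_one, smul_eq_mul, lp.single_apply]
  by_cases h : p.2 = j
  · subst h
    simp
    ring
  · simp [h, Pi.single_apply]

theorem map_closed (C : Submodule ℂ Ks) (hC : IsClosed (C : Set Ks)) :
    IsClosed ((C.map Ks.subtype : Submodule ℂ (L2 (R × R))) : Set (L2 (R × R))) := by
  rw [Submodule.map_coe]
  exact (Ks_closed.isClosedEmbedding_subtypeVal).isClosedMap _ hC

theorem hC_E (C : Submodule ℂ Ks) (hC : IsClosed (C : Set Ks)) (h1 : ∀ x ∈ C, S1 x ∈ C)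
    (h2 : ∀ x ∈ C, S2 x ∈ C) (hA : ∀ j, tA j ∈ C) : BE ≤ C := by
  classical
  set C' := C.map Ks.subtype with hC'
  have hcl : IsClosed (C' : Set (L2 (R × R))) := map_closed C hC
  have htop : C'.comap (tl : L2 R →ₗ[ℂ] L2 (R × R)) = ⊤ := by
    apply eq_top_of_single _ (hcl.preimage tl.continuous)
    intro j
    show tl _ ∈ C'
    rw [tl_apply]
    have hj : vec e2 (tgf j) ∈ C' := ⟨tA j, hA j, rfl⟩
    rw [tgf_eq] at hj
    have := Submodule.smul_mem C' ((ee j : ℂ)⁻¹) hj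
    rwa [smul_smul, inv_mul_cancel₀ (by exact_mod_cast (ee_pos j).ne'), one_smul] at this
  have hN : ∀ x ∈ C', N1 x ∈ C' := by
    rintro _ ⟨x, hx, rfl⟩
    exact ⟨S1 x, h1 x hx, rfl⟩
  have hX : ∀ (n : ℕ) (l : ℤ), Xm n l ∈ C' := by
    intro n l
    induction n with
    | zero =>
      have : mon l ∈ C'.comap (tl : L2 R →ₗ[ℂ] L2 (R × R)) := by rw [htop]; trivial
      have h : tens (mon 0) (mon l) ∈ C' := this
      rw [← Xm_eq] at h
      simpa using h
    | succ n ih =>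
      have := hN _ ih
      rw [N1_Xm] at this
      exact_mod_cast this
  have hB : B0 ≤ C' := by
    refine Submodule.topologicalClosure_minimal _ (Submodule.span_le.2 ?_) hcl
    rintro _ ⟨k, l, hk, rfl⟩
    obtain ⟨n, rfl⟩ := Int.eq_ofNat_of_zero_le hk
    exact hX n l
  intro x hx
  obtain ⟨y, hy, hyx⟩ := hB (show (x : L2 (R × R)) ∈ B0 from hx)
  have : y = x := Subtype.ext hyx
  rwa [← this]

theorem hD_E (C : Submodule ℂ Ks) (hC : IsClosed (C : Set Ks)) (h1 : ∀ x ∈ C, S1 x ∈ C)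
    (h2 : ∀ x ∈ C, S2 x ∈ C) (hBC : BE ≤ C) (hB : ∀ k, tB k ∈ C) : C = ⊤ := by
  set C' := C.map Ks.subtype with hC'
  have hcl : IsClosed (C' : Set (L2 (R × R))) := map_closed C hC
  have hN : ∀ x ∈ C', N2 x ∈ C' := by
    rintro _ ⟨x, hx, rfl⟩
    exact ⟨S2 x, h2 x hx, rfl⟩
  have hNn : ∀ (n : ℕ), ∀ x ∈ C', (N2 ^ n) x ∈ C' := by
    intro n
    induction n with
    | zero => intro x hx; simpa using hx
    | succ n ih => intro x hx; rw [pow_succ', mul_apply_eq_comp]; exact hN _ (ih x hx)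
  have hle : Ks ≤ C' := by
    refine Ks_le.trans (Submodule.topologicalClosure_minimal _ (Submodule.span_le.2 ?_) hcl)
    rintro _ ⟨k, l, hkl, rfl⟩
    by_cases hk : 0 ≤ k
    · exact ⟨⟨Xm k l, Xm_mem_Ks (Or.inl hk)⟩, hBC (Xm_mem_B0 l hk), rfl⟩
    · have hl : 0 ≤ l := hkl.resolve_left hk
      obtain ⟨m, rfl⟩ := Int.eq_ofNat_of_zero_le hl
      obtain ⟨n, hn⟩ := Int.eq_ofNat_of_zero_le (show 0 ≤ -k - 1 by omega)
      have hk' : k = -((n : ℤ) + 1) := by omega
      have hb : Xm (-((n : ℤ) + 1)) 0 ∈ C' := ⟨tB n, hB n, rfl⟩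
      have := hNn m _ hb
      rw [N2_pow_Xm] at this
      rw [hk']
      simpa using this
  rw [Submodule.eq_top_iff']
  intro x
  obtain ⟨y, hy, hyx⟩ := hle x.2
  have : y = x := Subtype.ext hyx
  rwa [← this]

theorem cyclic_E : ∃ x : Ks, Dense ((Submodule.span ℂ
    (Set.range fun p : ℕ × ℕ => (S1 ^ p.1 * S2 ^ p.2) x) : Submodule ℂ Ks) : Set Ks) :=
  baire_cyclic S1 S2 S_comm tA tB BE hA_E hB_E hC_E hD_E

theorem surj_E (F : Ks) : ∃ u v : Ks, S1 u + S2 v = F := by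
  obtain ⟨u, hu, v, hv, h⟩ := right_inv F.2
  exact ⟨⟨u, hu⟩, ⟨v, hv⟩, Subtype.ext h⟩

theorem not_exact_E : ∃ u v : Ks, S1 u + S2 v = 0 ∧ ¬ ∃ x : Ks, u = S2 x ∧ v = -(S1 x) := by
  refine ⟨⟨Xm (-1) 0, Xm_mem_Ks (Or.inr le_rfl)⟩, -⟨Xm 0 (-1), Xm_mem_Ks (Or.inl le_rfl)⟩, ?_, ?_⟩
  · apply Subtype.ext
    rw [Submodule.coe_add, S1_coe, S2_coe, Submodule.coe_neg, map_neg, N1_Xm, N2_Xm]
    simp
  · rintro ⟨x, hx, _⟩
    have h1 := congrArg (fun y : Ks => (y : L2 (R × R))) hx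
    simp only [S2_coe] at h1
    apply Xm_neg_notMem
    have : Xm (-1) (-1) = x := by
      ext p
      have h2 := congrArg (fun y : L2 (R × R) => y p) h1
      simp only [N2_apply, Xm_coe] at h2
      have h3 := z_ne p.2
      rw [Xm_coe]
      apply mul_left_cancel₀ h3
      rw [← h2]
      simp only [zpow_neg_one, zpow_zero]
      field_simp
    rw [this]; exact x.2

theorem normal1 : IsStarNormal N1 :=
  (isStarNormal_of_mul zf1 1 zero_le_one (fun p => norm_z_le p.1) N1 N1_apply).1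
theorem normal2 : IsStarNormal N2 :=
  (isStarNormal_of_mul zf2 1 zero_le_one (fun p => norm_z_le p.2) N2 N2_apply).1

end Pool.Agent.Helper635.CS
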