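import Pool.Agent.Helper635.CS.Defs
set_option autoImplicit false
open scoped ENNReal BigOperators InnerProductSpace Topology
open Polynomial Filter

noncomputable section
namespace Pool.Agent.Helper635.CS.ExistsP



theorem J3992_rad_pos (n : ℕ) : 0 < rad n := by
  unfold rad; positivity

theorem J3992_el_pos (n : ℕ) : 1 ≤ el n := Nat.one_le_pow _ _ (by norm_num)

theorem J3992_NN_pos (n : ℕ) : 0 < NN n := by
  unfold NN av el; positivity

theorem J3992_b_pos (m : ℕ) : (0 : ℝ) < 1 - (1 / 8) ^ (m + 1) := by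
  have : ((1 : ℝ) / 8) ^ (m + 1) < 1 := pow_lt_one₀ (by norm_num) (by norm_num) (by omega)
  linarith

theorem J3992_prod (S : Finset ℕ) : 1 - ∑ m ∈ S, ((1 : ℝ) / 8) ^ (m + 1) ≤
    ∏ m ∈ S, (1 - ((1 : ℝ) / 8) ^ (m + 1)) := by
  induction S using Finset.induction_on with
  | empty => simp
  | insert a S ha ih =>
    rw [Finset.sum_insert ha, Finset.prod_insert ha]
    have h1 : (0 : ℝ) < (1 / 8) ^ (a + 1) := by positivity
    have h2 := J3992_b_pos a
    have h3 : ∏ m ∈ S, (1 - ((1 : ℝ) / 8) ^ (m + 1)) ≤ 1 := by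
      apply Finset.prod_le_one
      · intro m _; exact (J3992_b_pos m).le
      · intro m _
        have : (0 : ℝ) < (1 / 8) ^ (m + 1) := by positivity
        linarith
    have h4 : (1 / 8 : ℝ) ^ (a + 1) * ∏ m ∈ S, (1 - ((1 : ℝ) / 8) ^ (m + 1)) ≤ (1 / 8 : ℝ) ^ (a + 1) * 1 :=
      mul_le_mul_of_nonneg_left h3 h1.le
    nlinarith

theorem J3992_sum (n : ℕ) : ∑ m ∈ Finset.range n, ((1 : ℝ) / 8) ^ (m + 1) ≤ 1 / 7 := by
  have : ∀ n : ℕ, ∑ m ∈ Finset.range n, ((1 : ℝ) / 8) ^ (m + 1) = 1 / 7 - 1 / 7 * (1 / 8) ^ n := by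
    intro n
    induction n with
    | zero => simp
    | succ n ih => rw [Finset.sum_range_succ, ih]; ring
  rw [this n]
  have : (0 : ℝ) < (1 / 8) ^ n := by positivity
  linarith

def J3992_Q (m : ℕ) : ℂ[X] := 1 - (C 2 * X ^ av m) ^ el m

theorem J3992_Q_eval (m : ℕ) (ζ : ℂ) : (J3992_Q m).eval ζ = qq m ζ := by
  unfold J3992_Q qq xx
  simp

theorem exists_P (hz : ∀ i : R, ‖z i‖ = rad i.1) (hinj : Function.Injective z)
    (hself : ∀ i : R, xx i.1 (z i) ^ el i.1 = 1)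
    (hlow : ∀ (i : R) (m : ℕ), m < i.1 → (1 + (2 : ℝ) ^ el m) * (1 - (1 / 8) ^ (m + 1)) ≤ ‖qq m (z i)‖)
    (hup : ∀ (i : R) (m : ℕ), i.1 < m → 4 ^ m * ‖xx m (z i)‖ ≤ (1 / 8) ^ (m + 1))
    (j : R) : ∃ C : ℝ, 0 < C ∧ ∀ n, j.1 < n → ∃ P : ℂ[X], P.eval (z j) = 1 ∧
    (∀ k : R, k.1 < n → k ≠ j → P.eval (z k) = 0) ∧ ∀ ζ : ℂ, ‖ζ‖ ≤ 1 → ‖P.eval ζ‖ ≤ C * DD n := by
  set m0 := j.1 with hm0
  have hzj : z j ≠ 0 := by
    intro h
    have := hz j
    rw [h, norm_zero] at this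
    exact absurd this (J3992_rad_pos _).ne
  have hNpos := J3992_NN_pos m0
  have hN0 : (NN m0 : ℂ) ≠ 0 := by exact_mod_cast hNpos.ne'
  -- the lower bound for the other factors
  have hb : ∀ m, m ≠ m0 → 1 - ((1 : ℝ) / 8) ^ (m + 1) ≤ ‖qq m (z j)‖ := by
    intro m hm
    rcases lt_or_gt_of_ne hm with h | h
    · refine le_trans ?_ (hlow j m h)
      have h1 := J3992_b_pos m
      have h2 : (0 : ℝ) < 2 ^ el m := by positivity
      nlinarith
    · have h1 := hup j m h
      have h2 : (1 : ℝ) ≤ 4 ^ m := one_le_pow₀ (by norm_num)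
      have h3 : ‖xx m (z j)‖ ≤ (1 / 8) ^ (m + 1) := by
        refine le_trans ?_ h1
        nlinarith [norm_nonneg (xx m (z j))]
      have h4 : ‖xx m (z j)‖ ≤ 1 := by
        have := J3992_b_pos m
        linarith
      have h5 : ‖xx m (z j)‖ ^ el m ≤ ‖xx m (z j)‖ :=
        pow_le_of_le_one (norm_nonneg _) h4 (Nat.one_le_iff_ne_zero.mp (J3992_el_pos m))
      have h6 : ‖(1 : ℂ)‖ - ‖xx m (z j) ^ el m‖ ≤ ‖qq m (z j)‖ := by
        unfold qq; exact norm_sub_norm_le _ _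
      rw [norm_one, norm_pow] at h6
      linarith
  have hne : ∀ m, m ≠ m0 → qq m (z j) ≠ 0 := by
    intro m hm h
    have := hb m hm
    rw [h, norm_zero] at this
    linarith [J3992_b_pos m]
  set Gc : ℝ := (1 / (NN m0 : ℝ)) * ∑ k ∈ Finset.range (NN m0), (‖z j‖⁻¹) ^ k with hGc
  have hGc0 : 0 ≤ Gc := by positivity
  refine ⟨2 * Gc + 1, by linarith, ?_⟩
  intro n hn
  set S := (Finset.range n).erase m0 with hS
  set P : ℂ[X] := (∏ m ∈ S, (C ((qq m (z j))⁻¹) * J3992_Q m)) *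
    (C (1 / (NN m0 : ℂ)) * ∑ k ∈ Finset.range (NN m0), (C ((z j)⁻¹) * X) ^ k) with hP
  have hPe : ∀ ζ : ℂ, P.eval ζ = (∏ m ∈ S, ((qq m (z j))⁻¹ * qq m ζ)) *
      ((1 / (NN m0 : ℂ)) * ∑ k ∈ Finset.range (NN m0), ((z j)⁻¹ * ζ) ^ k) := by
    intro ζ
    rw [hP, eval_mul, eval_prod, eval_mul, eval_C, eval_finsetSum]
    congr 1
    · apply Finset.prod_congr rfl
      intro m _
      rw [eval_mul, eval_C, J3992_Q_eval]
    · congr 1
      apply Finset.sum_congr rfl
      intro k _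
      rw [eval_pow, eval_mul, eval_C, eval_X]
  refine ⟨P, ?_, ?_, ?_⟩
  · rw [hPe]
    have h1 : ∏ m ∈ S, ((qq m (z j))⁻¹ * qq m (z j)) = 1 := by
      apply Finset.prod_eq_one
      intro m hm
      exact inv_mul_cancel₀ (hne m (Finset.mem_erase.mp hm).1)
    rw [h1, inv_mul_cancel₀ hzj]
    simp only [one_pow, Finset.sum_const, Finset.card_range, nsmul_eq_mul, mul_one, one_mul]
    rw [one_div, inv_mul_cancel₀ hN0]
  · intro k hkn hkj
    rw [hPe]
    by_cases hk : k.1 = m0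
    · have hgeo : ∑ l ∈ Finset.range (NN m0), ((z j)⁻¹ * z k) ^ l = 0 := by
        have hne1 : (z j)⁻¹ * z k ≠ 1 := by
          intro h
          apply hkj
          apply hinj
          field_simp at h
          exact h
        have hk1 := hself k
        have hj1 := hself j
        rw [hk] at hk1
        rw [← hm0] at hj1
        unfold xx at hk1 hj1
        rw [mul_pow, ← pow_mul] at hk1 hj1
        have hpow : z k ^ (av m0 * el m0) = z j ^ (av m0 * el m0) := by
          have h2 : (2 : ℂ) ^ el m0 ≠ 0 := pow_ne_zero _ two_ne_zero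
          exact mul_left_cancel₀ h2 (hk1.trans hj1.symm)
        have htN : ((z j)⁻¹ * z k) ^ (NN m0) = 1 := by
          rw [mul_pow, inv_pow]
          unfold NN
          rw [hpow, inv_mul_cancel₀ (pow_ne_zero _ hzj)]
        have hg := mul_geom_sum ((z j)⁻¹ * z k) (NN m0)
        rw [htN, sub_self] at hg
        rcases mul_eq_zero.mp hg with h | h
        · exact absurd (sub_eq_zero.mp h) hne1
        · exact h
      rw [hgeo, mul_zero, mul_zero]
    · have h1 : ∏ m ∈ S, ((qq m (z j))⁻¹ * qq m (z k)) = 0 := by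
        apply Finset.prod_eq_zero (i := k.1) (Finset.mem_erase.mpr ⟨hk, Finset.mem_range.mpr hkn⟩)
        have : qq k.1 (z k) = 0 := by
          unfold qq
          rw [hself k, sub_self]
        rw [this, mul_zero]
      rw [h1, zero_mul]
  · intro ζ hζ
    rw [hPe, norm_mul]
    have h1 : ‖∏ m ∈ S, ((qq m (z j))⁻¹ * qq m ζ)‖ ≤ 2 * DD n := by
      rw [norm_prod]
      have hstep : ∏ m ∈ S, ‖(qq m (z j))⁻¹ * qq m ζ‖ ≤
          ∏ m ∈ S, ((1 - ((1 : ℝ) / 8) ^ (m + 1))⁻¹ * (1 + (2 : ℝ) ^ el m)) := by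
        apply Finset.prod_le_prod
        · intro m _; exact norm_nonneg _
        · intro m hm
          have hm' := (Finset.mem_erase.mp hm).1
          rw [norm_mul, norm_inv]
          have hq : ‖qq m ζ‖ ≤ 1 + 2 ^ el m := by
            unfold qq xx
            refine (norm_sub_le _ _).trans ?_
            rw [norm_one, norm_pow, norm_mul, norm_pow]
            have h2 : ‖(2 : ℂ)‖ * ‖ζ‖ ^ av m ≤ 2 := by
              have : ‖ζ‖ ^ av m ≤ 1 := pow_le_one₀ (norm_nonneg _) hζ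
              have h3 : ‖(2 : ℂ)‖ = 2 := by simp
              rw [h3]; linarith
            have h3 : (‖(2 : ℂ)‖ * ‖ζ‖ ^ av m) ^ el m ≤ 2 ^ el m :=
              pow_le_pow_left₀ (by positivity) h2 _
            linarith
          have hinv : ‖qq m (z j)‖⁻¹ ≤ (1 - ((1 : ℝ) / 8) ^ (m + 1))⁻¹ :=
            inv_anti₀ (J3992_b_pos m) (hb m hm')
          exact mul_le_mul hinv hq (norm_nonneg _) (inv_nonneg.mpr (J3992_b_pos m).le)
      refine hstep.trans ?_
      rw [Finset.prod_mul_distrib, Finset.prod_inv_distrib]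
      have hB : (1 : ℝ) / 2 ≤ ∏ m ∈ S, (1 - ((1 : ℝ) / 8) ^ (m + 1)) := by
        have h2 := J3992_prod S
        have h3 : ∑ m ∈ S, ((1 : ℝ) / 8) ^ (m + 1) ≤ ∑ m ∈ Finset.range n, ((1 : ℝ) / 8) ^ (m + 1) :=
          Finset.sum_le_sum_of_subset_of_nonneg (Finset.erase_subset _ _) (fun m _ _ => by positivity)
        have h4 := J3992_sum n
        linarith
      have hD : ∏ m ∈ S, (1 + (2 : ℝ) ^ el m) ≤ DD n := by
        unfold DD
        have hmem : m0 ∈ Finset.range n := Finset.mem_range.mpr hn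
        rw [← Finset.mul_prod_erase _ _ hmem]
        have h2 : (0 : ℝ) ≤ ∏ m ∈ S, (1 + (2 : ℝ) ^ el m) := Finset.prod_nonneg fun m _ => by positivity
        have h3 : (1 : ℝ) ≤ 1 + 2 ^ el m0 := by
          have : (0 : ℝ) < 2 ^ el m0 := by positivity
          linarith
        nlinarith
      have hBinv : (∏ m ∈ S, (1 - ((1 : ℝ) / 8) ^ (m + 1)))⁻¹ ≤ 2 := by
        have := inv_anti₀ (by norm_num : (0 : ℝ) < 1 / 2) hB
        simpa using this
      have hDnn : (0 : ℝ) ≤ ∏ m ∈ S, (1 + (2 : ℝ) ^ el m) := Finset.prod_nonneg fun m _ => by positivity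
      exact mul_le_mul hBinv hD hDnn (by norm_num)
    have h2 : ‖(1 / (NN m0 : ℂ)) * ∑ k ∈ Finset.range (NN m0), ((z j)⁻¹ * ζ) ^ k‖ ≤ Gc := by
      rw [norm_mul, hGc]
      have e1 : ‖(1 / (NN m0 : ℂ))‖ = 1 / (NN m0 : ℝ) := by
        rw [norm_div, norm_one, Complex.norm_natCast]
      rw [e1]
      apply mul_le_mul_of_nonneg_left _ (by positivity)
      refine (norm_sum_le _ _).trans ?_
      apply Finset.sum_le_sum
      intro k _
      rw [norm_pow, norm_mul, norm_inv]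
      apply pow_le_pow_left₀ (by positivity)
      have : 0 ≤ ‖z j‖⁻¹ := by positivity
      nlinarith
    have hDD : (0 : ℝ) < DD n := by
      unfold DD
      exact Finset.prod_pos fun m _ => by positivity
    calc _ ≤ (2 * DD n) * Gc := mul_le_mul h1 h2 (norm_nonneg _) (by positivity)
      _ ≤ (2 * Gc + 1) * DD n := by nlinarith


end Pool.Agent.Helper635.CS.ExistsP
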