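import Pool.Agent.Helper635.CS.Defs
set_option autoImplicit false
open scoped ENNReal BigOperators InnerProductSpace Topology
open Polynomial Filter

noncomputable section
namespace Pool.Agent.Helper635.CS.Ring1



theorem av_pos' (n : ℕ) : 0 < av n := by unfold av; positivity
theorem el_pos' (n : ℕ) : 0 < el n := by unfold el; positivity
theorem NN_pos' (n : ℕ) : 0 < NN n := Nat.mul_pos (av_pos' n) (el_pos' n)
theorem rad_pos' (n : ℕ) : 0 < rad n := by unfold rad; positivity

theorem rad_pow (n : ℕ) : rad n ^ av n = 1 / 2 := by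
  unfold rad
  rw [← Real.rpow_natCast, ← Real.rpow_mul (by norm_num), inv_mul_cancel₀, Real.rpow_one]
  exact_mod_cast (av_pos' n).ne'
theorem av_ge_one' (n : ℕ) : (1 : ℝ) ≤ (av n : ℝ) := by exact_mod_cast (av_pos' n)
theorem half_le_rad (n : ℕ) : 1 / 2 ≤ rad n := by
  unfold rad
  have h : (av n : ℝ)⁻¹ ≤ 1 := inv_le_one_of_one_le₀ (av_ge_one' n)
  calc (1 / 2 : ℝ) = (1 / 2 : ℝ) ^ (1 : ℝ) := (Real.rpow_one _).symm
    _ ≤ _ := Real.rpow_le_rpow_of_exponent_ge (by norm_num) (by norm_num) h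
theorem rad_lt_one (n : ℕ) : rad n < 1 := by
  unfold rad
  apply Real.rpow_lt_one (by norm_num) (by norm_num)
  have := av_ge_one' n
  positivity
theorem norm_exp' (n : ℕ) : ‖Complex.exp (2 * Real.pi * Complex.I / (NN n : ℂ))‖ = 1 := by
  have : (2 * Real.pi * Complex.I / (NN n : ℂ)) = ((2 * Real.pi / (NN n : ℝ) : ℝ) : ℂ) * Complex.I := by
    push_cast; ring
  rw [this, Complex.norm_exp_ofReal_mul_I]
theorem norm_z (i : R) : ‖z i‖ = rad i.1 := by
  unfold z
  rw [norm_mul, norm_pow, norm_exp', one_pow, mul_one, Complex.norm_real, Real.norm_eq_abs,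
    abs_of_pos (rad_pos' _)]
theorem norm_xx_self (i : R) : ‖xx i.1 (z i)‖ = 1 := by
  unfold xx
  rw [norm_mul, norm_pow, norm_z, rad_pow]
  norm_num
theorem xx_self_pow (i : R) : xx i.1 (z i) ^ el i.1 = 1 := by
  have hp := Complex.isPrimitiveRoot_exp (NN i.1) (NN_pos' i.1).ne'
  have h1 : z i ^ NN i.1 = ((rad i.1 : ℂ)) ^ NN i.1 := by
    unfold z
    rw [mul_pow, ← pow_mul, mul_comm (i.2 : ℕ), pow_mul, hp.pow_eq_one, one_pow, mul_one]
  unfold xx
  rw [mul_pow, ← pow_mul]
  change _ * z i ^ NN i.1 = 1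
  rw [h1]
  unfold NN
  rw [pow_mul, ← Complex.ofReal_pow, rad_pow, ← mul_pow]
  push_cast
  norm_num
theorem av_strictMono' : StrictMono av := by
  intro m n h
  unfold av
  apply Nat.pow_lt_pow_right (by norm_num)
  have : m + 1 < n + 1 := by omega
  exact Nat.pow_lt_pow_left this (by norm_num)
theorem rad_strictMono : StrictMono rad := by
  intro m n h
  unfold rad
  apply Real.rpow_lt_rpow_of_exponent_gt (by norm_num) (by norm_num)
  have h1 : (av m : ℝ) < av n := by exact_mod_cast av_strictMono' h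
  have h2 := av_ge_one' m
  exact inv_strictAnti₀ (by linarith) h1
theorem z_inj : Function.Injective z := by
  rintro ⟨m, a⟩ ⟨n, b⟩ h
  have hn : rad m = rad n := by
    have := congrArg norm h
    rw [norm_z, norm_z] at this
    exact this
  have hmn : m = n := rad_strictMono.injective hn
  subst hmn
  have hp := Complex.isPrimitiveRoot_exp (NN m) (NN_pos' m).ne'
  have hr : (rad m : ℂ) ≠ 0 := by exact_mod_cast (rad_pos' m).ne'
  unfold z at h
  have h' := mul_left_cancel₀ hr h
  have := hp.pow_inj a.2 b.2 h'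
  congr 1
  exact Fin.ext this


end Pool.Agent.Helper635.CS.Ring1
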