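import Pool.Agent.Helper635.CS.Facts
set_option autoImplicit false
open scoped ENNReal BigOperators InnerProductSpace Topology
open Polynomial Filter

noncomputable section
namespace Pool.Agent.Helper635.CS

theorem norm_z_le (i : R) : ‖z i‖ ≤ 1 := by rw [norm_z]; exact (rad_lt_one _).le
theorem half_le_norm_z (i : R) : 1 / 2 ≤ ‖z i‖ := by rw [norm_z]; exact half_le_rad _
theorem z_ne (i : R) : z i ≠ 0 := by
  intro h; have := half_le_norm_z i; rw [h, norm_zero] at this; norm_num at this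

def zf1 : R × R → ℂ := fun p => z p.1
def zf2 : R × R → ℂ := fun p => z p.2

def N1 : L2 (R × R) →L[ℂ] L2 (R × R) :=
  (exists_mulL zf1 1 zero_le_one (fun p => norm_z_le p.1)).choose
def N2 : L2 (R × R) →L[ℂ] L2 (R × R) :=
  (exists_mulL zf2 1 zero_le_one (fun p => norm_z_le p.2)).choose
theorem N1_apply (F : L2 (R × R)) (p : R × R) : N1 F p = z p.1 * F p :=
  (exists_mulL zf1 1 zero_le_one (fun p => norm_z_le p.1)).choose_spec.1 F p
theorem N2_apply (F : L2 (R × R)) (p : R × R) : N2 F p = z p.2 * F p :=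
  (exists_mulL zf2 1 zero_le_one (fun p => norm_z_le p.2)).choose_spec.1 F p

theorem N_comm : N1 * N2 = N2 * N1 := by
  ext F p
  simp only [mul_apply_eq_comp, N1_apply, N2_apply]
  ring

theorem N1_pow_apply (k : ℕ) (F : L2 (R × R)) (p : R × R) : (N1 ^ k) F p = z p.1 ^ k * F p := by
  induction k generalizing F with
  | zero => simp
  | succ k ih =>
    rw [pow_succ, mul_apply_eq_comp, ih, N1_apply]; ring
theorem N2_pow_apply (k : ℕ) (F : L2 (R × R)) (p : R × R) : (N2 ^ k) F p = z p.2 ^ k * F p := by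
  induction k generalizing F with
  | zero => simp
  | succ k ih =>
    rw [pow_succ, mul_apply_eq_comp, ih, N2_apply]; ring

/-- cyclic subspace -/
def cyc (F : L2 (R × R)) : Submodule ℂ (L2 (R × R)) :=
  Submodule.span ℂ (Set.range fun p : ℕ × ℕ => (N1 ^ p.1 * N2 ^ p.2) F)

theorem self_mem_cyc (F : L2 (R × R)) : F ∈ cyc F :=
  Submodule.subset_span ⟨(0, 0), by simp⟩

theorem N1_mem_cyc {F G : L2 (R × R)} (h : G ∈ cyc F) : N1 G ∈ cyc F := by
  unfold cyc at h ⊢
  induction h using Submodule.span_induction with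
  | mem x hx =>
    obtain ⟨p, rfl⟩ := hx
    refine Submodule.subset_span ⟨(p.1 + 1, p.2), ?_⟩
    simp only [pow_succ', mul_assoc, mul_apply_eq_comp]
  | zero => simp
  | add x y _ _ hx hy => rw [map_add]; exact Submodule.add_mem _ hx hy
  | smul a x _ hx => rw [map_smul]; exact Submodule.smul_mem _ _ hx

theorem N2_mem_cyc {F G : L2 (R × R)} (h : G ∈ cyc F) : N2 G ∈ cyc F := by
  unfold cyc at h ⊢
  induction h using Submodule.span_induction with
  | mem x hx =>
    obtain ⟨p, rfl⟩ := hx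
    refine Submodule.subset_span ⟨(p.1, p.2 + 1), ?_⟩
    have hc : Commute N2 (N1 ^ p.1) := (show Commute N2 N1 from N_comm.symm).pow_right _
    simp only [← mul_apply_eq_comp, pow_succ', ← mul_assoc]
    rw [hc.eq]
  | zero => simp
  | add x y _ _ hx hy => rw [map_add]; exact Submodule.add_mem _ hx hy
  | smul a x _ hx => rw [map_smul]; exact Submodule.smul_mem _ _ hx

/-- the algebra of polynomials in the two coordinates -/
def AA : Subalgebra ℂ (R × R → ℂ) := Algebra.adjoin ℂ {zf1, zf2}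

theorem zf1_mem : zf1 ∈ AA := Algebra.subset_adjoin (by simp)
theorem zf2_mem : zf2 ∈ AA := Algebra.subset_adjoin (by simp)

theorem mul_mem_cyc {m : R × R → ℂ} (hm : m ∈ AA) (F : L2 (R × R)) :
    ∀ G ∈ cyc F, ∃ q ∈ cyc F, ∀ p, q p = m p * G p := by
  unfold AA at hm
  induction hm using Algebra.adjoin_induction with
  | mem x hx =>
    intro G hG
    rcases hx with rfl | hx
    · exact ⟨N1 G, N1_mem_cyc hG, fun p => N1_apply _ _⟩
    · rw [Set.mem_singleton_iff] at hx; subst hx
      exact ⟨N2 G, N2_mem_cyc hG, fun p => N2_apply _ _⟩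
  | algebraMap r =>
    intro G hG
    refine ⟨r • G, Submodule.smul_mem _ _ hG, fun p => ?_⟩
    simp
  | add x y _ _ hx hy =>
    intro G hG
    obtain ⟨q₁, h₁, e₁⟩ := hx G hG
    obtain ⟨q₂, h₂, e₂⟩ := hy G hG
    refine ⟨q₁ + q₂, Submodule.add_mem _ h₁ h₂, fun p => ?_⟩
    simp [e₁, e₂, add_mul]
  | mul x y _ _ hx hy =>
    intro G hG
    obtain ⟨q₁, h₁, e₁⟩ := hy G hG
    obtain ⟨q₂, h₂, e₂⟩ := hx q₁ h₁
    refine ⟨q₂, h₂, fun p => ?_⟩
    simp [e₁, e₂, mul_assoc]

theorem poly_mem_AA {m : R × R → ℂ} (hm : m ∈ AA) (P : ℂ[X]) : (fun p => P.eval (m p)) ∈ AA := by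
  induction P using Polynomial.induction_on' with
  | add p q hp hq =>
    have : (fun t => (p + q).eval (m t)) = (fun t => p.eval (m t)) + fun t => q.eval (m t) := by
      ext t; simp
    rw [this]; exact AA.add_mem hp hq
  | monomial n a =>
    have : (fun t => (monomial n a).eval (m t)) = algebraMap ℂ (R × R → ℂ) a * m ^ n := by
      ext t; simp
    rw [this]; exact AA.mul_mem (AA.algebraMap_mem a) (AA.pow_mem hm n)

theorem PJ_mem_AA {m : R × R → ℂ} (hm : m ∈ AA) (J : ℕ) : (fun p => PJ J (m p)) ∈ AA := by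
  have : (fun p => PJ J (m p)) = fun p => (∑ k ∈ Finset.range J,
      monomial k (((k + 1).factorial : ℂ)⁻¹)).eval (m p) := by
    ext p
    simp only [PJ, Polynomial.eval_finsetSum, Polynomial.eval_monomial]
    exact Finset.sum_congr rfl fun k _ => by rw [div_eq_mul_inv, mul_comm]
  rw [this]; exact poly_mem_AA hm _

end Pool.Agent.Helper635.CS
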